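import Pool.Agent.Lib.MP_fb3619_al.FF.Util

/-!
# MP_fb3619_al, board FF: elements with finite-index centralizer in `C_K(a)` (finding 4303)

`SH`: an `a`-invariant subgroup of `K` all of whose elements have a centralizer of finite index in
`C_K(a)` is locally finite.
-/

set_option autoImplicit false

universe u v

namespace Pool.Agent.FourGp.FF

open Pool.Agent.FourGp.H47 (Odd' inv_of_sq conj_inv_pow mul_inv_self odd_conj comm_of_inv
  mul_inv_self' comm_pow comm_inv conj_comm comm_conj)
open Pool.Agent.FourGp.H99 (LF LF_ext LF_of_surj LF_of_fc shunkov)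

theorem LF_of_inj {A : Type u} {B : Type v} [Group A] [Group B] (f : A →* B)
    (hf : Function.Injective f) (hB : LF B) : LF A := by
  classical
  intro S hS
  have h1 : (S.map f).FG := by
    obtain ⟨T, hT⟩ := hS
    refine ⟨T.image f, ?_⟩
    rw [← hT, MonoidHom.map_closure, Finset.coe_image]
  have h2 : Finite (S.map f) := hB _ h1
  refine Finite.of_injective (fun x : S =>
    (⟨f x.1, Subgroup.mem_map_of_mem _ x.2⟩ : S.map f)) ?_
  intro x y hxy
  have := congrArg Subtype.val hxy
  exact Subtype.ext (hf this)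

theorem LF_of_ker {A : Type u} {B : Type v} [Group A] [Group B] (f : A →* B)
    (hk : LF f.ker) (hB : LF B) : LF A := by
  refine LF_ext f.ker hk ?_
  exact LF_of_inj (QuotientGroup.kerLift f) (QuotientGroup.kerLift_injective f) hB

variable {G : Type u} [Group G]

/-- Subgroups of locally finite subgroups. -/
theorem LF_mono {X Y : Subgroup G} (hXY : X ≤ Y) (hY : LF Y) : LF X :=
  LF_of_inj (Subgroup.inclusion hXY) (Subgroup.inclusion_injective hXY) hY

/-- A subgroup is locally finite if its finitely generated subgroups (as subgroups of `G`)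
are finite. -/
theorem LF_sub {N : Subgroup G} (h : ∀ Y ≤ N, Y.FG → Finite Y) : LF N := by
  classical
  intro S hS
  have h1 : (S.map N.subtype).FG := by
    obtain ⟨T, hT⟩ := hS
    refine ⟨T.image N.subtype, ?_⟩
    rw [← hT, MonoidHom.map_closure, Finset.coe_image]
  have h2 : S.map N.subtype ≤ N := by
    rintro x ⟨y, -, rfl⟩
    exact y.2
  have h3 := h _ h2 h1
  refine Finite.of_injective (fun x : S =>
    (⟨x.1.1, Subgroup.mem_map_of_mem N.subtype x.2⟩ : S.map N.subtype)) ?_
  intro x y hxy
  have := congrArg Subtype.val hxy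
  exact Subtype.ext (Subtype.ext this)

/-- The elements with centralizer of finite index in `D`. -/
def HD (D : Subgroup G) : Subgroup G where
  carrier := {k | fi D k}
  mul_mem' := by
    intro x y hx hy
    have h1 := Subgroup.relIndex_inf_ne_zero (L := D) hx hy
    show (Subgroup.centralizer {x * y}).relIndex D ≠ 0
    refine fun h0 => h1 ?_
    refine Nat.eq_zero_of_zero_dvd ?_
    rw [← h0]
    refine Subgroup.relIndex_dvd_of_le_left D ?_
    intro g hg
    rw [Subgroup.mem_inf] at hg
    have e1 : Commute g x := Subgroup.mem_centralizer_singleton_iff.1 hg.1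
    have e2 : Commute g y := Subgroup.mem_centralizer_singleton_iff.1 hg.2
    exact Subgroup.mem_centralizer_singleton_iff.2 (e1.mul_right e2)
  one_mem' := by
    show (Subgroup.centralizer {1}).relIndex D ≠ 0
    have : (Subgroup.centralizer {(1 : G)}) = ⊤ := by
      ext g
      simp [Subgroup.mem_centralizer_singleton_iff]
    rw [this, Subgroup.relIndex_top_left]
    exact one_ne_zero
  inv_mem' := by
    intro x hx
    have : (Subgroup.centralizer {x⁻¹}) = Subgroup.centralizer {x} := by
      ext g
      rw [Subgroup.mem_centralizer_singleton_iff, Subgroup.mem_centralizer_singleton_iff]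
      constructor
      · intro e
        have e1 : Commute g x⁻¹ := e
        have e2 := e1.inv_right
        rw [inv_inv] at e2
        exact e2
      · intro e
        have e1 : Commute g x := e
        exact e1.inv_right
    show (Subgroup.centralizer {x⁻¹}).relIndex D ≠ 0
    rw [this]
    exact hx

theorem mem_HD {D : Subgroup G} {k : G} : k ∈ HD D ↔ fi D k := Iff.rfl

/-- Conjugating `k` by an element normalising `D`. -/
theorem fi_conj {D : Subgroup G} {g k : G} (hD : ∀ d ∈ D, g * d * g⁻¹ ∈ D) (h : fi D k) :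
    fi D (g⁻¹ * k * g) := by
  apply fi_of_finite
  refine ((fi_finite h).image fun x => g⁻¹ * x * g).subset ?_
  rintro x ⟨d, hd, rfl⟩
  refine ⟨(g * d * g⁻¹)⁻¹ * k * (g * d * g⁻¹), ⟨g * d * g⁻¹, hD d hd, rfl⟩, ?_⟩
  simp only []
  group

/-- Finitely many centralizers. -/
theorem relIndex_centralizer {D : Subgroup G} (T : Finset G) (h : ∀ t ∈ T, fi D t) :
    (Subgroup.centralizer (T : Set G)).relIndex D ≠ 0 := by
  classical
  induction T using Finset.induction_on with
  | empty =>
    have : (Subgroup.centralizer ((∅ : Finset G) : Set G)) = ⊤ := by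
      ext g
      simp [Subgroup.mem_centralizer_iff]
    rw [this, Subgroup.relIndex_top_left]
    exact one_ne_zero
  | insert t T ht ih =>
    have h1 := ih (fun t ht => h t (Finset.mem_insert_of_mem ht))
    have h2 := h t (Finset.mem_insert_self _ _)
    have h3 := Subgroup.relIndex_inf_ne_zero (L := D) h2 h1
    refine fun h0 => h3 ?_
    refine Nat.eq_zero_of_zero_dvd ?_
    rw [← h0]
    refine Subgroup.relIndex_dvd_of_le_left D ?_
    intro g hg
    rw [Subgroup.mem_inf] at hg
    rw [Subgroup.mem_centralizer_iff]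
    intro s hs
    rw [Finset.coe_insert, Set.mem_insert_iff] at hs
    rcases hs with rfl | hs
    · exact (Subgroup.mem_centralizer_singleton_iff.1 hg.1).symm
    · exact Subgroup.mem_centralizer_iff.1 hg.2 s hs

variable {K : Subgroup G} {a b c : G}

/-- SH. -/
theorem sh (h : Fr K a b c) {N : Subgroup G} (hN : N ≤ K) (ha : ∀ u ∈ N, a * u * a ∈ N)
    (hfi : ∀ u ∈ N, fi (Cz K a) u) : LF N := by
  classical
  refine LF_sub ?_
  rintro Y₀ hY₀ ⟨T, hT⟩
  -- the `a`-invariant closure
  set T' : Finset G := T ∪ T.image (fun t => a * t * a) with hT'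
  set Y : Subgroup G := Subgroup.closure (T' : Set G) with hY
  have hTN : ∀ t ∈ T', t ∈ N := by
    intro t ht
    rw [hT', Finset.mem_union] at ht
    have h0 : ∀ t ∈ T, t ∈ N := fun t ht => hY₀ (by
      rw [← hT]; exact Subgroup.subset_closure ht)
    rcases ht with ht | ht
    · exact h0 t ht
    · obtain ⟨s, hs, rfl⟩ := Finset.mem_image.1 ht
      exact ha s (h0 s hs)
  have hYN : Y ≤ N := by
    rw [hY, Subgroup.closure_le]
    exact hTN
  have hYK : Y ≤ K := hYN.trans hN
  have hY0 : Y₀ ≤ Y := by
    rw [← hT, Subgroup.closure_le]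
    intro t ht
    refine Subgroup.subset_closure ?_
    rw [hT']
    exact Finset.mem_union_left _ ht
  have hYa : ∀ u ∈ Y, a * u * a ∈ Y := by
    intro u hu
    rw [hY] at hu
    refine Subgroup.closure_induction (p := fun u _ => a * u * a ∈ Y) ?_ ?_ ?_ ?_ hu
    · intro t ht
      refine Subgroup.subset_closure ?_
      have ht' : t ∈ T' := ht
      rw [hT', Finset.mem_union] at ht'
      rw [hT', Finset.mem_coe, Finset.mem_union]
      rcases ht' with ht' | ht'
      · exact Or.inr (Finset.mem_image_of_mem _ ht')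
      · obtain ⟨s, hs, rfl⟩ := Finset.mem_image.1 ht'
        left
        have e : a * (a * s * a) * a = s := by
          calc a * (a * s * a) * a = (a * a) * s * (a * a) := by group
            _ = s := by rw [h.aa]; group
        rw [e]; exact hs
    · rw [mul_one, h.aa]; exact Y.one_mem
    · intro x y _ _ hx hy
      have e : a * (x * y) * a = (a * x * a) * (a * y * a) := by
        calc a * (x * y) * a = a * x * 1 * y * a := by group
          _ = a * x * (a * a) * y * a := by rw [h.aa]
          _ = _ := by group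
      rw [e]; exact Y.mul_mem hx hy
    · intro x _ hx
      have e : a * x⁻¹ * a = (a * x * a)⁻¹ := by
        rw [mul_inv_rev, mul_inv_rev, inv_of_sq h.aa]; group
      rw [e]; exact Y.inv_mem hx
  -- centralizer
  have hL : (Subgroup.centralizer (T' : Set G)).relIndex (Cz K a) ≠ 0 :=
    relIndex_centralizer T' (fun t ht => hfi t (hTN t ht))
  obtain ⟨R, -, hR⟩ := cover_of_relIndex hL
  have hLY : ∀ g ∈ Subgroup.centralizer (T' : Set G), ∀ y ∈ Y, g * y = y * g := by
    intro g hg y hy
    have h1 : Subgroup.centralizer (T' : Set G) ≤ Subgroup.centralizer (Y : Set G) := by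
      rw [hY, Subgroup.centralizer_closure]
    exact (Subgroup.mem_centralizer_iff.1 (h1 hg) y hy).symm
  -- the central subgroup
  set Z : Subgroup Y := (Cz K a ⊓ Subgroup.centralizer (T' : Set G)).subgroupOf Y with hZ
  have hZc : ∀ z ∈ Z, ∀ y : Y, z * y = y * z := by
    intro z hz y
    rw [hZ, Subgroup.mem_subgroupOf, Subgroup.mem_inf] at hz
    exact Subtype.ext (hLY _ hz.2 _ y.2)
  have hZn : Z.Normal := by
    refine ⟨?_⟩
    intro n hn g
    have e : g * n * g⁻¹ = n := by rw [← hZc n hn g]; group
    rw [e]; exact hn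
  have hZa : ∀ z ∈ Z, (z : G) * a = a * z := by
    intro z hz
    rw [hZ, Subgroup.mem_subgroupOf, Subgroup.mem_inf] at hz
    exact (mem_Cz.1 hz.1).2
  have torY : ∀ g : Y, ∃ n : ℕ, 0 < n ∧ g ^ n = 1 := by
    intro g
    obtain ⟨n, hn⟩ := h.odd _ (hYK g.2)
    exact ⟨2 * n + 1, by omega, Subtype.ext (by simpa using hn)⟩
  -- conjugation by `a`
  let φ : Y →* Y :=
    { toFun := fun k => ⟨a * k * a, hYa _ k.2⟩
      map_one' := by
        apply Subtype.ext
        show a * 1 * a = 1
        rw [mul_one, h.aa]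
      map_mul' := fun x y => by
        apply Subtype.ext
        show a * (x * y) * a = a * x * a * (a * y * a)
        calc a * ((x : G) * y) * a = a * x * 1 * y * a := by group
          _ = a * x * (a * a) * y * a := by rw [h.aa]
          _ = _ := by group }
  have hφ : ∀ k : Y, ((φ k : Y) : G) = a * k * a := fun _ => rfl
  have hφZ : Z ≤ Z.comap φ := by
    intro z hz
    have e : φ z = z := by
      apply Subtype.ext
      rw [hφ, ← hZa z hz, mul_assoc, h.aa, mul_one]
    rw [Subgroup.mem_comap, e]
    exact hz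
  have hQ : LF (Y ⧸ Z) := by
    refine shunkov ?_ (QuotientGroup.map Z Z φ hφZ)
      {q | ∃ w : Y, (w : G) * a = a * w ∧ QuotientGroup.mk' Z w = q} ?_
      {q | ∃ s : Y, a * (s : G) * a = (s : G)⁻¹ ∧ QuotientGroup.mk' Z s = q} ?_ ?_
    · intro q
      obtain ⟨k, rfl⟩ := QuotientGroup.mk'_surjective Z q
      obtain ⟨n, hn, hk⟩ := torY k
      refine ⟨n, hn, ?_⟩
      rw [← map_pow, hk, map_one]
    · -- finitely many cosets
      have h1 : ∀ r : G, ∃ w₀ : Y, ∀ w : Y, (w : G) * a = a * w →
          (w : G) * r⁻¹ ∈ Subgroup.centralizer (T' : Set G) →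
          QuotientGroup.mk' Z w = QuotientGroup.mk' Z w₀ := by
        intro r
        by_cases hr : ∃ w : Y, (w : G) * a = a * w ∧
            (w : G) * r⁻¹ ∈ Subgroup.centralizer (T' : Set G)
        · obtain ⟨w₀, h2, h3⟩ := hr
          refine ⟨w₀, fun w h4 h5 => ?_⟩
          have h6 : w * w₀⁻¹ ∈ Z := by
            rw [hZ, Subgroup.mem_subgroupOf, Subgroup.mem_inf]
            have h7 : ((w * w₀⁻¹ : Y) : G) = (w * r⁻¹) * (w₀ * r⁻¹)⁻¹ := by
              push_cast; group
            refine ⟨mem_Cz.2 ⟨hYK (w * w₀⁻¹).2, ?_⟩, ?_⟩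
            · have c1 : Commute (w : G) a := h4
              have c2 : Commute (w₀ : G) a := h2
              exact c1.mul_left c2.inv_left
            · rw [h7]
              exact (Subgroup.centralizer (T' : Set G)).mul_mem h5
                ((Subgroup.centralizer (T' : Set G)).inv_mem h3)
          have h8 : QuotientGroup.mk' Z (w * w₀⁻¹) = 1 := by
            rw [← MonoidHom.mem_ker, QuotientGroup.ker_mk']; exact h6
          rw [map_mul, map_inv] at h8
          exact mul_inv_eq_one.1 h8
        · exact ⟨1, fun w h4 h5 => absurd ⟨w, h4, h5⟩ hr⟩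
      choose w₀ hw₀ using h1
      refine ((R.finite_toSet).image fun r => QuotientGroup.mk' Z (w₀ r)).subset ?_
      rintro q ⟨w, hw, rfl⟩
      obtain ⟨r, hr, h2⟩ := hR w (mem_Cz.2 ⟨hYK w.2, hw⟩)
      exact ⟨r, hr, (hw₀ r w hw h2).symm⟩
    · rintro q ⟨s, hs, rfl⟩
      show QuotientGroup.mk' Z (φ s) = (QuotientGroup.mk' Z s)⁻¹
      rw [← map_inv]
      congr 1
      exact Subtype.ext (by rw [hφ, hs]; rfl)
    · intro q
      obtain ⟨k, rfl⟩ := QuotientGroup.mk'_surjective Z q
      obtain ⟨w, s, hw, hs, e, h1, h2⟩ := h.dec hYK h.aa hYa k.2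
      refine ⟨_, ⟨⟨w, hw⟩, h1, rfl⟩, _, ⟨⟨s, hs⟩, h2, rfl⟩, ?_⟩
      rw [← map_mul]
      congr 1
      exact Subtype.ext e
  have hZLF : LF Z := by
    refine LF_of_fc (fun g => ?_) fun x => ?_
    · obtain ⟨n, hn, e⟩ := torY g.1
      exact ⟨n, hn, Subtype.ext e⟩
    · have h1 : (Subgroup.centralizer {x} : Subgroup Z) = ⊤ := by
        rw [eq_top_iff]
        intro y _
        rw [Subgroup.mem_centralizer_singleton_iff]
        exact Subtype.ext (hZc y.1 y.2 x.1)
      rw [h1]
      infer_instance
  have hYLF : LF Y := LF_ext Z hZLF hQ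
  have hfin : Finite (⊤ : Subgroup Y) := by
    refine hYLF ⊤ ?_
    rw [← Group.fg_def, Group.fg_iff_subgroup_fg]
    exact ⟨T', rfl⟩
  have hfin' : Finite Y := Finite.of_equiv _ (Subgroup.topEquiv (G := Y)).toEquiv
  exact Finite.of_injective _ (Subgroup.inclusion_injective hY0)

end Pool.Agent.FourGp.FF
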