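import Pool.Agent.Lib.MP_fb3619_al.FF.Iface

/-!
# MP_fb3619_al, board FF, row CNTF: counting in a locally finite group

For a finite subgroup `X ≤ K` invariant under the four-group,
`|X| |C_X(V)|² = |C_X(a)| |C_X(b)| |C_X(c)|`; hence an invariant subgroup `L` of a locally finite
invariant `N` which has finite index in the three centralizers has finite index.
-/

set_option autoImplicit false

universe u

namespace Pool.Agent.FourGp.FF

open Pool.Agent.FourGp.H47 (Odd' inv_of_sq)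
open Pool.Agent.FourGp.H99 (LF)

namespace Cnt

variable {G : Type u} [Group G] {K : Subgroup G} {a b c : G}

/-- The elements of `X` centralized by `b` and inverted by `a`. -/
def IB (X : Subgroup G) (a b : G) : Set G := {u | u ∈ X ∧ u * b = b * u ∧ a * u * a = u⁻¹}

theorem sq_uniq (h : Fr K a b c) {s t : G} (hs : s ∈ K) (ht : t ∈ K) (e : s * s = t * t) :
    s = t := by
  obtain ⟨n, hn⟩ := h.odd s hs
  obtain ⟨n', hn'⟩ := h.odd t ht
  set N := (2 * n + 1) * (2 * n' + 1) with hN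
  have h1 : s ^ N = 1 := by rw [hN, pow_mul, hn, one_pow]
  have h2 : t ^ N = 1 := by rw [hN, mul_comm, pow_mul, hn', one_pow]
  have h3 : ∃ q, N + 1 = 2 * q := ⟨2 * n * n' + n + n' + 1, by rw [hN]; ring⟩
  obtain ⟨q, hq⟩ := h3
  calc s = s ^ (N + 1) := by rw [pow_succ, h1, one_mul]
    _ = (s * s) ^ q := by rw [hq, pow_mul, pow_two]
    _ = (t * t) ^ q := by rw [e]
    _ = t ^ (N + 1) := by rw [hq, pow_mul, pow_two]
    _ = t := by rw [pow_succ, h2, one_mul]

/-- For `k = α β γ`, the involution `γ⁻¹ b γ` commutes with `k⁻¹ a k` and with `c`. -/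
theorem perp_k (h : Fr K a b c) {α β γ : G} (h1 : α * a = a * α) (h2 : β * b = b * β)
    (h4 : γ * c = c * γ) :
    (γ⁻¹ * b * γ) * ((α * β * γ)⁻¹ * a * (α * β * γ)) =
      ((α * β * γ)⁻¹ * a * (α * β * γ)) * (γ⁻¹ * b * γ) ∧
    (γ⁻¹ * b * γ) * c = c * (γ⁻¹ * b * γ) := by
  constructor
  · have e1 : (α * β * γ)⁻¹ * a * (α * β * γ) = γ⁻¹ * (β⁻¹ * a * β) * γ := by
      calc (α * β * γ)⁻¹ * a * (α * β * γ) = γ⁻¹ * (β⁻¹ * (α⁻¹ * (a * α)) * β) * γ := by group
        _ = _ := by rw [← h1]; group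
    have e2 : b * (β⁻¹ * a * β) = (β⁻¹ * a * β) * b := by
      have c1 : Commute b β := h2.symm
      have c2 : Commute b a := h.cab.symm
      exact ((c1.inv_right.mul_right c2).mul_right c1)
    rw [e1]
    calc (γ⁻¹ * b * γ) * (γ⁻¹ * (β⁻¹ * a * β) * γ) = γ⁻¹ * (b * (β⁻¹ * a * β)) * γ := by group
      _ = γ⁻¹ * ((β⁻¹ * a * β) * b) * γ := by rw [e2]
      _ = _ := by group
  · have c1 : Commute c γ := h4.symm
    have c2 : Commute c b := h.cbc.symm
    exact ((c1.inv_right.mul_right c2).mul_right c1).symm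

/-- Uniqueness of the factorization. -/
theorem fac_uniq (h : Fr K a b c) {α β γ α' β' γ' : G} (hα : α ∈ K) (hβ : β ∈ K) (hγ : γ ∈ K)
    (hβ' : β' ∈ K) (hγ' : γ' ∈ K)
    (h1 : α * a = a * α) (h2 : β * b = b * β) (h3 : a * β * a = β⁻¹) (h4 : γ * c = c * γ)
    (h5 : a * γ * a = γ⁻¹)
    (h1' : α' * a = a * α') (h2' : β' * b = b * β') (h3' : a * β' * a = β'⁻¹)
    (h4' : γ' * c = c * γ') (h5' : a * γ' * a = γ'⁻¹)
    (e : α * β * γ = α' * β' * γ') : α = α' ∧ β = β' ∧ γ = γ' := by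
  have hk : α * β * γ ∈ K := K.mul_mem (K.mul_mem hα hβ) hγ
  have hy : Ty K a ((α * β * γ)⁻¹ * a * (α * β * γ)) := h.ty_conj h.ty_a hk
  have hz : Ty K b (γ⁻¹ * b * γ) := h.rot.ty_conj h.rot.ty_a hγ
  have hz' : Ty K b (γ'⁻¹ * b * γ') := h.rot.ty_conj h.rot.ty_a hγ'
  obtain ⟨p1, p2⟩ := perp_k h h1 h2 h4
  obtain ⟨p1', p2'⟩ := perp_k h h1' h2' h4'
  rw [← e] at p1'
  have hzz := h.swap'.perp_uniq hy h.rot.rot.ty_a hz hz' p1 p2 p1' p2'
  have hb : b * γ * b = γ⁻¹ := h.swap'.inv_c h4 h5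
  have hb' : b * γ' * b = γ'⁻¹ := h.swap'.inv_c h4' h5'
  have e3 : γ * γ = γ' * γ' := by
    have q : ∀ x : G, b * x * b = x⁻¹ → x * x = b * (x⁻¹ * b * x) := by
      intro x hx
      rw [← hx]
      calc x * x = (b * b) * x * (b * b) * x := by rw [h.bb]; group
        _ = b * (b * x * b * b * x) := by group
    rw [q γ hb, q γ' hb', hzz]
  have e4 : γ = γ' := sq_uniq h hγ hγ' e3
  have e5 : α * β = α' * β' := by
    rw [e4] at e
    exact mul_right_cancel e
  obtain ⟨e6, e7⟩ := h.dec_uniq h.aa hβ hβ' h1 h1' h3 h3' e5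
  exact ⟨e6, e7, e4⟩

theorem card_fac (h : Fr K a b c) {X : Subgroup G} (hX : X ≤ K) (hV : VInv a b X) :
    Nat.card X = Nat.card (Cz X a) * Nat.card (IB X a b) * Nat.card (IB X a c) := by
  rw [← Nat.card_prod, ← Nat.card_prod]
  symm
  let f : (Cz X a × IB X a b) × IB X a c → X := fun p =>
    ⟨p.1.1 * p.1.2 * p.2, X.mul_mem (X.mul_mem (mem_Cz.1 p.1.1.2).1 p.1.2.2.1) p.2.2.1⟩
  refine Nat.card_congr (Equiv.ofBijective f ⟨?_, ?_⟩)
  · rintro ⟨⟨⟨α, hα⟩, ⟨β, hβ⟩⟩, ⟨γ, hγ⟩⟩ ⟨⟨⟨α', hα'⟩, ⟨β', hβ'⟩⟩, ⟨γ', hγ'⟩⟩ hf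
    have e : α * β * γ = α' * β' * γ' := congrArg Subtype.val hf
    have i1 := mem_Cz.1 hα
    have i1' := mem_Cz.1 hα'
    obtain ⟨r1, r2, r3⟩ := fac_uniq h (hX i1.1) (hX hβ.1) (hX hγ.1) (hX hβ'.1) (hX hγ'.1)
      i1.2 hβ.2.1 hβ.2.2 hγ.2.1 hγ.2.2 i1'.2 hβ'.2.1 hβ'.2.2 hγ'.2.1 hγ'.2.2 e
    subst r1; subst r2; subst r3
    rfl
  · rintro ⟨k, hk⟩
    obtain ⟨α, β, γ, hα, hβ, hγ, e, h1, h2, h3, h4, h5⟩ := h.fac hX hV.1 hV.2 hk
    exact ⟨((⟨α, mem_Cz.2 ⟨hα, h1⟩⟩, ⟨β, hβ, h2, h3⟩), ⟨γ, hγ, h4, h5⟩), Subtype.ext e.symm⟩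

theorem card_dec (h : Fr K a b c) {X : Subgroup G} (hX : X ≤ K) (ha : ∀ u ∈ X, a * u * a ∈ X) :
    Nat.card (Cz X b) = Nat.card (Fx X a b) * Nat.card (IB X a b) := by
  rw [← Nat.card_prod]
  symm
  let f : Fx X a b × IB X a b → Cz X b := fun p =>
    ⟨p.1 * p.2, mem_Cz.2 ⟨X.mul_mem (mem_Fx.1 p.1.2).1 p.2.2.1, by
      have c1 : Commute p.1.1 b := (mem_Fx.1 p.1.2).2.2
      have c2 : Commute p.2.1 b := p.2.2.2.1
      exact c1.mul_left c2⟩⟩
  refine Nat.card_congr (Equiv.ofBijective f ⟨?_, ?_⟩)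
  · rintro ⟨⟨w, hw⟩, ⟨s, hs⟩⟩ ⟨⟨w', hw'⟩, ⟨s', hs'⟩⟩ hf
    have e : w * s = w' * s' := congrArg Subtype.val hf
    have i1 := mem_Fx.1 hw
    have i1' := mem_Fx.1 hw'
    obtain ⟨r1, r2⟩ := h.dec_uniq h.aa (hX hs.1) (hX hs'.1) i1.2.1 i1'.2.1 hs.2.2 hs'.2.2 e
    subst r1; subst r2
    rfl
  · rintro ⟨k, hk⟩
    have hle : Cz X b ≤ K := fun u hu => hX (mem_Cz.1 hu).1
    have hinv : ∀ u ∈ Cz X b, a * u * a ∈ Cz X b := by
      intro u hu
      obtain ⟨u1, u2⟩ := mem_Cz.1 hu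
      refine mem_Cz.2 ⟨ha u u1, ?_⟩
      have c1 : Commute u b := u2
      have c2 : Commute a b := h.cab
      exact (c2.mul_left c1).mul_left c2
    obtain ⟨w, s, hw, hs, e, h1, h2⟩ := h.dec hle h.aa hinv hk
    exact ⟨(⟨w, mem_Fx.2 ⟨(mem_Cz.1 hw).1, h1, (mem_Cz.1 hw).2⟩⟩,
      ⟨s, (mem_Cz.1 hs).1, (mem_Cz.1 hs).2, h2⟩), Subtype.ext e.symm⟩

theorem Fx_eq (h : Fr K a b c) (X : Subgroup G) : Fx X a c = Fx X a b := by
  ext g
  rw [mem_Fx, mem_Fx]
  constructor
  · rintro ⟨h1, h2, h3⟩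
    refine ⟨h1, h2, ?_⟩
    have c1 : Commute g a := h2
    have c2 : Commute g c := h3
    rw [← h.ac]
    exact c1.mul_right c2
  · rintro ⟨h1, h2, h3⟩
    refine ⟨h1, h2, ?_⟩
    have c1 : Commute g a := h2
    have c2 : Commute g b := h3
    rw [← h.ab]
    exact c1.mul_right c2

/-- `|X| |C_X(V)|² = |C_X(a)| |C_X(b)| |C_X(c)|` -/
theorem card_main (h : Fr K a b c) {X : Subgroup G} (hX : X ≤ K) (hV : VInv a b X) :
    Nat.card X * (Nat.card (Fx X a b) * Nat.card (Fx X a b)) =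
      Nat.card (Cz X a) * Nat.card (Cz X b) * Nat.card (Cz X c) := by
  have e1 := card_fac h hX hV
  have e2 := card_dec h hX hV.1
  have e3 := card_dec h.swap' hX hV.1
  rw [Fx_eq h X] at e3
  rw [e1, e2, e3]
  ring

theorem card_rel (L Y : Subgroup G) : Nat.card (L ⊓ Y : Subgroup G) * L.relIndex Y =
    Nat.card Y := by
  have h1 := Subgroup.relIndex_mul_relIndex ⊥ (L ⊓ Y) Y bot_le inf_le_right
  rw [Subgroup.relIndex_bot_left, Subgroup.relIndex_bot_left, Subgroup.inf_relIndex_right] at h1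
  exact h1

theorem Cz_inf (L Y : Subgroup G) (v : G) : Cz (L ⊓ Y) v = L ⊓ Cz Y v := by
  unfold Cz
  rw [inf_assoc]

theorem bound (h : Fr K a b c) {N L Y : Subgroup G} (hN : N ≤ K) (hYN : Y ≤ N)
    (hY : VInv a b Y) (hL : VInv a b L) [Finite Y]
    (hi : ∀ v, v = a ∨ v = b ∨ v = c → L.relIndex (N ⊓ Subgroup.centralizer {v}) ≠ 0) :
    L.relIndex Y ≤ L.relIndex (N ⊓ Subgroup.centralizer {a}) *
      L.relIndex (N ⊓ Subgroup.centralizer {b}) *
      L.relIndex (N ⊓ Subgroup.centralizer {c}) := by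
  have hYK : Y ≤ K := hYN.trans hN
  have hY' : VInv a b (L ⊓ Y) := ⟨fun u hu => ⟨hL.1 u hu.1, hY.1 u hu.2⟩,
    fun u hu => ⟨hL.2 u hu.1, hY.2 u hu.2⟩⟩
  have e1 := card_main h hYK hY
  have e2 := card_main h (inf_le_right.trans hYK) hY'
  have key : ∀ v, v = a ∨ v = b ∨ v = c →
      Nat.card (Cz Y v) ≤ Nat.card (Cz (L ⊓ Y) v) *
        L.relIndex (N ⊓ Subgroup.centralizer {v}) := by
    intro v hv
    rw [Cz_inf, ← card_rel L (Cz Y v)]
    refine Nat.mul_le_mul_left _ ?_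
    refine Subgroup.relIndex_le_of_le_right ?_ (hi v hv)
    exact inf_le_inf hYN le_rfl
  have ka := key a (Or.inl rfl)
  have kb := key b (Or.inr (Or.inl rfl))
  have kc := key c (Or.inr (Or.inr rfl))
  have e3 := card_rel L Y
  have hf : Nat.card (Fx (L ⊓ Y) a b) ≤ Nat.card (Fx Y a b) := by
    have hle : Fx (L ⊓ Y) a b ≤ Fx Y a b := by
      unfold Fx
      exact inf_le_inf inf_le_right le_rfl
    have hfin : Finite (Fx Y a b) := by
      have : Fx Y a b ≤ Y := inf_le_left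
      exact Finite.of_injective _ (Subgroup.inclusion_injective this)
    exact Nat.card_le_card_of_injective _ (Subgroup.inclusion_injective hle)
  have hfpos : 0 < Nat.card (Fx Y a b) := by
    have hfin : Finite (Fx Y a b) := by
      have : Fx Y a b ≤ Y := inf_le_left
      exact Finite.of_injective _ (Subgroup.inclusion_injective this)
    exact Nat.card_pos
  have hypos : 0 < Nat.card (L ⊓ Y : Subgroup G) := by
    have hfin : Finite (L ⊓ Y : Subgroup G) := by
      have : L ⊓ Y ≤ Y := inf_le_right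
      exact Finite.of_injective _ (Subgroup.inclusion_injective this)
    exact Nat.card_pos
  set y' := Nat.card (L ⊓ Y : Subgroup G)
  set f := Nat.card (Fx Y a b)
  set f' := Nat.card (Fx (L ⊓ Y) a b)
  set i := L.relIndex Y
  set ma := L.relIndex (N ⊓ Subgroup.centralizer {a})
  set mb := L.relIndex (N ⊓ Subgroup.centralizer {b})
  set mc := L.relIndex (N ⊓ Subgroup.centralizer {c})
  have h1 : y' * i * (f * f) ≤ y' * (ma * mb * mc) * (f * f) := by
    rw [e3, e1]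
    calc Nat.card (Cz Y a) * Nat.card (Cz Y b) * Nat.card (Cz Y c)
        ≤ (Nat.card (Cz (L ⊓ Y) a) * ma) * (Nat.card (Cz (L ⊓ Y) b) * mb) *
          (Nat.card (Cz (L ⊓ Y) c) * mc) := Nat.mul_le_mul (Nat.mul_le_mul ka kb) kc
      _ = (Nat.card (Cz (L ⊓ Y) a) * Nat.card (Cz (L ⊓ Y) b) * Nat.card (Cz (L ⊓ Y) c)) *
          (ma * mb * mc) := by ring
      _ = y' * (f' * f') * (ma * mb * mc) := by rw [← e2]
      _ ≤ y' * (f * f) * (ma * mb * mc) :=
          Nat.mul_le_mul_right _ (Nat.mul_le_mul_left _ (Nat.mul_le_mul hf hf))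
      _ = y' * (ma * mb * mc) * (f * f) := by ring
  have h2 : y' * i ≤ y' * (ma * mb * mc) :=
    Nat.le_of_mul_le_mul_right h1 (Nat.mul_pos hfpos hfpos)
  exact Nat.le_of_mul_le_mul_left h2 hypos

/-- A finitely generated subgroup of `N` lies in a finite one invariant under the four-group. -/
theorem hull (h : Fr K a b c) {N : Subgroup G} (hN : VInv a b N) (hLF : LF N)
    (S : Set G) (hS : S.Finite) (hSN : S ⊆ N) :
    ∃ Y : Subgroup G, Y ≤ N ∧ VInv a b Y ∧ Finite Y ∧ S ⊆ Y := by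
  have hc : ∀ u ∈ N, c * u * c ∈ N := by
    intro u hu
    have e : c * u * c = a * (b * u * b) * a := by
      calc c * u * c = (a * b) * u * (b * a) := by rw [h.ab, h.ba]
        _ = _ := by group
    rw [e]
    exact hN.1 _ (hN.2 u hu)
  set T : Set G := S ∪ (fun u => a * u * a) '' S ∪ (fun u => b * u * b) '' S ∪
    (fun u => c * u * c) '' S with hT
  have hTfin : T.Finite := ((hS.union (hS.image _)).union (hS.image _)).union (hS.image _)
  have hTN : T ⊆ N := by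
    rintro t (((ht | ⟨u, hu, rfl⟩) | ⟨u, hu, rfl⟩) | ⟨u, hu, rfl⟩)
    · exact hSN ht
    · exact hN.1 u (hSN hu)
    · exact hN.2 u (hSN hu)
    · exact hc u (hSN hu)
  have hYN : Subgroup.closure T ≤ N := (Subgroup.closure_le N).2 hTN
  -- conjugation by an involution normalizing `T`
  have conj : ∀ z : G, z * z = 1 → (∀ t ∈ T, z * t * z ∈ T) →
      ∀ u ∈ Subgroup.closure T, z * u * z ∈ Subgroup.closure T := by
    intro z hz hzT u hu
    refine Subgroup.closure_induction (p := fun u _ => z * u * z ∈ Subgroup.closure T)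
      ?_ ?_ ?_ ?_ hu
    · intro t ht
      exact Subgroup.subset_closure (hzT t ht)
    · rw [mul_one, hz]; exact Subgroup.one_mem _
    · intro x y _ _ hx hy
      have e : z * (x * y) * z = (z * x * z) * (z * y * z) := by
        calc z * (x * y) * z = z * x * 1 * y * z := by group
          _ = z * x * (z * z) * y * z := by rw [hz]
          _ = _ := by group
      rw [e]
      exact Subgroup.mul_mem _ hx hy
    · intro x _ hx
      have e : z * x⁻¹ * z = (z * x * z)⁻¹ := by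
        rw [mul_inv_rev, mul_inv_rev, inv_of_sq hz]; group
      rw [e]
      exact Subgroup.inv_mem _ hx
  refine ⟨Subgroup.closure T, hYN, ⟨conj a h.aa ?_, conj b h.bb ?_⟩, ?_, ?_⟩
  · rintro t (((ht | ⟨u, hu, rfl⟩) | ⟨u, hu, rfl⟩) | ⟨u, hu, rfl⟩)
    · exact Or.inl (Or.inl (Or.inr ⟨t, ht, rfl⟩))
    · refine Or.inl (Or.inl (Or.inl ?_))
      have e : a * (a * u * a) * a = u := by
        calc a * (a * u * a) * a = (a * a) * u * (a * a) := by group
          _ = u := by rw [h.aa]; group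
      show a * (a * u * a) * a ∈ S
      rw [e]; exact hu
    · refine Or.inr ⟨u, hu, ?_⟩
      show c * u * c = a * (b * u * b) * a
      calc c * u * c = (a * b) * u * (b * a) := by rw [h.ab, h.ba]
        _ = _ := by group
    · refine Or.inl (Or.inr ⟨u, hu, ?_⟩)
      show b * u * b = a * (c * u * c) * a
      calc b * u * b = (a * c) * u * (c * a) := by rw [h.ac, h.ca]
        _ = _ := by group
  · rintro t (((ht | ⟨u, hu, rfl⟩) | ⟨u, hu, rfl⟩) | ⟨u, hu, rfl⟩)
    · exact Or.inl (Or.inr ⟨t, ht, rfl⟩)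
    · refine Or.inr ⟨u, hu, ?_⟩
      show c * u * c = b * (a * u * a) * b
      calc c * u * c = (b * a) * u * (a * b) := by rw [h.ba, h.ab]
        _ = _ := by group
    · refine Or.inl (Or.inl (Or.inl ?_))
      have e : b * (b * u * b) * b = u := by
        calc b * (b * u * b) * b = (b * b) * u * (b * b) := by group
          _ = u := by rw [h.bb]; group
      show b * (b * u * b) * b ∈ S
      rw [e]; exact hu
    · refine Or.inl (Or.inl (Or.inr ⟨u, hu, ?_⟩))
      show a * u * a = b * (c * u * c) * b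
      calc a * u * a = (b * c) * u * (c * b) := by rw [h.bc, h.cb]
        _ = _ := by group
  · -- finiteness
    have h1 : (Subgroup.closure ((fun n : N => (n : G)) ⁻¹' T)).map N.subtype =
        Subgroup.closure T := by
      rw [MonoidHom.map_closure]
      congr 1
      ext t
      constructor
      · rintro ⟨n, hn, rfl⟩
        exact hn
      · intro ht
        exact ⟨⟨t, hTN ht⟩, ht, rfl⟩
    have h2 : ((fun n : N => (n : G)) ⁻¹' T).Finite :=
      hTfin.preimage Subtype.val_injective.injOn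
    have h3 : Finite (Subgroup.closure ((fun n : N => (n : G)) ⁻¹' T)) :=
      hLF _ ((Subgroup.fg_iff _).2 ⟨_, rfl, h2⟩)
    rw [← h1]
    have h4 := (Set.toFinite ((Subgroup.closure ((fun n : N => (n : G)) ⁻¹' T) :
      Subgroup N) : Set N)).image N.subtype
    rw [← Subgroup.coe_map] at h4
    exact h4.to_subtype
  · intro s hs
    exact Subgroup.subset_closure (Or.inl (Or.inl (Or.inl hs)))

end Cnt

open Cnt in
theorem cnt : CntS.{u} := by
  intro G _ K a b c h _ N L hN _ hNV hLV hLF hi hbad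
  set m := L.relIndex (N ⊓ Subgroup.centralizer {a}) *
      L.relIndex (N ⊓ Subgroup.centralizer {b}) *
      L.relIndex (N ⊓ Subgroup.centralizer {c}) with hm
  have hinf : Infinite (N ⧸ L.subgroupOf N) := by
    by_contra hfin
    rw [not_infinite_iff_finite] at hfin
    have : 0 < (L.subgroupOf N).index := Nat.card_pos
    exact this.ne' hbad
  obtain ⟨e⟩ : Nonempty (ℕ ↪ (N ⧸ L.subgroupOf N)) := ⟨Infinite.natEmbedding _⟩
  set g : ℕ → N := fun i => (e i).out with hg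
  have hdist : ∀ i j, ((g i)⁻¹ * g j : G) ∈ L → i = j := by
    intro i j hij
    have h1 : (g i)⁻¹ * g j ∈ L.subgroupOf N := by
      rw [Subgroup.mem_subgroupOf]
      exact hij
    have h2 := QuotientGroup.eq.2 h1
    rw [hg] at h2
    simp only [QuotientGroup.out_eq'] at h2
    exact e.injective h2
  obtain ⟨Y, hYN, hYV, hYf, hSY⟩ := hull h hNV hLF
    ((fun i : Fin (m + 1) => (g i : G)) '' Set.univ) (Set.finite_univ.image _) (by
      rintro _ ⟨i, -, rfl⟩
      exact (g i).2)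
  have hb := bound h hN hYN hYV hLV hi
  have hb' : m + 1 ≤ L.relIndex Y := by
    have hinj : Function.Injective (fun i : Fin (m + 1) =>
        (QuotientGroup.mk (⟨g i, hSY ⟨i, trivial, rfl⟩⟩ : Y) : Y ⧸ L.subgroupOf Y)) := by
      intro i j hij
      have h1 := QuotientGroup.eq.1 hij
      rw [Subgroup.mem_subgroupOf] at h1
      exact Fin.ext (hdist i j h1)
    have h2 := Nat.card_le_card_of_injective _ hinj
    rw [Nat.card_eq_fintype_card, Fintype.card_fin] at h2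
    exact h2
  omega

end Pool.Agent.FourGp.FF
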