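import Pool.Agent.Lib.MP_fb3619_al.FF.Iface

/-!
# MP_fb3619_al, board FF, row CS1 (paper 6, case 1): `T_c` has finite index in `C_K(c)`
-/

set_option autoImplicit false

universe u

namespace Pool.Agent.FourGp.FF

open Pool.Agent.FourGp.H47 (Odd' inv_of_sq)
open Pool.Agent.FourGp.H99 (LF LF_ext LF_of_surj shunkov)

/-- Row CS1. -/
theorem cs1 (hU : UuS.{u}) (hM : MqS.{u}) : Cs1S.{u} := by
  intro G _ K a b c h hAb hFi
  obtain ⟨hle, hinv, hnor, hfix⟩ := hU G K a b c h hAb
  have hLU : LF (UT K a b c) := by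
    refine hM G K a b c h (UT K a b c) ⊥ hle bot_le hinv ⟨?_, ?_⟩ ?_ ?_ ?_
    · intro u hu
      rw [Subgroup.mem_bot] at hu ⊢
      rw [hu, mul_one, h.aa]
    · intro u hu
      rw [Subgroup.mem_bot] at hu ⊢
      rw [hu, mul_one, h.bb]
    · intro n _ z hz
      rw [Subgroup.mem_bot] at hz ⊢
      rw [hz]; group
    · intro f hf hfF
      obtain ⟨-, h1, h2⟩ := mem_Fx.1 hfF
      rw [Subgroup.mem_bot]
      exact hfix f hf h1 h2
    · intro S _
      infer_instance
  set N : Subgroup K := (UT K a b c).subgroupOf K with hN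
  have hNn : N.Normal := by
    refine ⟨?_⟩
    intro n hn g
    rw [hN, Subgroup.mem_subgroupOf] at hn ⊢
    have := hnor (g : G)⁻¹ (K.inv_mem g.2) n hn
    rw [inv_inv] at this
    exact this
  have hLN : LF N := by
    have hinj : Function.Injective
        ((K.subtype.comp N.subtype).codRestrict (UT K a b c) (fun x => x.2)) := by
      intro x y hxy
      have := congrArg (fun z : UT K a b c => (z : G)) hxy
      exact Subtype.ext (Subtype.ext this)
    intro S hS
    have h1 : (S.map ((K.subtype.comp N.subtype).codRestrict (UT K a b c)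
        (fun x => x.2))).FG := by
      obtain ⟨T, hT⟩ := hS
      classical
      refine ⟨T.image ((K.subtype.comp N.subtype).codRestrict (UT K a b c)
        (fun x => x.2)), ?_⟩
      rw [← hT, MonoidHom.map_closure, Finset.coe_image]
    have h2 := hLU _ h1
    refine Finite.of_injective (fun x : S =>
      (⟨_, Subgroup.mem_map_of_mem _ x.2⟩ : S.map ((K.subtype.comp N.subtype).codRestrict
        (UT K a b c) (fun x => x.2)))) ?_
    intro x y hxy
    have := congrArg Subtype.val hxy
    exact Subtype.ext (hinj this)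
  -- conjugation by `c`
  have hcc : c⁻¹ = c := inv_of_sq h.cc
  let φ : K →* K :=
    { toFun := fun k => ⟨c * k * c, h.cjmem h.cc k.2⟩
      map_one' := by
        apply Subtype.ext
        show c * 1 * c = 1
        rw [mul_one, h.cc]
      map_mul' := fun x y => by
        apply Subtype.ext
        show c * (x * y) * c = c * x * c * (c * y * c)
        calc c * ((x : G) * y) * c = c * x * 1 * y * c := by group
          _ = c * x * (c * c) * y * c := by rw [h.cc]
          _ = _ := by group }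
  have hφ : ∀ k : K, ((φ k : K) : G) = c * k * c := fun _ => rfl
  have hcinv : ∀ u ∈ UT K a b c, c * u * c ∈ UT K a b c := by
    intro u hu
    have h1 := hinv.1 _ (hinv.2 u hu)
    have e : a * (b * u * b) * a = c * u * c := by
      calc a * (b * u * b) * a = (a * b) * u * (b * a) := by group
        _ = c * u * c := by rw [h.ab, h.ba]
    rwa [e] at h1
  have hφN : N ≤ N.comap φ := by
    intro x hx
    rw [Subgroup.mem_comap, hN, Subgroup.mem_subgroupOf, hφ]
    rw [hN, Subgroup.mem_subgroupOf] at hx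
    exact hcinv _ hx
  obtain ⟨R, hR, hRT⟩ := hFi
  classical
  refine LF_ext N hLN ?_
  refine shunkov ?_ (QuotientGroup.map N N φ hφN)
    ((fun r : G => if hr : r ∈ K then (QuotientGroup.mk' N ⟨r, hr⟩ : K ⧸ N) else 1) '' R)
    (hR.image _)
    {q | ∃ s : K, c * (s : G) * c = (s : G)⁻¹ ∧ QuotientGroup.mk' N s = q} ?_ ?_
  · intro q
    obtain ⟨k, rfl⟩ := QuotientGroup.mk'_surjective N q
    obtain ⟨n, hn⟩ := h.odd k k.2
    refine ⟨2 * n + 1, by omega, ?_⟩
    rw [← map_pow]
    have : k ^ (2 * n + 1) = 1 := Subtype.ext (by simpa using hn)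
    rw [this, map_one]
  · rintro q ⟨s, hs, rfl⟩
    show QuotientGroup.mk' N (φ s) = (QuotientGroup.mk' N s)⁻¹
    rw [← map_inv]
    congr 1
    exact Subtype.ext (by rw [hφ, hs]; rfl)
  · intro q
    obtain ⟨k, rfl⟩ := QuotientGroup.mk'_surjective N q
    obtain ⟨w, s, hw, hs, e, h1, h2⟩ := h.dec (X := K) le_rfl h.cc
      (fun u hu => h.cjmem h.cc hu) k.2
    obtain ⟨r, hr, t, ht, e1⟩ := hRT w (mem_Cz.2 ⟨hw, h1⟩)
    have htK : t ∈ K := ht.1
    have htU : t ∈ UT K a b c := by
      refine Subgroup.subset_closure ⟨c, Or.inr ⟨h.cc, ?_⟩, ht⟩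
      rw [h.cc]
      exact K.one_mem
    have hrK : r ∈ K := by
      have : r = w * t⁻¹ := by rw [e1]; group
      rw [this]
      exact K.mul_mem hw (K.inv_mem htK)
    refine ⟨_, ⟨r, hr, rfl⟩, QuotientGroup.mk' N ⟨s, hs⟩, ⟨⟨s, hs⟩, h2, rfl⟩, ?_⟩
    show QuotientGroup.mk' N k = (if hr : r ∈ K then (QuotientGroup.mk' N ⟨r, hr⟩ : K ⧸ N)
      else 1) * QuotientGroup.mk' N ⟨s, hs⟩
    rw [dif_pos hrK]
    have e2 : k = ⟨w, hw⟩ * ⟨s, hs⟩ := Subtype.ext e
    rw [e2, map_mul]
    congr 1
    refine (QuotientGroup.eq.2 ?_).symm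
    rw [hN, Subgroup.mem_subgroupOf]
    have e3 : (((⟨r, hrK⟩ : K)⁻¹ * ⟨w, hw⟩ : K) : G) = t := by
      show r⁻¹ * w = t
      rw [e1]; group
    rw [e3]
    exact htU

end Pool.Agent.FourGp.FF
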