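import Pool.Agent.Lib.MP_fb3619_al.FF.Iface

/-!
# MP_fb3619_al, board FF, row CS2 (paper 6, case 2): `F` is central in `C_K(a)` and in `C_K(c)`
-/

set_option autoImplicit false

universe u v

namespace Pool.Agent.FourGp.FF

open Pool.Agent.FourGp.H47 (Odd' inv_of_sq)
open Pool.Agent.FourGp.H99 (LF LF_ext LF_of_surj)

theorem LF_of_inj {A : Type u} {B : Type v} [Group A] [Group B] (f : A →* B)
    (hf : Function.Injective f) (hB : LF B) : LF A := by
  intro S hS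
  have h1 : (S.map f).FG := by
    obtain ⟨T, hT⟩ := hS
    classical
    refine ⟨T.image f, ?_⟩
    rw [← hT, MonoidHom.map_closure, Finset.coe_image]
  have h2 := hB _ h1
  refine Finite.of_injective (fun x : S => (⟨f x.1, Subgroup.mem_map_of_mem f x.2⟩ : S.map f)) ?_
  intro x y hxy
  have := congrArg Subtype.val hxy
  exact Subtype.ext (hf this)

variable {G : Type u} [Group G] {K : Subgroup G} {a b c : G}

/-- The elements of `C_K(a)` inverted by `b`. -/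
def Mi (K : Subgroup G) (a b u : G) : Prop := u ∈ Cz K a ∧ b * u * b = u⁻¹

/-- The subgroup generated by the elements of `C_K(a)` and of `C_K(c)` inverted by `b`. -/
def Uc (K : Subgroup G) (a b c : G) : Subgroup G :=
  Subgroup.closure {u | Mi K a b u ∨ Mi K c b u}

theorem Uc_swap : Uc K a b c = Uc K c b a := by
  unfold Uc
  congr 1
  ext u
  exact or_comm

theorem Uc_le : Uc K a b c ≤ K := by
  unfold Uc
  rw [Subgroup.closure_le]
  rintro u (hu | hu)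
  · exact (mem_Cz.1 hu.1).1
  · exact (mem_Cz.1 hu.1).1

namespace Fr

theorem cz_le2 : Cz K a ≤ K := fun _ hu => (mem_Cz.1 hu).1

theorem cz_inv2 (h : Fr K a b c) {u : G} (hu : u ∈ Cz K a) : b * u * b ∈ Cz K a := by
  obtain ⟨h1, h2⟩ := mem_Cz.1 hu
  refine mem_Cz.2 ⟨h.cjmem h.bb h1, ?_⟩
  calc b * u * b * a = b * u * (b * a) := by group
    _ = b * (u * a) * b := by rw [← h.cab]; group
    _ = (b * a) * u * b := by rw [h2]; group
    _ = a * (b * u * b) := by rw [← h.cab]; group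

/-- `β⁻¹ α² β` lies in `U`. -/
theorem conj_sq (h : Fr K a b c)
    (hf : ∀ w ∈ K, w * a = a * w → w * b = b * w → ∀ u, (Mi K a b u ∨ Mi K c b u) →
      w * u = u * w) {α β : G} (hα : Mi K a b α) (hβ : β ∈ Cz K b) :
    β⁻¹ * (α * α) * β ∈ Uc K a b c := by
  obtain ⟨hβK, hβb⟩ := mem_Cz.1 hβ
  obtain ⟨hαK, hαa⟩ := mem_Cz.1 hα.1
  have hk : β⁻¹ * α ∈ K := K.mul_mem (K.inv_mem hβK) hαK
  obtain ⟨α', γ, β', hα', hγ, hβ', e, h1, h2, h3, h4, h5⟩ :=
    h.swap'.fac (X := K) le_rfl (fun u hu => h.cjmem h.aa hu) (fun u hu => h.cjmem h.cc hu) hk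
  obtain ⟨w, s, hw, hs, e1, h6, h7⟩ := h.dec (X := Cz K a) cz_le2 h.bb
    (fun u hu => h.cz_inv2 hu) (mem_Cz.2 ⟨hα', h1⟩)
  obtain ⟨hwK, hwa⟩ := mem_Cz.1 hw
  have h8 : b * γ * b = γ⁻¹ := h.swap'.inv_c h2 h3
  have hsM : Mi K a b s := ⟨hs, h7⟩
  have hγM : Mi K c b γ := ⟨mem_Cz.2 ⟨hγ, h2⟩, h8⟩
  have ws : w * s = s * w := hf w hwK hwa h6 s (Or.inl hsM)
  have wγ : w * γ = γ * w := hf w hwK hwa h6 γ (Or.inr hγM)
  rw [e1] at e
  have i1 : b * β⁻¹ * b = β⁻¹ := by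
    have : b * β⁻¹ = β⁻¹ * b := by
      calc b * β⁻¹ = β⁻¹ * (β * b) * β⁻¹ := by group
        _ = β⁻¹ * (b * β) * β⁻¹ := by rw [hβb]
        _ = β⁻¹ * b := by group
    rw [this, mul_assoc, h.bb, mul_one]
  have i2 : b * w * b = w := by rw [← h6, mul_assoc, h.bb, mul_one]
  have i3 : b * β' * b = β' := by rw [← h4, mul_assoc, h.bb, mul_one]
  have e2 : β⁻¹ * α⁻¹ = w * s⁻¹ * γ⁻¹ * β' := by
    calc β⁻¹ * α⁻¹ = (b * β⁻¹ * b) * (b * α * b) := by rw [i1, hα.2]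
      _ = b * β⁻¹ * (b * b) * α * b := by group
      _ = b * (β⁻¹ * α) * b := by rw [h.bb]; group
      _ = b * (w * s * γ * β') * b := by rw [e]
      _ = b * w * 1 * s * 1 * γ * 1 * β' * b := by group
      _ = b * w * (b * b) * s * (b * b) * γ * (b * b) * β' * b := by rw [h.bb]
      _ = (b * w * b) * (b * s * b) * (b * γ * b) * (b * β' * b) := by group
      _ = w * s⁻¹ * γ⁻¹ * β' := by rw [i2, h7, h8, i3]
  have e3 : β⁻¹ * (α * α) * β = s * γ * γ * s := by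
    calc β⁻¹ * (α * α) * β = (β⁻¹ * α) * (β⁻¹ * α⁻¹)⁻¹ := by group
      _ = (w * s * γ * β') * (w * s⁻¹ * γ⁻¹ * β')⁻¹ := by rw [e, e2]
      _ = (w * s) * γ * γ * s * w⁻¹ := by group
      _ = (s * w) * γ * γ * s * w⁻¹ := by rw [ws]
      _ = s * (w * γ) * γ * s * w⁻¹ := by group
      _ = s * (γ * w) * γ * s * w⁻¹ := by rw [wγ]
      _ = s * γ * (w * γ) * s * w⁻¹ := by group
      _ = s * γ * (γ * w) * s * w⁻¹ := by rw [wγ]
      _ = s * γ * γ * (w * s) * w⁻¹ := by group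
      _ = s * γ * γ * (s * w) * w⁻¹ := by rw [ws]
      _ = s * γ * γ * s := by group
  rw [e3]
  have m1 : s ∈ Uc K a b c := Subgroup.subset_closure (Or.inl hsM)
  have m2 : γ ∈ Uc K a b c := Subgroup.subset_closure (Or.inr hγM)
  exact (Uc K a b c).mul_mem ((Uc K a b c).mul_mem ((Uc K a b c).mul_mem m1 m2) m2) m1

theorem conj_one (h : Fr K a b c)
    (hf : ∀ w ∈ K, w * a = a * w → w * b = b * w → ∀ u, (Mi K a b u ∨ Mi K c b u) →
      w * u = u * w) {α β : G} (hα : Mi K a b α) (hβ : β ∈ Cz K b) :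
    β⁻¹ * α * β ∈ Uc K a b c := by
  obtain ⟨n, hn⟩ := h.odd α (mem_Cz.1 hα.1).1
  have e1 : (α * α) ^ (n + 1) = α := by
    calc (α * α) ^ (n + 1) = α ^ (2 * n + 1) * α := by
          rw [← pow_two, ← pow_mul, show 2 * (n + 1) = 2 * n + 1 + 1 by ring, pow_succ]
      _ = α := by rw [hn, one_mul]
  have e2 : ∀ m : ℕ, (β⁻¹ * (α * α) * β) ^ m = β⁻¹ * (α * α) ^ m * β := by
    intro m
    induction m with
    | zero => simp
    | succ m ih => rw [pow_succ, ih, pow_succ]; group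
  have e3 : β⁻¹ * α * β = (β⁻¹ * (α * α) * β) ^ (n + 1) := by rw [e2, e1]
  rw [e3]
  exact (Uc K a b c).pow_mem (h.conj_sq hf hα hβ) _

theorem conj_Uc (h : Fr K a b c)
    (hf : ∀ w ∈ K, w * a = a * w → w * b = b * w → ∀ u, (Mi K a b u ∨ Mi K c b u) →
      w * u = u * w) {u β : G} (hu : u ∈ Uc K a b c) (hβ : β ∈ Cz K b) :
    β⁻¹ * u * β ∈ Uc K a b c := by
  have h' : Fr K c b a := h.rot.swap
  have hf' : ∀ w ∈ K, w * c = c * w → w * b = b * w → ∀ u, (Mi K c b u ∨ Mi K a b u) →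
      w * u = u * w := by
    intro w hw h1 h2 u hu
    refine hf w hw ?_ h2 u hu.symm
    have c1 : Commute w b := h2
    have c2 : Commute w c := h1
    have c3 : Commute w (b * c) := c1.mul_right c2
    rw [h.bc] at c3
    exact c3
  unfold Uc at hu
  refine Subgroup.closure_induction (p := fun u _ => β⁻¹ * u * β ∈ Uc K a b c)
    ?_ ?_ ?_ ?_ hu
  · rintro x (hx | hx)
    · exact h.conj_one hf hx hβ
    · rw [Uc_swap]
      exact h'.conj_one hf' hx hβ
  · have : β⁻¹ * 1 * β = 1 := by group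
    rw [this]
    exact (Uc K a b c).one_mem
  · intro x y _ _ hx hy
    have : β⁻¹ * (x * y) * β = (β⁻¹ * x * β) * (β⁻¹ * y * β) := by group
    rw [this]
    exact (Uc K a b c).mul_mem hx hy
  · intro x _ hx
    have : β⁻¹ * x⁻¹ * β = (β⁻¹ * x * β)⁻¹ := by group
    rw [this]
    exact (Uc K a b c).inv_mem hx

/-- `K = C_K(b) U`. -/
theorem fac_Uc (h : Fr K a b c) {k : G} (hk : k ∈ K) :
    ∃ β u : G, β ∈ Cz K b ∧ u ∈ Uc K a b c ∧ k = β * u := by
  obtain ⟨β, α, γ, hβ, hα, hγ, e, h1, h2, h3, h4, h5⟩ :=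
    h.swap.fac (X := K) le_rfl (fun u hu => h.cjmem h.bb hu) (fun u hu => h.cjmem h.aa hu) hk
  refine ⟨β, α * γ, mem_Cz.2 ⟨hβ, h1⟩, ?_, by rw [e]; group⟩
  refine (Uc K a b c).mul_mem ?_ ?_
  · exact Subgroup.subset_closure (Or.inl ⟨mem_Cz.2 ⟨hα, h2⟩, h3⟩)
  · exact Subgroup.subset_closure (Or.inr ⟨mem_Cz.2 ⟨hγ, h4⟩, h5⟩)

end Fr

/-- Row CS2. -/
theorem cs2 (hM : MqS.{u}) (hS : ShuS.{u}) : Cs2S.{u} := by
  intro G _ K a b c h hfin hA hC
  have hf : ∀ w ∈ K, w * a = a * w → w * b = b * w → ∀ u, (Mi K a b u ∨ Mi K c b u) →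
      w * u = u * w := by
    intro w hw h1 h2 u hu
    have hwF : w ∈ Fx K a b := mem_Fx.2 ⟨hw, h1, h2⟩
    rcases hu with hu | hu
    · exact hA u hu.1 w hwF
    · exact hC u hu.1 w hwF
  -- the centralizer of `F`
  set M : Subgroup G := K ⊓ Subgroup.centralizer (Fx K a b : Set G) with hMdef
  have memM : ∀ {u : G}, u ∈ M ↔ u ∈ K ∧ ∀ f ∈ Fx K a b, f * u = u * f := by
    intro u
    rw [hMdef, Subgroup.mem_inf, Subgroup.mem_centralizer_iff]
    rfl
  have invM : ∀ z : G, z * z = 1 → (∀ f ∈ Fx K a b, f * z = z * f) → ∀ u ∈ M, z * u * z ∈ M := by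
    intro z hz hzf u hu
    obtain ⟨h1, h2⟩ := memM.1 hu
    refine memM.2 ⟨h.cjmem hz h1, ?_⟩
    intro f hf'
    have c1 : Commute f z := hzf f hf'
    have c2 : Commute f u := h2 f hf'
    exact (c1.mul_right c2).mul_right c1
  have invZ : ∀ z : G, z * z = 1 → (∀ f ∈ Fx K a b, f * z = z * f) →
      ∀ u ∈ M ⊓ Fx K a b, z * u * z ∈ M ⊓ Fx K a b := by
    intro z hz hzf u hu
    have e : z * u * z = u := by rw [← hzf u hu.2, mul_assoc, hz, mul_one]
    rw [e]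
    exact hu
  have fa : ∀ f ∈ Fx K a b, f * a = a * f := fun f hf' => (mem_Fx.1 hf').2.1
  have fb : ∀ f ∈ Fx K a b, f * b = b * f := fun f hf' => (mem_Fx.1 hf').2.2
  have hLM : LF M := by
    refine hM G K a b c h M (M ⊓ Fx K a b) inf_le_left inf_le_left
      ⟨invM a h.aa fa, invM b h.bb fb⟩ ⟨invZ a h.aa fa, invZ b h.bb fb⟩ ?_ ?_ ?_
    · intro n hn z hz
      have e : n⁻¹ * z * n = z := by
        rw [mul_assoc, (memM.1 hn).2 z hz.2]; group
      rw [e]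
      exact hz
    · intro f h1 h2
      exact ⟨h1, h2⟩
    · have hfin2 : Finite (M ⊓ Fx K a b : Subgroup G) := by
        have : ((M ⊓ Fx K a b : Subgroup G) : Set G).Finite :=
          hfin.subset (fun x hx => hx.2)
        exact this.to_subtype
      intro S _
      infer_instance
  have hUM : Uc K a b c ≤ M := by
    unfold Uc
    rw [Subgroup.closure_le]
    intro u hu
    refine memM.2 ⟨?_, ?_⟩
    · rcases hu with hu | hu
      · exact (mem_Cz.1 hu.1).1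
      · exact (mem_Cz.1 hu.1).1
    · intro f hf'
      obtain ⟨g1, g2, g3⟩ := mem_Fx.1 hf'
      exact hf f g1 g2 g3 u hu
  have hLU : LF (Uc K a b c) :=
    LF_of_inj (Subgroup.inclusion hUM) (Subgroup.inclusion_injective hUM) hLM
  set N : Subgroup K := (Uc K a b c).subgroupOf K with hN
  have hNn : N.Normal := by
    refine ⟨?_⟩
    intro n hn g
    rw [hN, Subgroup.mem_subgroupOf] at hn ⊢
    obtain ⟨β, u, hβ, hu, e⟩ := h.fac_Uc (K.inv_mem g.2)
    have e1 : ((g * n * g⁻¹ : K) : G) = u⁻¹ * (β⁻¹ * (n : G) * β) * u := by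
      have e2 : (g : G) = u⁻¹ * β⁻¹ := by
        rw [← mul_inv_rev, ← e, inv_inv]
      calc ((g * n * g⁻¹ : K) : G) = (g : G) * n * (g : G)⁻¹ := rfl
        _ = (u⁻¹ * β⁻¹) * n * (β * u) := by rw [← e, e2]
        _ = _ := by group
    rw [e1]
    have hc := h.conj_Uc hf hn hβ
    exact (Uc K a b c).mul_mem ((Uc K a b c).mul_mem ((Uc K a b c).inv_mem hu) hc) hu
  have hLN : LF N := by
    refine LF_of_inj ((K.subtype.comp N.subtype).codRestrict (Uc K a b c) ?_) ?_ hLU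
    · intro x; exact x.2
    · intro x y hxy
      have := congrArg (fun z : Uc K a b c => (z : G)) hxy
      exact Subtype.ext (Subtype.ext this)
  have hLb : LF (Cz K b) := by
    refine (hS G K a b c h (Cz K b) a (Fr.cz_le2) h.aa (fun d hd => h.swap.cz_inv2 hd) ?_).2.2
    refine hfin.subset ?_
    rintro w ⟨h1, h2⟩
    obtain ⟨h3, h4⟩ := mem_Cz.1 h1
    exact mem_Fx.2 ⟨h3, h2, h4⟩
  refine LF_ext N hLN ?_
  refine LF_of_surj ((QuotientGroup.mk' N).comp (Subgroup.inclusion (Fr.cz_le2 (K := K) (a := b))))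
    ?_ hLb
  intro q
  obtain ⟨k, rfl⟩ := QuotientGroup.mk'_surjective N q
  obtain ⟨β, u, hβ, hu, e⟩ := h.fac_Uc k.2
  refine ⟨⟨β, hβ⟩, ?_⟩
  have hmem : (Subgroup.inclusion (Fr.cz_le2 (K := K) (a := b)) ⟨β, hβ⟩)⁻¹ * k ∈ N := by
    rw [hN, Subgroup.mem_subgroupOf]
    have e1 : (((Subgroup.inclusion (Fr.cz_le2 (K := K) (a := b)) ⟨β, hβ⟩)⁻¹ * k : K) : G) = u := by
      calc (((Subgroup.inclusion (Fr.cz_le2 (K := K) (a := b)) ⟨β, hβ⟩)⁻¹ * k : K) : G)
          = β⁻¹ * (k : G) := rfl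
        _ = u := by rw [e]; group
    rw [e1]
    exact hu
  exact QuotientGroup.eq.2 hmem

end Pool.Agent.FourGp.FF
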