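import Pool.Agent.Lib.MP_fb3619_al.FF.Iface

/-!
# MP_fb3619_al, board FF, module FCT: Theorem FC (paper 4)
-/

set_option autoImplicit false

universe u

namespace Pool.Agent.FourGp.FF

open Pool.Agent.FourGp.H47 (Odd' inv_of_sq)
open Pool.Agent.FourGp.H99 (LF LF_of_surj LF_of_finiteIndex)

namespace Fct

variable {G : Type u} [Group G]

/-! ### Indices -/

theorem reps {H D : Subgroup G} (h : H.relIndex D ≠ 0) :
    ∃ R : Set G, R.Finite ∧ ∀ g ∈ D, ∃ r ∈ R, ∃ n ∈ H, g = n * r := by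
  have h1 : (H.subgroupOf D).FiniteIndex := ⟨h⟩
  have h2 : Finite (D ⧸ H.subgroupOf D) := inferInstance
  refine ⟨Set.range fun q : D ⧸ H.subgroupOf D => ((q.out : D) : G)⁻¹, Set.finite_range _, ?_⟩
  intro g hg
  have h3 : (QuotientGroup.mk (s := H.subgroupOf D)
      (QuotientGroup.mk (s := H.subgroupOf D) (⟨g⁻¹, D.inv_mem hg⟩ : D)).out) =
      QuotientGroup.mk (s := H.subgroupOf D) (⟨g⁻¹, D.inv_mem hg⟩ : D) :=
    QuotientGroup.out_eq' _
  have h4 := QuotientGroup.eq.1 h3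
  rw [Subgroup.mem_subgroupOf] at h4
  refine ⟨_, ⟨QuotientGroup.mk (s := H.subgroupOf D) (⟨g⁻¹, D.inv_mem hg⟩ : D), rfl⟩, _,
    H.inv_mem h4, ?_⟩
  push_cast
  group

theorem idx {H D : Subgroup G} {R : Set G} (hR : R.Finite)
    (h : ∀ g ∈ D, ∃ r ∈ R, ∃ n ∈ H, g = n * r) : H.relIndex D ≠ 0 := by
  have h0 : ∀ q : D ⧸ H.subgroupOf D, ∃ r ∈ R, ∃ n ∈ H, ((q.out : D) : G)⁻¹ = n * r :=
    fun q => h _ (D.inv_mem q.out.2)
  choose f hf n hn e using h0
  have h1 : Function.Injective (fun q : D ⧸ H.subgroupOf D => (⟨f q, hf q⟩ : R)) := by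
    intro p q hpq
    have h2 : f p = f q := congrArg (fun x : R => (x : G)) hpq
    have h3 : (QuotientGroup.mk (s := H.subgroupOf D) p.out) =
        QuotientGroup.mk (s := H.subgroupOf D) q.out := by
      rw [QuotientGroup.eq, Subgroup.mem_subgroupOf]
      push_cast
      have e1 : ((q.out : D) : G) = (n q * f q)⁻¹ := by rw [← e q, _root_.inv_inv]
      rw [e p, e1, h2]
      have e2 : n p * f q * (n q * f q)⁻¹ = n p * (n q)⁻¹ := by group
      rw [e2]
      exact H.mul_mem (hn p) (H.inv_mem (hn q))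
    rwa [QuotientGroup.out_eq', QuotientGroup.out_eq'] at h3
  have h2 : Finite R := hR.to_subtype
  have h3 : Finite (D ⧸ H.subgroupOf D) := Finite.of_injective _ h1
  have h4 : (H.subgroupOf D).FiniteIndex := Subgroup.finiteIndex_of_finite_quotient
  exact h4.index_ne_zero

/-- The conjugates of `s` under `D`. -/
def cjs (D : Subgroup G) (s : G) : Set G := {x | ∃ δ ∈ D, x = δ⁻¹ * s * δ}

theorem cjs_fin {D : Subgroup G} {s : G} (h : fi D s) : (cjs D s).Finite := by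
  obtain ⟨R, hR, h1⟩ := reps h
  refine (hR.image fun r => r⁻¹ * s * r).subset ?_
  rintro x ⟨δ, hδ, rfl⟩
  obtain ⟨r, hr, n, hn, e⟩ := h1 δ hδ
  refine ⟨r, hr, ?_⟩
  have e1 : n * s = s * n := Subgroup.mem_centralizer_singleton_iff.1 hn
  show r⁻¹ * s * r = δ⁻¹ * s * δ
  rw [e]
  calc r⁻¹ * s * r = r⁻¹ * (n⁻¹ * (n * s)) * r := by group
    _ = r⁻¹ * (n⁻¹ * (s * n)) * r := by rw [e1]
    _ = (n * r)⁻¹ * s * (n * r) := by group

theorem fi_of_fin {D : Subgroup G} {s : G} (h : (cjs D s).Finite) : fi D s := by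
  have h0 : ∀ x : cjs D s, ∃ δ ∈ D, (x : G) = δ⁻¹ * s * δ := fun x => x.2
  choose r hr er using h0
  have h2 : Finite (cjs D s) := h.to_subtype
  refine idx (R := Set.range r) (Set.finite_range r) ?_
  intro g hg
  set x : cjs D s := ⟨g⁻¹ * s * g, g, hg, rfl⟩ with hx
  refine ⟨r x, ⟨x, rfl⟩, g * (r x)⁻¹, ?_, by group⟩
  rw [Subgroup.mem_centralizer_singleton_iff]
  have e1 : g⁻¹ * s * g = (r x)⁻¹ * s * (r x) := er x
  calc g * (r x)⁻¹ * s = g * ((r x)⁻¹ * s * (r x)) * (r x)⁻¹ := by group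
    _ = g * (g⁻¹ * s * g) * (r x)⁻¹ := by rw [e1]
    _ = s * (g * (r x)⁻¹) := by group

theorem fi_conj {D : Subgroup G} {s δ : G} (h : fi D s) (hδ : δ ∈ D) :
    fi D (δ⁻¹ * s * δ) := by
  apply fi_of_fin
  refine (cjs_fin h).subset ?_
  rintro x ⟨ε, hε, rfl⟩
  refine ⟨δ * ε, D.mul_mem hδ hε, ?_⟩
  group

theorem fi_mono {D D' : Subgroup G} {s : G} (h : fi D s) (hD : D' ≤ D) : fi D' s :=
  fun h0 => h (Subgroup.relIndex_eq_zero_of_le_right hD h0)

theorem cent_ne {D : Subgroup G} {X : Set G} (hX : X.Finite) (h : ∀ x ∈ X, fi D x) :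
    (Subgroup.centralizer X).relIndex D ≠ 0 := by
  have h1 : Finite X := hX.to_subtype
  have h2 : (⨅ x : X, Subgroup.centralizer {(x : G)}).relIndex D ≠ 0 :=
    Subgroup.relIndex_iInf_ne_zero fun x => h x x.2
  have h3 : (⨅ x : X, Subgroup.centralizer {(x : G)}) ≤ Subgroup.centralizer X := by
    intro g hg
    rw [Subgroup.mem_iInf] at hg
    rw [Subgroup.mem_centralizer_iff]
    intro x hx
    have := hg ⟨x, hx⟩
    exact (Subgroup.mem_centralizer_singleton_iff.1 this).symm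
  exact fun h0 => h2 (Subgroup.relIndex_eq_zero_of_le_left h3 h0)

theorem rel_le {H H' D : Subgroup G} (h : H.relIndex D ≠ 0) (hH : ∀ g ∈ D, g ∈ H → g ∈ H') :
    H'.relIndex D ≠ 0 := by
  have h1 : (H ⊓ D).relIndex D ≠ 0 := by rwa [Subgroup.inf_relIndex_right]
  have h2 : H ⊓ D ≤ H' := fun g hg => hH g hg.2 hg.1
  exact fun h0 => h1 (Subgroup.relIndex_eq_zero_of_le_left h2 h0)

theorem LF_rel {M N : Subgroup G} (hMN : M ≤ N) (h : M.relIndex N ≠ 0) (hM : LF M) : LF N := by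
  have h1 : (M.subgroupOf N).FiniteIndex := ⟨h⟩
  refine LF_of_finiteIndex (M.subgroupOf N) ?_
  exact LF_of_surj (Subgroup.subgroupOfEquivOfLe hMN).symm.toMonoidHom
    (Subgroup.subgroupOfEquivOfLe hMN).symm.surjective hM

theorem LF_fin {M : Subgroup G} (h : (M : Set G).Finite) : LF M := by
  intro S _
  have h1 : Finite M := h.to_subtype
  infer_instance

/-- representatives of finitely many values -/
theorem vals {α β : Type*} {P : Set α} {φ : α → β} (h : (φ '' P).Finite) :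
    ∃ S : Set α, S.Finite ∧ S ⊆ P ∧ ∀ g ∈ P, ∃ s ∈ S, φ s = φ g := by
  obtain ⟨S, hS, hb⟩ := Set.exists_subset_bijOn P φ
  refine ⟨S, hb.finite_iff_finite.2 h, hS, ?_⟩
  intro g hg
  obtain ⟨s, hs, e⟩ := hb.surjOn (Set.mem_image_of_mem φ hg)
  exact ⟨s, hs, e⟩

variable {K : Subgroup G} {a b c : G}

theorem fx_swap (K : Subgroup G) (a b : G) : Fx K b a = Fx K a b := by
  ext g
  rw [mem_Fx, mem_Fx]
  tauto

theorem fx_ac (h : Fr K a b c) : Fx K a c = Fx K a b := by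
  ext g
  rw [mem_Fx, mem_Fx]
  constructor
  · rintro ⟨h1, h2, h3⟩
    have c1 : Commute g a := h2
    have c2 : Commute g c := h3
    refine ⟨h1, h2, ?_⟩
    have := c1.mul_right c2
    rw [h.ac] at this
    exact this
  · rintro ⟨h1, h2, h3⟩
    have c1 : Commute g a := h2
    have c2 : Commute g b := h3
    refine ⟨h1, h2, ?_⟩
    have := c1.mul_right c2
    rw [h.ab] at this
    exact this

theorem fx_bc (h : Fr K a b c) : Fx K b c = Fx K a b := by
  rw [fx_ac h.swap, fx_swap]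

/-- `N_K(F)` is invariant under involutions commuting with `F`. -/
theorem norm_inv {F : Subgroup G} {z u : G} (hz : z * z = 1) (hF : ∀ f ∈ F, f * z = z * f)
    (hu : u ∈ Subgroup.normalizer (F : Set G)) : z * u * z ∈ Subgroup.normalizer (F : Set G) := by
  rw [Subgroup.mem_normalizer_iff] at hu ⊢
  have zi : z⁻¹ = z := inv_of_sq hz
  have hzf : ∀ f, f ∈ F → z * f * z = f := by
    intro f hf
    rw [← hF f hf, mul_assoc, hz, mul_one]
  have hzz : ∀ x, z * x * z ∈ F → x ∈ F := by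
    intro x hx
    have e : z * (z * x * z) * z = x := by
      calc z * (z * x * z) * z = (z * z) * x * (z * z) := by group
        _ = x := by rw [hz, one_mul, mul_one]
    rw [← e, hzf _ hx]
    exact hx
  intro f
  have e0 : z * u * z * f * (z * u * z)⁻¹ = z * (u * (z * f * z) * u⁻¹) * z := by
    rw [mul_inv_rev, mul_inv_rev, zi]
    group
  rw [e0]
  constructor
  · intro hf
    rw [hzf f hf]
    have h1 := (hu f).1 hf
    rw [hzf _ h1]
    exact h1
  · intro hf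
    have h1 := hzz _ hf
    have h2 := (hu _).2 h1
    exact hzz _ h2

end Fct

open Fct in
theorem fct (hP : PppS.{u}) (hM : MqS.{u}) (hC : CntS.{u}) (_hS : ShuS.{u}) : FctS.{u} := by
  intro G _ K a b c h hfin hfi
  set F : Subgroup G := Fx K a b with hF
  have hFK : F ≤ K := inf_le_left
  -- elements of `F` commute with a, b, c
  have hFa : ∀ f ∈ F, f * a = a * f := fun f hf => (mem_Fx.1 hf).2.1
  have hFb : ∀ f ∈ F, f * b = b * f := fun f hf => (mem_Fx.1 hf).2.2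
  have hcC : ∀ v, v = a ∨ v = b ∨ v = c → v * a = a * v ∧ v * b = b * v := by
    rintro v (rfl | rfl | rfl)
    · exact ⟨rfl, h.cab⟩
    · exact ⟨h.cab.symm, rfl⟩
    · exact ⟨h.cac.symm, h.cbc.symm⟩
  -- the set `X₀`
  set X : Set G := {x | ∃ v, (v = a ∨ v = b ∨ v = c) ∧ ∃ δ ∈ Cz K v, ∃ f ∈ F, x = δ⁻¹ * f * δ}
    with hXdef
  have hfi' : ∀ f ∈ F, ∀ v, v = a ∨ v = b ∨ v = c → fi (Cz K v) f := by
    rintro f hf v (rfl | rfl | rfl)
    · exact (hfi f hf).1
    · exact (hfi f hf).2.1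
    · exact (hfi f hf).2.2
  have hXfin : X.Finite := by
    have h1 : X ⊆ ⋃ f ∈ F, (cjs (Cz K a) f ∪ cjs (Cz K b) f ∪ cjs (Cz K c) f) := by
      rintro x ⟨v, hv, δ, hδ, f, hf, rfl⟩
      simp only [Set.mem_iUnion, Set.mem_union]
      refine ⟨f, hf, ?_⟩
      rcases hv with rfl | rfl | rfl
      · exact Or.inl (Or.inl ⟨δ, hδ, rfl⟩)
      · exact Or.inl (Or.inr ⟨δ, hδ, rfl⟩)
      · exact Or.inr ⟨δ, hδ, rfl⟩
    refine Set.Finite.subset ?_ h1
    refine hfin.biUnion ?_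
    intro f hf
    exact ((cjs_fin (hfi f hf).1).union (cjs_fin (hfi f hf).2.1)).union
      (cjs_fin (hfi f hf).2.2)
  -- `X` is invariant under `a` and `b`
  have hXinv : ∀ z, z * z = 1 → (∀ k ∈ K, z * k * z ∈ K) → (∀ v, v = a ∨ v = b ∨ v = c →
      v * z = z * v) → (∀ f ∈ F, f * z = z * f) → ∀ x ∈ X, z * x * z ∈ X := by
    rintro z hz hzK hzv hzF x ⟨v, hv, δ, hδ, f, hf, rfl⟩
    refine ⟨v, hv, z * δ * z, ?_, f, hf, ?_⟩
    · rw [mem_Cz] at hδ ⊢
      refine ⟨hzK _ hδ.1, ?_⟩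
      have c1 : Commute δ v := hδ.2
      have c2 : Commute z v := (hzv v hv).symm
      exact ((c2.mul_left c1).mul_left c2)
    · have zi : z⁻¹ = z := inv_of_sq hz
      have e1 : (z * δ * z)⁻¹ = z * δ⁻¹ * z := by
        rw [mul_inv_rev, mul_inv_rev, zi]
        group
      rw [e1]
      have e2 : z * f * z = f := by rw [← hzF f hf, mul_assoc, hz, mul_one]
      calc z * (δ⁻¹ * f * δ) * z = z * δ⁻¹ * f * δ * z := by group
        _ = z * δ⁻¹ * (z * f * z) * δ * z := by rw [e2]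
        _ = _ := by group
  have hXa : ∀ x ∈ X, a * x * a ∈ X :=
    hXinv a h.aa (fun k hk => h.cjmem h.aa hk) (fun v hv => (hcC v hv).1) hFa
  have hXb : ∀ x ∈ X, b * x * b ∈ X :=
    hXinv b h.bb (fun k hk => h.cjmem h.bb hk) (fun v hv => (hcC v hv).2) hFb
  -- Proposition P for all permutations of the letters
  have hPP : ∀ a' b' c' : G, Fr K a' b' c' → Fx K a' b' = F → (a' = a ∨ a' = b ∨ a' = c) →
      (b' = a ∨ b' = b ∨ b' = c) → (c' = a ∨ c' = b ∨ c' = c) →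
      ∀ f ∈ F, ∀ γ ∈ Cz K c', fi (Cz K b') (γ⁻¹ * f * γ) := by
    intro a' b' c' h' e ha hb hc f hf γ hγ
    refine hP G K a' b' c' h' (by rw [e]; exact hfin) ?_ f (by rw [e]; exact hf) γ hγ
    intro f' hf'
    rw [e] at hf'
    exact ⟨hfi' f' hf' a' ha, hfi' f' hf' b' hb, hfi' f' hf' c' hc⟩
  have eab : Fx K a b = F := rfl
  have eba : Fx K b a = F := fx_swap K a b
  have eac : Fx K a c = F := fx_ac h
  have eca : Fx K c a = F := by rw [fx_swap, eac]
  have ebc : Fx K b c = F := fx_bc h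
  have ecb : Fx K c b = F := by rw [fx_swap, ebc]
  have ta : a = a ∨ a = b ∨ a = c := Or.inl rfl
  have tb : b = a ∨ b = b ∨ b = c := Or.inr (Or.inl rfl)
  have tc : c = a ∨ c = b ∨ c = c := Or.inr (Or.inr rfl)
  have hXfi : ∀ w, w = a ∨ w = b ∨ w = c → ∀ x ∈ X, fi (Cz K w) x := by
    rintro w hw x ⟨v, hv, δ, hδ, f, hf, rfl⟩
    rcases hw with rfl | rfl | rfl
    · rcases hv with rfl | rfl | rfl
      · exact fi_conj (hfi' f hf _ ta) hδ
      · exact hPP _ _ _ h.rot.rot eca tc ta tb f hf δ hδ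
      · exact hPP _ _ _ h.swap eba tb ta tc f hf δ hδ
    · rcases hv with rfl | rfl | rfl
      · exact hPP _ _ _ h.rot.swap ecb tc tb ta f hf δ hδ
      · exact fi_conj (hfi' f hf _ tb) hδ
      · exact hPP _ _ _ h eab ta tb tc f hf δ hδ
    · rcases hv with rfl | rfl | rfl
      · exact hPP _ _ _ h.rot ebc tb tc ta f hf δ hδ
      · exact hPP _ _ _ h.swap' eac ta tc tb f hf δ hδ
      · exact fi_conj (hfi' f hf _ tc) hδ
  -- `M = C_K(F)`
  set M : Subgroup G := K ⊓ Subgroup.centralizer (F : Set G) with hMdef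
  have hMmem : ∀ m, m ∈ M ↔ m ∈ K ∧ ∀ f ∈ F, f * m = m * f := by
    intro m
    rw [hMdef, Subgroup.mem_inf, Subgroup.mem_centralizer_iff]
    rfl
  have cinv : ∀ (Y : Set G) (z : G), z * z = 1 → (∀ y ∈ Y, z * y * z ∈ Y) →
      ∀ u, (∀ y ∈ Y, y * u = u * y) → ∀ y ∈ Y, y * (z * u * z) = z * u * z * y := by
    intro Y z hz hzY u hu y hy
    have h1 := hu _ (hzY y hy)
    calc y * (z * u * z) = (z * z) * y * (z * u * z) := by rw [hz, one_mul]
      _ = z * ((z * y * z) * u) * z := by group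
      _ = z * (u * (z * y * z)) * z := by rw [h1]
      _ = z * u * z * y * (z * z) := by group
      _ = z * u * z * y := by rw [hz, mul_one]
  have hFFa : ∀ f ∈ (F : Set G), a * f * a ∈ (F : Set G) := by
    intro f hf
    have e : a * f * a = f := by rw [← hFa f hf, mul_assoc, h.aa, mul_one]
    rw [e]; exact hf
  have hFFb : ∀ f ∈ (F : Set G), b * f * b ∈ (F : Set G) := by
    intro f hf
    have e : b * f * b = f := by rw [← hFb f hf, mul_assoc, h.bb, mul_one]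
    rw [e]; exact hf
  have hMV : VInv a b M := by
    constructor
    · intro u hu
      rw [hMmem] at hu ⊢
      exact ⟨h.cjmem h.aa hu.1, cinv (F : Set G) a h.aa hFFa u hu.2⟩
    · intro u hu
      rw [hMmem] at hu ⊢
      exact ⟨h.cjmem h.bb hu.1, cinv (F : Set G) b h.bb hFFb u hu.2⟩
  have hMLF : LF M := by
    refine hM G K a b c h M (M ⊓ F) inf_le_left inf_le_left hMV ?_ ?_ ?_ ?_
    · exact ⟨fun u hu => ⟨hMV.1 u hu.1, hFFa u hu.2⟩, fun u hu => ⟨hMV.2 u hu.1, hFFb u hu.2⟩⟩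
    · intro n hn z hz
      have h1 := ((hMmem n).1 hn).2 z hz.2
      have e : n⁻¹ * z * n = z := by
        calc n⁻¹ * z * n = n⁻¹ * (z * n) := by group
          _ = z := by rw [h1]; group
      rw [e]
      exact hz
    · intro f hf hf'
      exact ⟨hf, hf'⟩
    · exact LF_fin (hfin.subset fun x hx => hx.2)
  -- `N = N_K(F)`
  set N : Subgroup G := K ⊓ Subgroup.normalizer (F : Set G) with hNdef
  have hMN : M ≤ N := by
    intro m hm
    refine ⟨hm.1, ?_⟩
    rw [hMmem] at hm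
    refine Subgroup.mem_normalizer_iff.2 ?_
    intro f
    constructor
    · intro hf
      rw [← hm.2 f hf]
      have e : f * m * m⁻¹ = f := by group
      rw [e]; exact hf
    · intro hf
      have h1 := hm.2 _ hf
      have e : f = m * f * m⁻¹ := by
        calc f = m⁻¹ * ((m * f * m⁻¹) * m) := by group
          _ = m⁻¹ * (m * (m * f * m⁻¹)) := by rw [h1]
          _ = _ := by group
      rw [e]; exact hf
  have hNfi : ∀ f ∈ (F : Set G), fi N f := by
    intro f hf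
    apply fi_of_fin
    refine hfin.subset ?_
    rintro x ⟨n, hn, rfl⟩
    exact (Subgroup.mem_normalizer_iff''.1 hn.2 f).1 hf
  have hMrel : M.relIndex N ≠ 0 := by
    refine rel_le (cent_ne hfin hNfi) ?_
    intro g hg hg'
    exact ⟨hg.1, hg'⟩
  have hNLF : LF N := LF_rel hMN hMrel hMLF
  have hNV : VInv a b N := by
    constructor
    · intro u hu
      exact ⟨h.cjmem h.aa hu.1, norm_inv h.aa hFa hu.2⟩
    · intro u hu
      exact ⟨h.cjmem h.bb hu.1, norm_inv h.bb hFb hu.2⟩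
  -- `L = C_N(X)`
  set L : Subgroup G := N ⊓ Subgroup.centralizer X with hLdef
  have hLV : VInv a b L := by
    constructor
    · intro u hu
      refine ⟨hNV.1 u hu.1, ?_⟩
      have h2 := Subgroup.mem_centralizer_iff.1 hu.2
      exact Subgroup.mem_centralizer_iff.2 (cinv X a h.aa hXa u h2)
    · intro u hu
      refine ⟨hNV.2 u hu.1, ?_⟩
      have h2 := Subgroup.mem_centralizer_iff.1 hu.2
      exact Subgroup.mem_centralizer_iff.2 (cinv X b h.bb hXb u h2)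
  have hLrel : L.relIndex N ≠ 0 := by
    refine hC G K a b c h hfin N L inf_le_left inf_le_left hNV hLV hNLF ?_
    intro v hv
    have h1 : N ⊓ Subgroup.centralizer {v} ≤ Cz K v := by
      intro g hg
      exact ⟨hg.1.1, hg.2⟩
    refine rel_le (cent_ne (D := N ⊓ Subgroup.centralizer {v}) hXfin
      fun x hx => fi_mono (hXfi v hv x hx) h1) ?_
    intro g hg hg'
    exact ⟨hg.1, hg'⟩
  -- each element of `X` has finitely many conjugates under `N`
  have hXN : ∀ x ∈ X, (cjs N x).Finite := by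
    intro x hx
    apply cjs_fin
    refine rel_le hLrel ?_
    intro g _ hg
    have h2 := Subgroup.mem_centralizer_iff.1 hg.2 x hx
    exact Subgroup.mem_centralizer_singleton_iff.2 h2.symm
  set Y : Set G := ⋃ x ∈ X, cjs N x with hYdef
  have hYfin : Y.Finite := hXfin.biUnion hXN
  -- finitely many cosets
  have hcos : ∀ v, v = a ∨ v = b ∨ v = c → ∃ S : Set G, S.Finite ∧
      ∀ δ ∈ Cz K v, ∀ n ∈ N, ∃ n' ∈ N, ∃ s ∈ S, δ * n = n' * s := by
    intro v hv
    have h1 : ((fun g : G => (fun f => g⁻¹ * f * g) '' (F : Set G)) ''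
        {g | ∃ δ ∈ Cz K v, ∃ n ∈ N, g = δ * n}).Finite := by
      refine hYfin.finite_subsets.subset ?_
      rintro E ⟨g, ⟨δ, hδ, n, hn, rfl⟩, rfl⟩
      rintro y ⟨f, hf, rfl⟩
      simp only [hYdef, Set.mem_iUnion]
      refine ⟨δ⁻¹ * f * δ, ⟨v, hv, δ, hδ, f, hf, rfl⟩, n, hn, ?_⟩
      group
    obtain ⟨S, hS, hSP, h2⟩ := vals h1
    refine ⟨S, hS, ?_⟩
    intro δ hδ n hn
    obtain ⟨s, hs, e⟩ := h2 (δ * n) ⟨δ, hδ, n, hn, rfl⟩
    have e' : (fun f => s⁻¹ * f * s) '' (F : Set G) =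
        (fun f => (δ * n)⁻¹ * f * (δ * n)) '' (F : Set G) := e
    have hsK : s ∈ K := by
      obtain ⟨δ', hδ', n', hn', rfl⟩ := hSP hs
      exact K.mul_mem hδ'.1 hn'.1
    refine ⟨δ * n * s⁻¹, ⟨K.mul_mem (K.mul_mem hδ.1 hn.1) (K.inv_mem hsK), ?_⟩, s, hs, by group⟩
    refine Subgroup.mem_normalizer_iff.2 ?_
    intro f
    constructor
    · intro hf
      have h3 : s⁻¹ * f * s ∈ (fun f => (δ * n)⁻¹ * f * (δ * n)) '' (F : Set G) := by
        rw [← e']; exact ⟨f, hf, rfl⟩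
      obtain ⟨f', hf', e3⟩ := h3
      have e3' : (δ * n)⁻¹ * f' * (δ * n) = s⁻¹ * f * s := e3
      have e4 : δ * n * s⁻¹ * f * (δ * n * s⁻¹)⁻¹ = f' := by
        calc δ * n * s⁻¹ * f * (δ * n * s⁻¹)⁻¹ = (δ * n) * (s⁻¹ * f * s) * (δ * n)⁻¹ := by group
          _ = (δ * n) * ((δ * n)⁻¹ * f' * (δ * n)) * (δ * n)⁻¹ := by rw [e3']
          _ = f' := by group
      rw [e4]; exact hf'
    · intro hf
      have h3 : (δ * n)⁻¹ * (δ * n * s⁻¹ * f * (δ * n * s⁻¹)⁻¹) * (δ * n) ∈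
          (fun f => s⁻¹ * f * s) '' (F : Set G) := by
        rw [e']; exact ⟨_, hf, rfl⟩
      obtain ⟨f', hf', e3⟩ := h3
      have e3' : s⁻¹ * f' * s = (δ * n)⁻¹ * (δ * n * s⁻¹ * f * (δ * n * s⁻¹)⁻¹) * (δ * n) := e3
      have e4 : f = f' := by
        calc f = s * ((δ * n)⁻¹ * (δ * n * s⁻¹ * f * (δ * n * s⁻¹)⁻¹) * (δ * n)) * s⁻¹ := by group
          _ = s * (s⁻¹ * f' * s) * s⁻¹ := by rw [e3']
          _ = f' := by group
      rw [e4]; exact hf'
  obtain ⟨Sa, hSa, ca⟩ := hcos a ta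
  obtain ⟨Sb, hSb, cb⟩ := hcos b tb
  obtain ⟨Sc, hSc, cc⟩ := hcos c tc
  have hNK : N.relIndex K ≠ 0 := by
    refine idx (R := (fun p : G × G × G => p.1 * p.2.1 * p.2.2) '' (Sa ×ˢ (Sb ×ˢ Sc)))
      ((hSa.prod (hSb.prod hSc)).image _) ?_
    intro k hk
    obtain ⟨α, β, γ, hα, hβ, hγ, e, hαa, hβb, -, hγc, -⟩ := h.fac (X := K) le_rfl
      (fun u hu => h.cjmem h.aa hu) (fun u hu => h.cjmem h.bb hu) hk
    obtain ⟨n1, hn1, s1, hs1, e1⟩ := cc γ (mem_Cz.2 ⟨hγ, hγc⟩) 1 N.one_mem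
    obtain ⟨n2, hn2, s2, hs2, e2⟩ := cb β (mem_Cz.2 ⟨hβ, hβb⟩) n1 hn1
    obtain ⟨n3, hn3, s3, hs3, e3⟩ := ca α (mem_Cz.2 ⟨hα, hαa⟩) n2 hn2
    refine ⟨s3 * s2 * s1, ⟨(s3, s2, s1), ⟨hs3, hs2, hs1⟩, rfl⟩, n3, hn3, ?_⟩
    calc k = α * β * (γ * 1) := by rw [e]; group
      _ = α * (β * n1) * s1 := by rw [e1]; group
      _ = (α * n2) * s2 * s1 := by rw [e2]; group
      _ = n3 * (s3 * s2 * s1) := by rw [e3]; group
  exact LF_rel inf_le_left hNK hNLF

end Pool.Agent.FourGp.FF
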