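import Pool.Agent.Lib.MP_fb3619_al.FF.Util
import Pool.Agent.Lib.MP_fb3619_al.H47.TheoD

/-!
# MP_fb3619_al, board FF: the theorems for a four-subgroup `R` of a periodic group `G`
-/

set_option autoImplicit false

universe u

namespace Pool.Agent.FourGp.FF

open Pool.Agent.FourGp.H47 (Odd' inv_of_sq)
open Pool.Agent.FourGp.H99 (LF)

theorem hnd (hF : FctS.{u}) (hP : PtS.{u}) (G : Type u) [Group G]
    (hG : IsMulTorsion G) (R : Subgroup G)
    (hR4 : Nat.card R = 4) (hR2 : ∀ r ∈ R, r ^ 2 = 1) (K : Subgroup G) (hn : K.Normal)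
    (hK : ∀ k ∈ K, k ^ 2 = 1 → k = 1) (hQ : ∀ S : Subgroup G, S.FG → K.relIndex S ≠ 0)
    (h : (Nat.card (K ⊓ Subgroup.centralizer (R : Set G) : Subgroup G)).Prime ∨
      (Finite (K ⊓ Subgroup.centralizer (R : Set G) : Subgroup G) ∧
        ∀ r ∈ R, r ≠ 1 → ∀ f ∈ K ⊓ Subgroup.centralizer (R : Set G),
          {x | ∃ g ∈ K, g * r = r * g ∧ x = g⁻¹ * f * g}.Finite)) :
    ∀ S : Subgroup G, S.FG → Finite S := by
  classical
  have hR : ∀ r ∈ R, r * r = 1 := fun r hr => by rw [← pow_two]; exact hR2 r hr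
  -- two different involutions of `R`
  obtain ⟨a, b, ha, hb, ha1, hb1, hab⟩ : ∃ a b : G, a ∈ R ∧ b ∈ R ∧ a ≠ 1 ∧ b ≠ 1 ∧ a ≠ b := by
    by_contra hcon
    push Not at hcon
    have hfin : (R : Set G).Finite := by
      have : Finite R := Nat.finite_of_card_ne_zero (by rw [hR4]; norm_num)
      exact Set.toFinite _
    have hsub : ∃ x : G, (R : Set G) ⊆ {1, x} := by
      by_cases hx : ∃ x ∈ R, x ≠ 1
      · obtain ⟨x, hx, hx1⟩ := hx
        refine ⟨x, fun y hy => ?_⟩
        by_cases hy1 : y = 1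
        · exact Or.inl hy1
        · right
          exact (hcon x y hx hy hx1 hy1).symm
      · push Not at hx
        exact ⟨1, fun y hy => Or.inl (hx y hy)⟩
    obtain ⟨x, hx⟩ := hsub
    have h1 := Set.ncard_le_ncard hx (by simp)
    have h2 : (R : Set G).ncard = 4 := hR4
    have h3 : ({1, x} : Set G).ncard ≤ 2 :=
      (Set.ncard_insert_le 1 {x}).trans (by rw [Set.ncard_singleton])
    omega
  obtain ⟨hc, hab1, hall⟩ := H47.fourR R hR4 hR ha hb ha1 hb1 hab
  have hodd : ∀ k ∈ K, Odd' k := by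
    intro k hk
    have hfo := hG k
    rcases Nat.even_or_odd' (orderOf k) with ⟨m, hm | hm⟩
    · exfalso
      have hpos : 0 < orderOf k := orderOf_pos_iff.2 hfo
      have h1 : (k ^ m) ^ 2 = 1 := by rw [← pow_mul, mul_comm, ← hm, pow_orderOf_eq_one]
      have h2 := hK _ (K.pow_mem hk m) h1
      have h3 := orderOf_dvd_of_pow_eq_one h2
      have h4 := Nat.le_of_dvd (by omega) h3
      omega
    · exact ⟨m, by rw [← hm, pow_orderOf_eq_one]⟩
  have hnot : ∀ r ∈ R, r ≠ 1 → r ∉ K := fun r hr hr1 hrK => hr1 (hK r hrK (hR2 r hr))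
  have hFr : Fr K a b (a * b) :=
    { nor := hn, odd := hodd, aa := hR a ha, bb := hR b hb, cc := hR _ (R.mul_mem ha hb),
      ab := rfl, na := hnot a ha ha1, nb := hnot b hb hb1,
      nc := hnot _ (R.mul_mem ha hb) hab1 }
  have hFx : Fx K a b = K ⊓ Subgroup.centralizer (R : Set G) := by
    ext w
    rw [mem_Fx, Subgroup.mem_inf, Subgroup.mem_centralizer_iff]
    constructor
    · rintro ⟨h1, h2, h3⟩
      refine ⟨h1, fun x hx => ?_⟩
      rcases hall x hx with rfl | rfl | rfl | rfl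
      · rw [one_mul, mul_one]
      · exact (hFr.comm3 h2 h3).symm
      · exact h2.symm
      · exact h3.symm
    · rintro ⟨h1, h2⟩
      exact ⟨h1, (h2 a ha).symm, (h2 b hb).symm⟩
  have hLF : LF K := by
    rcases h with h | ⟨hfin, h⟩
    · rw [← hFx] at h
      exact hP G K a b _ hFr h
    · rw [← hFx] at hfin h
      refine hF G K a b _ hFr (Set.toFinite _) fun f hf => ?_
      have key : ∀ r ∈ R, r ≠ 1 → fi (Cz K r) f := by
        intro r hr hr1
        apply fi_of_finite
        refine (h r hr hr1 f hf).subset ?_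
        rintro x ⟨g, hg, rfl⟩
        rw [mem_Cz] at hg
        exact ⟨g, hg.1, hg.2, rfl⟩
      exact ⟨key a ha ha1, key b hb hb1, key _ (R.mul_mem ha hb) hab1⟩
  intro S hS
  have h1 : Group.FG S := (Group.fg_iff_subgroup_fg S).2 hS
  have h2 : (K.subgroupOf S).FiniteIndex := ⟨hQ S hS⟩
  refine H99.finite_core (K.subgroupOf S) (A := K) ((S.subtype.comp
    (K.subgroupOf S).subtype).codRestrict K ?_) ?_ hLF
  · intro x; exact x.2
  · intro x y hxy
    have := congrArg (fun z : K => (z : G)) hxy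
    exact Subtype.ext (Subtype.ext this)

end Pool.Agent.FourGp.FF
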