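import Pool.Agent.Lib.MP_fb3619_al.FF.Iface
import Pool.Agent.Lib.MP_fb3619_al.Main

/-!
# MP_fb3619_al, board FF: MQ. `N / Z` without fixed points, `Z` locally finite
-/

set_option autoImplicit false

universe u

namespace Pool.Agent.FourGp.FF

open Pool.Agent.FourGp
open Pool.Agent.FourGp.H99 (LF LF_ext LF_of_surj)
open Pool.Agent.FourGp.H47 (Odd' inv_of_sq)

/-- A fixed coset of an involutory automorphism contains a fixed point. -/
theorem fixed_rep {N : Type u} [Group N] (Z : Subgroup N) (σ : N ≃* N) (ss : ∀ k, σ (σ k) = k)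
    (odd : ∀ k : N, ∃ n : ℕ, k ^ (2 * n + 1) = 1) {n : N} (h : n⁻¹ * σ n ∈ Z) :
    ∃ s ∈ Z, σ (n * s) = n * s ∧ ∃ j : ℕ, s = (((σ n)⁻¹ * n) ^ j)⁻¹ := by
  set t := (σ n)⁻¹ * n with ht
  have htZ : t ∈ Z := by
    have := Z.inv_mem h
    have e : (n⁻¹ * σ n)⁻¹ = t := by rw [ht]; group
    rwa [e] at this
  have hst : σ t = t⁻¹ := by
    rw [ht, map_mul, map_inv, ss]; group
  obtain ⟨m, hm⟩ := odd t
  have hsq : t ^ (m + 1) * t ^ (m + 1) = t := by
    rw [← pow_add]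
    calc t ^ (m + 1 + (m + 1)) = t ^ (2 * m + 1) * t := by
          rw [← pow_succ]; congr 1; ring
      _ = t := by rw [hm, one_mul]
  refine ⟨(t ^ (m + 1))⁻¹, Z.inv_mem (Z.pow_mem htZ _), ?_, m + 1, rfl⟩
  have e1 : σ n = n * t⁻¹ := by rw [ht]; group
  rw [map_mul, map_inv, map_pow, hst, e1]
  set r := t ^ (m + 1) with hr
  have e2 : t⁻¹ ^ (m + 1) = r⁻¹ := by rw [inv_pow]
  rw [e2]
  calc n * t⁻¹ * r⁻¹⁻¹ = n * (t⁻¹ * r) := by group
    _ = n * ((r * r)⁻¹ * r) := by rw [hsq]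
    _ = n * r⁻¹ := by group

/-- The quotient of a group with two automorphisms by a subgroup which contains the common fixed
points is locally finite. -/
theorem quo_lf (hM : MainS.{u}) {N : Type u} [Group N] (Z : Subgroup N) [Z.Normal] (σ τ : N ≃* N)
    (ss : ∀ k, σ (σ k) = k) (tt : ∀ k, τ (τ k) = k) (st : ∀ k, σ (τ k) = τ (σ k))
    (odd : ∀ k : N, ∃ n : ℕ, k ^ (2 * n + 1) = 1) (hσ : ∀ z ∈ Z, σ z ∈ Z) (hτ : ∀ z ∈ Z, τ z ∈ Z)
    (fix : ∀ k, σ k = k → τ k = k → k ∈ Z) : LF (N ⧸ Z) := by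
  have mapeq : ∀ ρ : N ≃* N, (∀ k, ρ (ρ k) = k) → (∀ z ∈ Z, ρ z ∈ Z) →
      Z.map (ρ : N →* N) = Z := by
    intro ρ h1 h2
    apply le_antisymm
    · rintro _ ⟨z, hz, rfl⟩
      exact h2 z hz
    · intro z hz
      exact ⟨ρ z, h2 z hz, h1 z⟩
  set σ' : (N ⧸ Z) ≃* (N ⧸ Z) := QuotientGroup.congr Z Z σ (mapeq σ ss hσ) with hσ'
  set τ' : (N ⧸ Z) ≃* (N ⧸ Z) := QuotientGroup.congr Z Z τ (mapeq τ tt hτ) with hτ'
  have e1 : ∀ k : N, σ' (QuotientGroup.mk k) = QuotientGroup.mk (σ k) := fun k => rfl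
  have e2 : ∀ k : N, τ' (QuotientGroup.mk k) = QuotientGroup.mk (τ k) := fun k => rfl
  refine hM (N ⧸ Z) σ' τ' ⟨?_, ?_, ?_, ?_, ?_⟩
  · intro q
    obtain ⟨n, rfl⟩ := QuotientGroup.mk_surjective q
    rw [e1, e1, ss]
  · intro q
    obtain ⟨n, rfl⟩ := QuotientGroup.mk_surjective q
    rw [e2, e2, tt]
  · intro q
    obtain ⟨n, rfl⟩ := QuotientGroup.mk_surjective q
    rw [e1, e2, e1, e2, st]
  · intro q
    obtain ⟨n, rfl⟩ := QuotientGroup.mk_surjective q
    obtain ⟨m, hm⟩ := odd n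
    refine ⟨m, ?_⟩
    have := congrArg (QuotientGroup.mk : N → N ⧸ Z) hm
    rw [QuotientGroup.mk_pow] at this
    exact this
  · intro q h1 h2
    obtain ⟨n, rfl⟩ := QuotientGroup.mk_surjective q
    rw [e1] at h1
    rw [e2] at h2
    have m1 : n⁻¹ * σ n ∈ Z := QuotientGroup.eq.1 h1.symm
    have m2 : n⁻¹ * τ n ∈ Z := QuotientGroup.eq.1 h2.symm
    obtain ⟨s, hs, f1, -⟩ := fixed_rep Z σ ss odd m1
    have m3 : (n * s)⁻¹ * τ (n * s) ∈ Z := by
      rw [map_mul]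
      have e : (n * s)⁻¹ * (τ n * τ s) = s⁻¹ * (n⁻¹ * τ n) * τ s := by group
      rw [e]
      exact Z.mul_mem (Z.mul_mem (Z.inv_mem hs) m2) (hτ s hs)
    obtain ⟨r, hr, f2, j, hj⟩ := fixed_rep Z τ tt odd m3
    have f3 : σ (n * s * r) = n * s * r := by
      rw [map_mul, f1, hj, map_inv, map_pow, map_mul, map_inv, st, f1]
    have f4 := fix _ f3 f2
    have f5 : n ∈ Z := by
      have e : n = (n * s * r) * r⁻¹ * s⁻¹ := by group
      rw [e]
      exact Z.mul_mem (Z.mul_mem f4 (Z.inv_mem hr)) (Z.inv_mem hs)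
    exact (QuotientGroup.eq_one_iff n).2 f5

theorem mq : MqS.{u} := by
  intro G _ K a b c h N Z hN hZ hVN hVZ hnor hF hLZ
  have cj : ∀ {z : G}, z * z = 1 → ∀ x y : G, z * (x * y) * z = (z * x * z) * (z * y * z) := by
    intro z hz x y
    calc z * (x * y) * z = z * x * 1 * y * z := by group
      _ = z * x * (z * z) * y * z := by rw [hz]
      _ = _ := by group
  have cc : ∀ {z : G}, z * z = 1 → ∀ x : G, z * (z * x * z) * z = x := by
    intro z hz x
    calc z * (z * x * z) * z = (z * z) * x * (z * z) := by group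
      _ = x := by rw [hz]; group
  -- the automorphisms
  let mk : ∀ z : G, z * z = 1 → (∀ u ∈ N, z * u * z ∈ N) → (N ≃* N) := fun z hz hzN =>
    { toFun := fun n => ⟨z * n.1 * z, hzN n.1 n.2⟩
      invFun := fun n => ⟨z * n.1 * z, hzN n.1 n.2⟩
      left_inv := fun n => Subtype.ext (cc hz n.1)
      right_inv := fun n => Subtype.ext (cc hz n.1)
      map_mul' := fun x y => Subtype.ext (cj hz x.1 y.1) }
  have hnorm : (Z.subgroupOf N).Normal := by
    refine ⟨?_⟩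
    intro z hz n
    rw [Subgroup.mem_subgroupOf] at hz ⊢
    have := hnor (n.1)⁻¹ (N.inv_mem n.2) z.1 hz
    rw [inv_inv] at this
    exact this
  have hLZ' : LF (Z.subgroupOf N) :=
    LF_of_surj ((Subgroup.subgroupOfEquivOfLe hZ).symm : Z ≃* Z.subgroupOf N).toMonoidHom
      (Subgroup.subgroupOfEquivOfLe hZ).symm.surjective hLZ
  refine LF_ext (Z.subgroupOf N) hLZ' ?_
  refine quo_lf part3_main (Z.subgroupOf N) (mk a h.aa hVN.1) (mk b h.bb hVN.2) ?_ ?_ ?_ ?_ ?_ ?_ ?_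
  · intro k
    exact Subtype.ext (cc h.aa k.1)
  · intro k
    exact Subtype.ext (cc h.bb k.1)
  · intro k
    apply Subtype.ext
    change a * (b * k.1 * b) * a = b * (a * k.1 * a) * b
    calc a * (b * k.1 * b) * a = (a * b) * k.1 * (b * a) := by group
      _ = (b * a) * k.1 * (a * b) := by rw [h.cab]
      _ = b * (a * k.1 * a) * b := by group
  · intro k
    obtain ⟨n, hn⟩ := h.odd k.1 (hN k.2)
    exact ⟨n, Subtype.ext hn⟩
  · intro z hz
    rw [Subgroup.mem_subgroupOf] at hz ⊢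
    exact hVZ.1 z.1 hz
  · intro z hz
    rw [Subgroup.mem_subgroupOf] at hz ⊢
    exact hVZ.2 z.1 hz
  · intro k h1 h2
    rw [Subgroup.mem_subgroupOf]
    have e1 : a * k.1 * a = k.1 := congrArg Subtype.val h1
    have e2 : b * k.1 * b = k.1 := congrArg Subtype.val h2
    refine hF k.1 k.2 (mem_Fx.2 ⟨hN k.2, ?_, ?_⟩)
    · calc k.1 * a = (a * k.1 * a) * a := by rw [e1]
        _ = a * k.1 * (a * a) := by group
        _ = a * k.1 := by rw [h.aa, mul_one]
    · calc k.1 * b = (b * k.1 * b) * b := by rw [e2]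
        _ = b * k.1 * (b * b) := by group
        _ = b * k.1 := by rw [h.bb, mul_one]

end Pool.Agent.FourGp.FF
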