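import Pool.Agent.Lib.MP_fb3619_al.FF.Util

/-!
# MP_fb3619_al, board FF, row PPP: `C_B(F^C)` has finite index in `B`
-/

set_option autoImplicit false

universe u

namespace Pool.Agent.FourGp.FF

open Pool.Agent.FourGp.H47 (Odd' inv_of_sq conj_inv_pow mul_inv_self odd_conj comm_of_inv
  mul_inv_self' comm_pow comm_inv conj_comm comm_conj)

variable {G : Type u} [Group G] {K : Subgroup G} {a b c : G}

namespace Fr

/-- An element of `K` commuting with commuting involutions of types `a` and `b`, the first being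
`a`, is a conjugate of an element of `F` by an element of `C_K(a)`. -/
theorem label (h : Fr K a b c) {q φ : G} (hq : Ty K b q) (hqa : q * a = a * q) (hφ : φ ∈ K)
    (h1 : φ * a = a * φ) (h2 : φ * q = q * φ) :
    ∃ f ∈ Fx K a b, ∃ δ ∈ Cz K a, φ = δ⁻¹ * f * δ := by
  obtain ⟨j, hj⟩ := h.swap.ty_cj h.swap.ty_a hq
  set δ := (b * q) ^ j with hδ
  have hδK : δ ∈ K := K.pow_mem (h.swap.ty_mul h.swap.ty_a hq) j
  have hδa : δ * a = a * δ := comm_pow h.cab.symm hqa j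
  refine ⟨δ * φ * δ⁻¹, ?_, δ, mem_Cz.2 ⟨hδK, hδa⟩, by group⟩
  have c1 : Commute δ a := hδa
  have c2 : Commute φ a := h1
  refine mem_Fx.2 ⟨K.mul_mem (K.mul_mem hδK hφ) (K.inv_mem hδK),
    ((c1.mul_left c2).mul_left c1.inv_left).eq, ?_⟩
  have e : b = δ * q * δ⁻¹ := by rw [← hj]; group
  calc δ * φ * δ⁻¹ * b = δ * φ * δ⁻¹ * (δ * q * δ⁻¹) := by rw [← e]
    _ = δ * (φ * q) * δ⁻¹ := by group
    _ = δ * (q * φ) * δ⁻¹ := by rw [h2]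
    _ = (δ * q * δ⁻¹) * (δ * φ * δ⁻¹) := by group
    _ = b * (δ * φ * δ⁻¹) := by rw [← e]

/-- The pentagon. -/
theorem penta (h : Fr K a b c) {γ β : G} (hγ : γ ∈ Cz K c) (hβ : β ∈ Cz K b) :
    ∃ δ : G, δ ∈ Cz K c ∧
      (γ⁻¹ * a * γ) * (β * (δ⁻¹ * b * δ) * β⁻¹) = (β * (δ⁻¹ * b * δ) * β⁻¹) * (γ⁻¹ * a * γ) := by
  rw [mem_Cz] at hγ hβ
  obtain ⟨d, β₁, δ, hd, hβ₁, hδ, e, h1, h2, -, h4, -⟩ := h.fac (X := K) le_rfl
    (fun u hu => h.cjmem h.aa hu) (fun u hu => h.cjmem h.bb hu) (K.mul_mem hγ.1 hβ.1)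
  refine ⟨δ, mem_Cz.2 ⟨hδ, h4⟩, ?_⟩
  have e1 : γ = d * β₁ * δ * β⁻¹ := by rw [← e]; group
  have e2 : γ⁻¹ * a * γ = (β₁ * δ * β⁻¹)⁻¹ * a * (β₁ * δ * β⁻¹) := by
    rw [e1]
    calc (d * β₁ * δ * β⁻¹)⁻¹ * a * (d * β₁ * δ * β⁻¹)
        = (β₁ * δ * β⁻¹)⁻¹ * (d⁻¹ * a * d) * (β₁ * δ * β⁻¹) := by group
      _ = _ := by rw [conj_comm h1]
  have e3 : β * (δ⁻¹ * b * δ) * β⁻¹ = (β₁ * δ * β⁻¹)⁻¹ * b * (β₁ * δ * β⁻¹) := by
    calc β * (δ⁻¹ * b * δ) * β⁻¹ = (δ * β⁻¹)⁻¹ * b * (δ * β⁻¹) := by group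
      _ = (δ * β⁻¹)⁻¹ * (β₁⁻¹ * b * β₁) * (δ * β⁻¹) := by rw [conj_comm h2]
      _ = _ := by group
  rw [e2, e3]
  set g := β₁ * δ * β⁻¹
  calc g⁻¹ * a * g * (g⁻¹ * b * g) = g⁻¹ * (a * b) * g := by group
    _ = g⁻¹ * (b * a) * g := by rw [h.cab]
    _ = g⁻¹ * b * g * (g⁻¹ * a * g) := by group

end Fr

theorem ppp (hSig : SigS.{u}) (hShu : ShuS.{u}) (hSeq : SeqS.{u}) : PppS.{u} := by
  intro G _ K a b c h hFin hfi
  -- it is enough to treat `γ` inverted by `b`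
  suffices key : ∀ f ∈ Fx K a b, ∀ γ ∈ Cz K c, fi (Cz K b) (γ⁻¹ * f * γ) from key
  have hShuB := hShu G K a b c h (Cz K b) a cz_le h.aa
    (fun d hd => h.cz_inv h.aa h.cab hd) (hFin.subset (by
      rintro w ⟨hw, hwa⟩
      rw [mem_Cz] at hw
      exact mem_Fx.2 ⟨hw.1, hwa, hw.2⟩))
  -- the set `S`
  set S : Set G := {s | ∃ f ∈ Fx K a b, ∃ γ ∈ Cz K c, s = γ⁻¹ * f * γ} with hS
  have hSfin : S.Finite := by
    have : S = ⋃ f ∈ (Fx K a b : Set G), {x | ∃ g ∈ Cz K c, x = g⁻¹ * f * g} := by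
      ext x
      simp only [hS, Set.mem_ofPred_eq, Set.mem_iUnion, SetLike.mem_coe, exists_prop]
    rw [this]
    exact hFin.biUnion fun f hf => fi_finite (hfi f hf).2.2
  have hSa : ∀ s ∈ S, a * s * a ∈ S := by
    rintro s ⟨f, hf, γ, hγ, rfl⟩
    refine ⟨f, hf, a * γ * a, h.cz_inv h.aa h.cac hγ, ?_⟩
    rw [mem_Fx] at hf
    have e : (a * γ * a)⁻¹ = a * γ⁻¹ * a := by
      rw [mul_inv_rev, mul_inv_rev, inv_of_sq h.aa]; group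
    rw [e]
    calc a * (γ⁻¹ * f * γ) * a = a * γ⁻¹ * 1 * f * γ * a := by group
      _ = a * γ⁻¹ * (a * a) * f * γ * a := by rw [h.aa]
      _ = a * γ⁻¹ * a * (a * f) * γ * a := by group
      _ = a * γ⁻¹ * a * f * (a * γ * a) := by rw [← hf.2.1]; group
  set S₁ : Set G := {s | s ∈ S ∧ fi (Cz K b) s} with hS₁
  set S₂ : Set G := {s | s ∈ S ∧ ¬ fi (Cz K b) s} with hS₂
  have hFS : ∀ f ∈ Fx K a b, f ∈ S₁ := by
    intro f hf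
    exact ⟨⟨f, hf, 1, (Cz K c).one_mem, by group⟩, (hfi f hf).2.1⟩
  obtain ⟨α, hα, hαα⟩ := hSeq G K a b c h hFin hShuB.1 S₁ S₂ (hSfin.subset fun _ hs => hs.1)
    (hSfin.subset fun _ hs => hs.1) (fun _ hs => hs.2)
    (fun s hs => ⟨hSa s hs.1, fi_inv h.aa (fun d hd => h.cz_inv h.aa h.cab hd) hs.2⟩)
    (fun _ hs => hs.2)
  -- the set `Φ`
  set Sa : Set G := {s | ∃ f ∈ Fx K a b, ∃ δ ∈ Cz K a, s = δ⁻¹ * f * δ} with hSadef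
  have hSafin : Sa.Finite := by
    have : Sa = ⋃ f ∈ (Fx K a b : Set G), {x | ∃ g ∈ Cz K a, x = g⁻¹ * f * g} := by
      ext x
      simp only [hSadef, Set.mem_ofPred_eq, Set.mem_iUnion, SetLike.mem_coe, exists_prop]
    rw [this]
    exact hFin.biUnion fun f hf => fi_finite (hfi f hf).1
  intro f₁ hf₁ γ₀ hγ₀
  by_contra hcon
  have hγ₀' := mem_Cz.1 hγ₀
  set x := γ₀⁻¹ * a * γ₀ with hx
  have hxT : Ty K a x := h.ty_conj h.ty_a hγ₀'.1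
  have hxc : x * c = c * x := by
    have c1 : Commute γ₀ c := hγ₀'.2
    have c2 : Commute a c := h.cac
    exact ((c1.inv_left.mul_left c2).mul_left c1).eq
  -- the data
  have hpen : ∀ i, ∃ δ : G, δ ∈ Cz K c ∧
      x * (α i * (δ⁻¹ * b * δ) * (α i)⁻¹) = (α i * (δ⁻¹ * b * δ) * (α i)⁻¹) * x :=
    fun i => h.penta hγ₀ (hα i).1
  choose δ hδ hxq using hpen
  set q : ℕ → G := fun i => α i * ((δ i)⁻¹ * b * δ i) * (α i)⁻¹ with hq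
  have hαK : ∀ i, α i ∈ K := fun i => cz_le (hα i).1
  have hδK : ∀ i, δ i ∈ K := fun i => cz_le (hδ i)
  have hqT : ∀ i, Ty K b (q i) := by
    intro i
    have h1 := h.rot.ty_conj (h.rot.ty_conj h.rot.ty_a (hδK i)) (K.inv_mem (hαK i))
    rwa [inv_inv] at h1
  -- `f₃`
  set f₃ : ℕ → G → G := fun i f => α i * ((δ i)⁻¹ * f * δ i) * (α i)⁻¹ with hf₃
  have hf₃q : ∀ i, ∀ f ∈ Fx K a b, f₃ i f * q i = q i * f₃ i f := by
    intro i f hf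
    have hf' := mem_Fx.1 hf
    simp only [hf₃, hq]
    calc α i * ((δ i)⁻¹ * f * δ i) * (α i)⁻¹ * (α i * ((δ i)⁻¹ * b * δ i) * (α i)⁻¹)
        = α i * ((δ i)⁻¹ * (f * b) * δ i) * (α i)⁻¹ := by group
      _ = α i * ((δ i)⁻¹ * (b * f) * δ i) * (α i)⁻¹ := by rw [hf'.2.2]
      _ = _ := by group
  have hf₃K : ∀ i, ∀ f ∈ Fx K a b, f₃ i f ∈ K := by
    intro i f hf
    exact K.mul_mem (K.mul_mem (hαK i) (h.cjk (fx_le hf))) (K.inv_mem (hαK i))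
  have hdec : ∀ i f, ∃ w n : G, f ∈ Fx K a b → w ∈ Cz K (q i) ∧ n ∈ Cz K (q i) ∧
      f₃ i f = w * n ∧ w * x = x * w ∧ x * n * x = n⁻¹ := by
    intro i f
    by_cases hf : f ∈ Fx K a b
    · obtain ⟨w, n, h1⟩ := h.dec (X := Cz K (q i)) cz_le hxT.1
        (fun u hu => h.cz_inv hxT.1 (hxq i) hu) (mem_Cz.2 ⟨hf₃K i f hf, hf₃q i f hf⟩)
      exact ⟨w, n, fun _ => h1⟩
    · exact ⟨1, 1, fun hf' => absurd hf' hf⟩
  choose φ n hφn using hdec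
  have hφS : ∀ i, ∀ f ∈ Fx K a b, γ₀ * φ i f * γ₀⁻¹ ∈ Sa := by
    intro i f hf
    obtain ⟨h1, h2, h3, h4, h5⟩ := hφn i f hf
    rw [mem_Cz] at h1
    have hex : a = γ₀ * x * γ₀⁻¹ := by rw [hx]; group
    have hqT' : Ty K b (γ₀ * q i * γ₀⁻¹) := by
      have := h.rot.ty_conj (hqT i) (K.inv_mem hγ₀'.1)
      rwa [inv_inv] at this
    obtain ⟨f', hf', δ', hδ', e⟩ := h.label hqT' (by
      calc γ₀ * q i * γ₀⁻¹ * a = γ₀ * q i * γ₀⁻¹ * (γ₀ * x * γ₀⁻¹) := by rw [← hex]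
        _ = γ₀ * (q i * x) * γ₀⁻¹ := by group
        _ = γ₀ * (x * q i) * γ₀⁻¹ := by rw [← hxq i]
        _ = (γ₀ * x * γ₀⁻¹) * (γ₀ * q i * γ₀⁻¹) := by group
        _ = a * (γ₀ * q i * γ₀⁻¹) := by rw [← hex])
      (φ := γ₀ * φ i f * γ₀⁻¹)
      (K.mul_mem (K.mul_mem hγ₀'.1 h1.1) (K.inv_mem hγ₀'.1)) (by
      calc γ₀ * φ i f * γ₀⁻¹ * a = γ₀ * φ i f * γ₀⁻¹ * (γ₀ * x * γ₀⁻¹) := by rw [← hex]
        _ = γ₀ * (φ i f * x) * γ₀⁻¹ := by group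
        _ = γ₀ * (x * φ i f) * γ₀⁻¹ := by rw [h4]
        _ = (γ₀ * x * γ₀⁻¹) * (γ₀ * φ i f * γ₀⁻¹) := by group
        _ = a * (γ₀ * φ i f * γ₀⁻¹) := by rw [← hex]) (by
      calc γ₀ * φ i f * γ₀⁻¹ * (γ₀ * q i * γ₀⁻¹) = γ₀ * (φ i f * q i) * γ₀⁻¹ := by group
        _ = γ₀ * (q i * φ i f) * γ₀⁻¹ := by rw [h1.2]
        _ = _ := by group)
    exact ⟨f', hf', δ', hδ', e⟩
  have hsS : ∀ i, ∀ f ∈ Fx K a b, (δ i)⁻¹ * f * δ i ∈ S :=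
    fun i f hf => ⟨f, hf, δ i, hδ i, rfl⟩
  -- pigeonhole
  have : Finite (Fx K a b) := hFin
  have : Finite S := hSfin
  have : Finite Sa := hSafin
  let data : ℕ → (Fx K a b → S × Sa) := fun i f =>
    (⟨(δ i)⁻¹ * f.1 * δ i, hsS i f.1 f.2⟩, ⟨γ₀ * φ i f.1 * γ₀⁻¹, hφS i f.1 f.2⟩)
  have hpig : ∃ i j, i < j ∧ data i = data j := by
    obtain ⟨i, j, hij, e⟩ := Finite.exists_ne_map_eq_of_infinite data
    rcases lt_or_gt_of_ne hij with h1 | h1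
    · exact ⟨i, j, h1, e⟩
    · exact ⟨j, i, h1, e.symm⟩
  obtain ⟨i, j, hij, edata⟩ := hpig
  have es : ∀ f ∈ Fx K a b, (δ i)⁻¹ * f * δ i = (δ j)⁻¹ * f * δ j := by
    intro f hf
    have h1 := congrFun edata ⟨f, hf⟩
    exact congrArg (fun p : S × Sa => (p.1 : G)) h1
  have eφ : ∀ f ∈ Fx K a b, φ i f = φ j f := by
    intro f hf
    have h1 := congrFun edata ⟨f, hf⟩
    have h2 : γ₀ * φ i f * γ₀⁻¹ = γ₀ * φ j f * γ₀⁻¹ :=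
      congrArg (fun p : S × Sa => (p.2 : G)) h1
    calc φ i f = γ₀⁻¹ * (γ₀ * φ i f * γ₀⁻¹) * γ₀ := by group
      _ = γ₀⁻¹ * (γ₀ * φ j f * γ₀⁻¹) * γ₀ := by rw [h2]
      _ = φ j f := by group
  -- all `s_f` belong to `S₁`
  have hall : ∀ f ∈ Fx K a b, (δ i)⁻¹ * f * δ i ∈ S₁ := by
    intro f hf
    by_contra hns
    have hs2 : (δ i)⁻¹ * f * δ i ∈ S₂ := by
      refine ⟨hsS i f hf, fun h1 => hns ⟨hsS i f hf, h1⟩⟩
    refine (hαα i j hij).2 _ hs2 ?_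
    -- decompose `s`
    have hsC : (δ i)⁻¹ * f * δ i ∈ Cz K c := by
      refine (Cz K c).mul_mem ((Cz K c).mul_mem ((Cz K c).inv_mem (hδ i)) ?_) (hδ i)
      have hf' := mem_Fx.1 hf
      exact mem_Cz.2 ⟨hf'.1, h.comm3 hf'.2.1 hf'.2.2⟩
    obtain ⟨φs, m, h1, h2, h3, h4, h5⟩ := h.dec (X := Cz K c) cz_le h.aa
      (fun u hu => h.cz_inv h.aa h.cac hu) hsC
    have hφs : φs ∈ Fx K a b := h.mem_F (cz_le h1) h4 (mem_Cz.1 h1).2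
    obtain ⟨g1, g2, g3, g4, g5⟩ := hφn i f hf
    obtain ⟨g1', g2', g3', g4', g5'⟩ := hφn j f hf
    refine hSig G K a b c h x _ m φs (φ i f) (n i f) (n j f) (α i) (α j) hxT h3 (cz_le h2) h5
      (hαK i) (hαK j) (hα i).2.1 (hα j).2.1 (hαα i j hij).1 ((hα i).2.2 φs (hFS φs hφs))
      ((hα j).2.2 φs (hFS φs hφs)) (cz_le g2) (cz_le g2') g5 g5' g3 ?_
    rw [eφ f hf, ← g3', es f hf]
  -- conclusion
  have hmem : ∀ f ∈ Fx K a b, γ₀ * ((δ i)⁻¹ * f * δ i) * γ₀⁻¹ ∈ Fx K a b := by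
    intro f hf
    set s := (δ i)⁻¹ * f * δ i with hs
    have hf' := mem_Fx.1 hf
    have hsC : s ∈ Cz K c := by
      refine (Cz K c).mul_mem ((Cz K c).mul_mem ((Cz K c).inv_mem (hδ i)) ?_) (hδ i)
      exact mem_Cz.2 ⟨hf'.1, h.comm3 hf'.2.1 hf'.2.2⟩
    have hsα : s * α i = α i * s := (hα i).2.2 s (hall f hf)
    have e : f₃ i f = s := by
      simp only [hf₃]
      rw [← hs, ← hsα]
      group
    have hsq : s * q i = q i * s := by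
      have := hf₃q i f hf
      rwa [e] at this
    have hsc : s * c = c * s := (mem_Cz.1 hsC).2
    -- `x` is a power of `q c`
    obtain ⟨m, hm, hm1, hm2⟩ := h.rot.perp (hqT i) (h.rot.rot.ty_a)
    have hxm : x = (q i * c) ^ m :=
      h.rot.perp_uniq (hqT i) (h.rot.rot.ty_a) hxT hm (hxq i) hxc hm1 hm2
    have hsx : s * x = x * s := by
      rw [hxm]
      have c1 : Commute s (q i) := hsq
      have c2 : Commute s c := hsc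
      exact ((c1.mul_right c2).pow_right m).eq
    have hex : a = γ₀ * x * γ₀⁻¹ := by rw [hx]; group
    have hec : c = γ₀ * c * γ₀⁻¹ := by rw [hγ₀'.2]; group
    refine h.mem_F (K.mul_mem (K.mul_mem hγ₀'.1 (cz_le hsC)) (K.inv_mem hγ₀'.1)) ?_ ?_
    · calc γ₀ * s * γ₀⁻¹ * a = γ₀ * s * γ₀⁻¹ * (γ₀ * x * γ₀⁻¹) := by rw [← hex]
        _ = γ₀ * (s * x) * γ₀⁻¹ := by group
        _ = γ₀ * (x * s) * γ₀⁻¹ := by rw [hsx]
        _ = (γ₀ * x * γ₀⁻¹) * (γ₀ * s * γ₀⁻¹) := by group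
        _ = a * (γ₀ * s * γ₀⁻¹) := by rw [← hex]
    · calc γ₀ * s * γ₀⁻¹ * c = γ₀ * s * γ₀⁻¹ * (γ₀ * c * γ₀⁻¹) := by rw [← hec]
        _ = γ₀ * (s * c) * γ₀⁻¹ := by group
        _ = γ₀ * (c * s) * γ₀⁻¹ := by rw [hsc]
        _ = (γ₀ * c * γ₀⁻¹) * (γ₀ * s * γ₀⁻¹) := by group
        _ = c * (γ₀ * s * γ₀⁻¹) := by rw [← hec]
  let T : Fx K a b → Fx K a b := fun f => ⟨γ₀ * ((δ i)⁻¹ * f.1 * δ i) * γ₀⁻¹, hmem f.1 f.2⟩
  have hT : Function.Injective T := by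
    intro f f' e
    have e1 : γ₀ * ((δ i)⁻¹ * f.1 * δ i) * γ₀⁻¹ = γ₀ * ((δ i)⁻¹ * f'.1 * δ i) * γ₀⁻¹ :=
      congrArg Subtype.val e
    apply Subtype.ext
    calc f.1 = δ i * (γ₀⁻¹ * (γ₀ * ((δ i)⁻¹ * f.1 * δ i) * γ₀⁻¹) * γ₀) * (δ i)⁻¹ := by group
      _ = δ i * (γ₀⁻¹ * (γ₀ * ((δ i)⁻¹ * f'.1 * δ i) * γ₀⁻¹) * γ₀) * (δ i)⁻¹ := by rw [e1]
      _ = f'.1 := by group
  obtain ⟨f, hf⟩ := (Finite.injective_iff_surjective.1 hT) ⟨f₁, hf₁⟩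
  have e2 : γ₀ * ((δ i)⁻¹ * f.1 * δ i) * γ₀⁻¹ = f₁ := congrArg Subtype.val hf
  have e3 : γ₀⁻¹ * f₁ * γ₀ = (δ i)⁻¹ * f.1 * δ i := by rw [← e2]; group
  rw [e3] at hcon
  exact hcon (hall f.1 f.2).2

end Pool.Agent.FourGp.FF
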