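import Pool.Agent.Lib.MP_fb3619_al.FF.Util

/-!
# MP_fb3619_al, board FF, row PT (paper 6): Theorem P from the three possibilities
-/

set_option autoImplicit false

universe u

namespace Pool.Agent.FourGp.FF

open Pool.Agent.FourGp.H47 (Odd' inv_of_sq)
open Pool.Agent.FourGp.H99 (LF)

variable {G : Type u} [Group G] {K : Subgroup G} {a b c : G}

theorem TT_swap {v u : G} (h : TT K a b c v u) : TT K b a c v u :=
  ⟨h.1, h.2.1, fun y hy => h.2.2 y (by tauto)⟩

theorem TT_rot {v u : G} (h : TT K a b c v u) : TT K b c a v u :=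
  ⟨h.1, h.2.1, fun y hy => h.2.2 y (by tauto)⟩

theorem FiT_swap {v : G} (h : FiT K a b c v) : FiT K b a c v := by
  obtain ⟨R, hR, h1⟩ := h
  refine ⟨R, hR, fun g hg => ?_⟩
  obtain ⟨r, hr, t, ht, e⟩ := h1 g hg
  exact ⟨r, hr, t, TT_swap ht, e⟩

theorem FiT_rot {v : G} (h : FiT K a b c v) : FiT K b c a v := by
  obtain ⟨R, hR, h1⟩ := h
  refine ⟨R, hR, fun g hg => ?_⟩
  obtain ⟨r, hr, t, ht, e⟩ := h1 g hg
  exact ⟨r, hr, t, TT_rot ht, e⟩

/-- `F ≤ K` is centralized by `C_K(v)`. -/
def Cen (K : Subgroup G) (a b v : G) : Prop := ∀ β ∈ Cz K v, ∀ f ∈ Fx K a b, f * β = β * f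

namespace Fr

/-- For an element commuting with `b`: conjugation by `c` is conjugation by `a`. -/
theorem cuc (h : Fr K a b c) {u : G} (hu : u * b = b * u) : c * u * c = a * u * a := by
  calc c * u * c = (a * b) * u * (b * a) := by rw [h.ab, h.ba]
    _ = a * (b * u) * b * a := by group
    _ = a * u * (b * b) * a := by rw [← hu]; group
    _ = a * u * a := by rw [h.bb]; group

theorem ab_ac (h : Fr K a b c) (hA : Ab K b a) : Ab K b c := by
  intro u v hu hv hiu hiv
  rw [h.cuc (mem_Cz.1 hu).2] at hiu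
  rw [h.cuc (mem_Cz.1 hv).2] at hiv
  exact hA u v hu hv hiu hiv

/-- One of the types has an abelian `inverted part`; the other two have property P. -/
theorem pt_core (h1 : Cs1S.{u}) (h2 : Cs2S.{u}) (h : Fr K a b c)
    (hfin : (Fx K a b : Set G).Finite) (hA : Ab K b a)
    (ha : FiT K a b c a ∨ Cen K a b a) (hc : FiT K a b c c ∨ Cen K a b c) : LF K := by
  rcases hc with hc | hc
  · exact h1 G K a b c h hA hc
  · rcases ha with ha | ha
    · -- the frame `(c, b, a)`
      have hfr : Fr K c b a := h.rot.swap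
      exact h1 G K c b a hfr (h.ab_ac hA) (FiT_swap (FiT_rot ha))
    · exact h2 G K a b c h hfin ha hc

end Fr

theorem pt (hF : FctS.{u}) (h1 : Cs1S.{u}) (h2 : Cs2S.{u}) (hT : TriS.{u}) : PtS.{u} := by
  intro G _ K a b c h hp
  have hfin : (Fx K a b : Set G).Finite := by
    have : Finite (Fx K a b) := Nat.finite_of_card_ne_zero hp.ne_zero
    exact Set.toFinite _
  have esw : Fx K b a = Fx K a b := Fr.fx_swap
  have eac : Fx K a c = Fx K a b := by rw [h.swap.fx_rot, esw]
  have Tb := hT G K a b c h hp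
  have Ta := hT G K b a c h.swap (by rw [esw]; exact hp)
  have Tc := hT G K a c b h.swap' (by rw [eac]; exact hp)
  rw [esw] at Ta
  rw [eac] at Tc
  -- property P for the three types
  have Pb : FiT K a b c b ∨ Cen K a b b := by
    rcases Tb with ⟨-, h3⟩ | ⟨-, h3⟩
    · exact Or.inl h3
    · exact h3
  have Pa : FiT K a b c a ∨ Cen K a b a := by
    rcases Ta with ⟨-, h3⟩ | ⟨-, h3 | h3⟩
    · exact Or.inl (FiT_swap h3)
    · exact Or.inl (FiT_swap h3)
    · exact Or.inr h3
  have Pc : FiT K a b c c ∨ Cen K a b c := by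
    rcases Tc with ⟨-, h3⟩ | ⟨-, h3 | h3⟩
    · exact Or.inl (FiT_swap (FiT_rot (FiT_rot h3)))
    · exact Or.inl (FiT_swap (FiT_rot (FiT_rot h3)))
    · exact Or.inr h3
  rcases Tb with ⟨hA, -⟩ | ⟨fb, -⟩
  · exact h.pt_core h1 h2 hfin hA Pa Pc
  rcases Ta with ⟨hA, -⟩ | ⟨fa, -⟩
  · refine h.swap.pt_core h1 h2 (by rw [esw]; exact hfin) hA ?_ ?_
    · rcases Pb with h3 | h3
      · exact Or.inl (FiT_swap h3)
      · right
        unfold Cen
        rw [esw]
        exact h3
    · rcases Pc with h3 | h3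
      · exact Or.inl (FiT_swap h3)
      · right
        unfold Cen
        rw [esw]
        exact h3
  rcases Tc with ⟨hA, -⟩ | ⟨fc, -⟩
  · refine h.swap'.pt_core h1 h2 (by rw [eac]; exact hfin) hA ?_ ?_
    · rcases Pa with h3 | h3
      · exact Or.inl (FiT_rot (FiT_swap h3))
      · right
        unfold Cen
        rw [eac]
        exact h3
    · rcases Pb with h3 | h3
      · exact Or.inl (FiT_rot (FiT_swap h3))
      · right
        unfold Cen
        rw [eac]
        exact h3
  exact hF G K a b c h hfin fun f hf => ⟨fa f hf, fb f hf, fc f hf⟩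

end Pool.Agent.FourGp.FF
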