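import Pool.Agent.Lib.MP_fb3619_al.FF.Util
import Mathlib.GroupTheory.CosetCover

/-!
# MP_fb3619_al, board FF, module SEQ: a sequence of pairwise commuting elements (paper 3)
-/

set_option autoImplicit false

universe u

namespace Pool.Agent.FourGp.FF

open scoped Pointwise

open Pool.Agent.FourGp.H47 (Odd' inv_of_sq conj_inv_pow mul_inv_self odd_conj comm_of_inv
  mul_inv_self' comm_pow comm_inv conj_comm comm_conj)

namespace Seq

variable {G : Type u} [Group G]

/-- The lemma of B.H. Neumann for cosets of centralizers in `D`. -/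
theorem neumann {D : Subgroup G} {R S : Set G} (hR : R.Finite) (hS : S.Finite)
    (hRD : ∀ r ∈ R, r ∈ D)
    (h : ∀ g ∈ D, ∃ r ∈ R, ∃ s ∈ S, r⁻¹ * g ∈ Subgroup.centralizer {s}) :
    ∃ s ∈ S, fi D s := by
  classical
  have hfR : Finite R := hR
  have hfS : Finite S := hS
  have : Fintype R := Fintype.ofFinite R
  have : Fintype S := Fintype.ofFinite S
  have hcov : ⋃ i ∈ (Finset.univ : Finset (R × S)),
      (⟨(i.1 : G), hRD _ i.1.2⟩ : D) •
        (((Subgroup.centralizer {(i.2 : G)}).subgroupOf D : Subgroup D) : Set D) = Set.univ := by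
    apply Set.eq_univ_of_forall
    intro g
    obtain ⟨r, hr, s, hs, hrs⟩ := h g g.2
    simp only [Finset.mem_univ, Set.iUnion_true, Set.mem_iUnion]
    refine ⟨(⟨r, hr⟩, ⟨s, hs⟩), ?_⟩
    rw [mem_leftCoset_iff, SetLike.mem_coe, Subgroup.mem_subgroupOf]
    exact hrs
  obtain ⟨k, -, hk⟩ := Subgroup.exists_finiteIndex_of_leftCoset_cover hcov
  exact ⟨k.2, k.2.2, hk.index_ne_zero⟩

/-- Centralizers of finite sets. -/
theorem cent_set {D : Subgroup G} {S : Set G} (hS : S.Finite) (h : ∀ s ∈ S, fi D s) :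
    (Subgroup.centralizer S).relIndex D ≠ 0 := by
  classical
  have hfS : Finite S := hS
  have e : Subgroup.centralizer S = ⨅ s : S, Subgroup.centralizer {(s : G)} := by
    ext g
    rw [Subgroup.mem_iInf, Subgroup.mem_centralizer_iff]
    constructor
    · intro hg s
      rw [Subgroup.mem_centralizer_singleton_iff]
      exact (hg s s.2).symm
    · intro hg s hs
      have := hg ⟨s, hs⟩
      rw [Subgroup.mem_centralizer_singleton_iff] at this
      exact this.symm
  rw [e]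
  exact Subgroup.relIndex_iInf_ne_zero fun s => h s s.2

end Seq

theorem seq : SeqS.{u} := by
  intro G _ K a b c hF hfin hfc S₁ S₂ hS₁ hS₂ h1 h1a h2
  classical
  refine exists_seq_of_forall_finset_exists
    (fun y => y ∈ Cz K b ∧ a * y * a = y⁻¹ ∧ ∀ s ∈ S₁, s * y = y * s)
    (fun x y => x * y = y * x ∧ ∀ s ∈ S₂, (x⁻¹ * y) * s ≠ s * (x⁻¹ * y)) ?_
  intro T hT
  set D : Subgroup G := Cz K b with hD
  set S : Set G := S₁ ∪ (T : Set G) with hS
  have hSfin : S.Finite := hS₁.union T.finite_toSet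
  have hSfi : ∀ s ∈ S, fi D s := by
    intro s hs
    rcases hs with hs | hs
    · exact h1 s hs
    · exact hfc s (hT s hs).1 (hT s hs).2.1
  have hidx := Seq.cent_set hSfin hSfi
  set B : Subgroup G := Subgroup.centralizer S ⊓ D with hB
  have hBK : B ≤ K := fun u hu => (mem_Cz.1 hu.2).1
  have hcab : a * b = b * a := hF.cab
  have hBmem : ∀ u, u ∈ B ↔ (∀ s ∈ S, s * u = u * s) ∧ u ∈ D := by
    intro u
    rw [hB, Subgroup.mem_inf, Subgroup.mem_centralizer_iff]
  have hBa : ∀ u ∈ B, a * u * a ∈ B := by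
    intro u hu
    rw [hBmem] at hu ⊢
    refine ⟨?_, hF.cz_inv hF.aa hcab hu.2⟩
    intro s hs
    have key : (a * s * a) * u = u * (a * s * a) := by
      rcases hs with hs | hs
      · exact hu.1 _ (Or.inl (h1a s hs))
      · rw [(hT s hs).2.1]
        have c1 : Commute s u := hu.1 s (Or.inr hs)
        exact c1.inv_left.eq
    calc s * (a * u * a) = (a * a) * s * (a * u * a) := by rw [hF.aa]; group
      _ = a * ((a * s * a) * u) * a := by group
      _ = a * (u * (a * s * a)) * a := by rw [key]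
      _ = (a * u * a) * s * (a * a) := by group
      _ = (a * u * a) * s := by rw [hF.aa, mul_one]
  by_contra hno
  push Not at hno
  have hy : ∀ y ∈ B, a * y * a = y⁻¹ → ∃ x ∈ T, ∃ s ∈ S₂, (x⁻¹ * y) * s = s * (x⁻¹ * y) := by
    intro y hyB hyi
    rw [hBmem] at hyB
    obtain ⟨x, hx, hr⟩ := hno y ⟨hyB.2, hyi, fun s hs => hyB.1 s (Or.inl hs)⟩
    exact ⟨x, hx, hr (hyB.1 x (Or.inr hx))⟩
  obtain ⟨R, hRD, hR⟩ := cover_of_relIndex hidx
  set F : Set G := (Fx K a b : Set G) with hFdef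
  set R' : Set G := {g | g ∈ D ∧ ∃ r ∈ R, ∃ w ∈ F, ∃ x ∈ T, g = r⁻¹ * w * x} with hR'
  have hR'fin : R'.Finite := by
    have hf : (((R : Set G) ×ˢ (F ×ˢ (T : Set G))).image
        fun p => p.1⁻¹ * p.2.1 * p.2.2).Finite :=
      (R.finite_toSet.prod (hfin.prod T.finite_toSet)).image _
    refine hf.subset ?_
    rintro g ⟨-, r, hr, w, hw, x, hx, rfl⟩
    exact ⟨(r, w, x), ⟨hr, hw, hx⟩, rfl⟩
  obtain ⟨s, hs, hsfi⟩ := Seq.neumann (D := D) hR'fin hS₂ (fun r hr => hr.1) (by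
    intro g hg
    obtain ⟨r, hr, hrg⟩ := hR g⁻¹ (D.inv_mem hg)
    have hrD := hRD r hr
    have hk : r * g ∈ B := by
      refine ⟨?_, D.mul_mem hrD hg⟩
      have := (Subgroup.centralizer S).inv_mem hrg
      have e : (g⁻¹ * r⁻¹)⁻¹ = r * g := by group
      rwa [e] at this
    obtain ⟨w, y, hw, hyB, hwy, hwa, hyi⟩ := hF.dec hBK hF.aa hBa hk
    obtain ⟨x, hx, s, hs, hxs⟩ := hy y hyB hyi
    have hwD : w ∈ D := hw.2
    refine ⟨r⁻¹ * w * x, ⟨?_, r, hr, w, ?_, x, hx, rfl⟩, s, hs, ?_⟩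
    · exact D.mul_mem (D.mul_mem (D.inv_mem hrD) hwD) (hT x hx).1
    · exact mem_Fx.2 ⟨hBK hw, hwa, (mem_Cz.1 hwD).2⟩
    · rw [Subgroup.mem_centralizer_singleton_iff]
      have e : (r⁻¹ * w * x)⁻¹ * g = x⁻¹ * y := by
        calc (r⁻¹ * w * x)⁻¹ * g = x⁻¹ * w⁻¹ * (r * g) := by group
          _ = x⁻¹ * y := by rw [hwy]; group
      rw [e]
      exact hxs)
  exact h2 s hs hsfi

end Pool.Agent.FourGp.FF
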