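import Pool.Agent.Lib.MP_fb3619_al.FF.Util

/-!
# MP_fb3619_al, board FF: involutory automorphisms with finitely many fixed elements (paper 0.2)
-/

set_option autoImplicit false

universe u

namespace Pool.Agent.FourGp.FF

open Pool.Agent.FourGp.H99 (LF Delta shunkov)
open Pool.Agent.FourGp.H47 (Odd' inv_of_sq)

open scoped Pointwise

/-- `A` is a group, `σ` an endomorphism with finitely many fixed elements, every element is the
product of a fixed and an inverted element. Then every element is, up to a fixed factor, in the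
`FC`-centre. -/
theorem shu_core {A : Type u} [Group A] (σ : A →* A) (hC : {w : A | σ w = w}.Finite)
    (dec : ∀ g : A, ∃ w v : A, σ w = w ∧ σ v = v⁻¹ ∧ g = w * v) (x : A) :
    ∃ e : A, σ e = e ∧ (Subgroup.centralizer {e⁻¹ * x}).FiniteIndex := by
  classical
  set J : Set A := {v | σ v = v⁻¹} with hJdef
  -- for `e` fixed: the inverted `v` with `e⁻¹ x v` inverted
  have h1 : ∀ (e v v₀ : A), v ∈ J → v₀ ∈ J → e⁻¹ * x * v ∈ J → e⁻¹ * x * v₀ ∈ J →
      (e⁻¹ * x) * (v * v₀⁻¹) = (v * v₀⁻¹) * (e⁻¹ * x) := by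
    intro e v v₀ hv hv₀ hev hev₀
    set y := e⁻¹ * x with hy
    have key : ∀ v : A, v ∈ J → y * v ∈ J → v⁻¹ * y * v = (σ y)⁻¹ := by
      intro v hv hyv
      have e1 : σ v = v⁻¹ := hv
      have e2 : σ (y * v) = (y * v)⁻¹ := hyv
      rw [map_mul, e1] at e2
      have e3 : σ y = v⁻¹ * y⁻¹ * v := by
        calc σ y = (σ y * v⁻¹) * v := by group
          _ = v⁻¹ * y⁻¹ * v := by rw [e2]; group
      rw [e3]; group
    have e4 := (key v hv hev).trans (key v₀ hv₀ hev₀).symm
    calc y * (v * v₀⁻¹) = v * (v⁻¹ * y * v) * v₀⁻¹ := by group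
      _ = v * (v₀⁻¹ * y * v₀) * v₀⁻¹ := by rw [e4]
      _ = (v * v₀⁻¹) * y := by group
  -- representatives
  have h2 : ∀ e : A, ∃ v₀ : A, ∀ v, v ∈ J → e⁻¹ * x * v ∈ J → v₀ ∈ J ∧ e⁻¹ * x * v₀ ∈ J := by
    intro e
    by_cases h : ∃ v, v ∈ J ∧ e⁻¹ * x * v ∈ J
    · obtain ⟨v₀, h3, h4⟩ := h
      exact ⟨v₀, fun _ _ _ => ⟨h3, h4⟩⟩
    · exact ⟨1, fun v h3 h4 => absurd ⟨v, h3, h4⟩ h⟩
  choose v₀ hv₀ using h2
  set C : Set A := {w | σ w = w} with hCdef
  have hfin : (C ×ˢ C).Finite := hC.prod hC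
  -- every inverted `v` lies in one of the cosets
  have h3 : ∀ v ∈ J, ∃ e ∈ C, v * (v₀ e)⁻¹ ∈ Subgroup.centralizer {e⁻¹ * x} := by
    intro v hv
    obtain ⟨e, u, he, hu, hg⟩ := dec (x * v)
    have h4 : e⁻¹ * x * v ∈ J := by
      have : e⁻¹ * x * v = u := by rw [mul_assoc, hg]; group
      rw [this]; exact hu
    refine ⟨e, he, ?_⟩
    rw [Subgroup.mem_centralizer_singleton_iff]
    obtain ⟨h5, h6⟩ := hv₀ e v hv h4
    exact (h1 e v (v₀ e) hv h5 h4 h6).symm
  have hcov : ⋃ p ∈ hfin.toFinset, (p.1 * (v₀ p.2)⁻¹) •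
      ((Subgroup.centralizer {p.2⁻¹ * x} : Subgroup A) : Set A) = Set.univ := by
    rw [Set.eq_univ_iff_forall]
    intro y
    obtain ⟨w, v, hw, hv, e⟩ := dec y
    have hv' : v⁻¹ ∈ J := by
      change σ v⁻¹ = (v⁻¹)⁻¹
      rw [map_inv, hv]
    obtain ⟨e', he', h4⟩ := h3 _ hv'
    rw [Set.mem_iUnion]
    refine ⟨(w, e'), ?_⟩
    rw [Set.mem_iUnion]
    refine ⟨hfin.mem_toFinset.2 ⟨hw, he'⟩, ?_⟩
    rw [Set.mem_smul_set_iff_inv_smul_mem, smul_eq_mul, SetLike.mem_coe]
    have h5 := (Subgroup.centralizer {e'⁻¹ * x}).inv_mem h4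
    have e2 : ((w, e').1 * (v₀ (w, e').2)⁻¹)⁻¹ * y = (v⁻¹ * (v₀ e')⁻¹)⁻¹ := by
      simp only []
      rw [e]; group
    rw [e2]
    exact h5
  obtain ⟨p, hp, hfi⟩ := Subgroup.exists_finiteIndex_of_leftCoset_cover hcov
  exact ⟨p.2, (hfin.mem_toFinset.1 hp).2, hfi⟩

/-- Centralizers of finite index under automorphisms. -/
theorem conj_fi {A : Type u} [Group A] (f : A ≃* A) {y : A}
    (hy : (Subgroup.centralizer {y}).FiniteIndex) :
    (Subgroup.centralizer {f y}).FiniteIndex := by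
  have e1 : (Subgroup.centralizer {f y}).comap f.toMonoidHom = Subgroup.centralizer {y} := by
    ext k
    rw [Subgroup.mem_comap, Subgroup.mem_centralizer_singleton_iff,
      Subgroup.mem_centralizer_singleton_iff, MulEquiv.coe_toMonoidHom, ← map_mul, ← map_mul]
    exact f.injective.eq_iff
  refine ⟨?_⟩
  have h1 := Subgroup.index_comap_of_surjective (Subgroup.centralizer {f y})
    (f := f.toMonoidHom) f.surjective
  rw [← h1, e1]
  exact hy.index_ne_zero

/-- Elements inverted by `σ` are in the `FC`-centre if they have odd order. -/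
theorem shu_core2 {A : Type u} [Group A] (σ : A →* A) (hσ : ∀ g, σ (σ g) = g)
    (hC : {w : A | σ w = w}.Finite)
    (dec : ∀ g : A, ∃ w v : A, σ w = w ∧ σ v = v⁻¹ ∧ g = w * v)
    (odd : ∀ g : A, ∃ n : ℕ, g ^ (2 * n + 1) = 1) (v : A) (hv : σ v = v⁻¹) :
    (Subgroup.centralizer {v}).FiniteIndex := by
  obtain ⟨e, he, h1⟩ := shu_core σ hC dec v
  set d := e⁻¹ * v with hd
  have hve : v = e * d := by rw [hd]; group
  have h1' : d ∈ Delta A := h1
  -- `σ d ∈ Delta`
  have h2 : σ d ∈ Delta A := by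
    change (Subgroup.centralizer {σ d}).FiniteIndex
    exact conj_fi (MulEquiv.mk' ⟨σ, σ, hσ, hσ⟩ (map_mul σ)) h1
  have hn : ∀ (g y : A), y ∈ Delta A → g * y * g⁻¹ ∈ Delta A := by
    intro g y hy
    change (Subgroup.centralizer {g * y * g⁻¹}).FiniteIndex
    exact conj_fi (MulAut.conj g) hy
  have h3 : v * v ∈ Delta A := by
    have e1 : v * v = e * (d * (σ d)⁻¹) * e⁻¹ := by
      have e2 : σ v = e * σ d := by rw [hve, map_mul, he]
      have e3 : v⁻¹ = e * σ d := by rw [← hv, e2]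
      calc v * v = v * (v⁻¹)⁻¹ := by group
        _ = (e * d) * (e * σ d)⁻¹ := by rw [e3, ← hve]
        _ = _ := by group
    rw [e1]
    exact hn _ _ ((Delta A).mul_mem h1' ((Delta A).inv_mem h2))
  obtain ⟨n, hn'⟩ := odd v
  have e1 : v = (v * v) ^ (n + 1) := by
    rw [← pow_two, ← pow_mul, show 2 * (n + 1) = 2 * n + 1 + 1 by ring, pow_succ, hn', one_mul]
  have h4 : (v * v) ^ (n + 1) ∈ Delta A := (Delta A).pow_mem h3 _
  rw [← e1] at h4
  exact h4

/-- SHU. -/
theorem shu : ShuS.{u} := by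
  intro G _ K a b c h D t hDK htt hD hfin
  classical
  -- the automorphism
  set σ : D →* D :=
    { toFun := fun d => ⟨t * d.1 * t, hD _ d.2⟩
      map_one' := by
        apply Subtype.ext
        simp only [Subgroup.coe_one, mul_one]
        exact htt
      map_mul' := by
        intro x y
        apply Subtype.ext
        simp only [Subgroup.coe_mul]
        calc t * (x.1 * y.1) * t = t * x.1 * 1 * y.1 * t := by group
          _ = t * x.1 * (t * t) * y.1 * t := by rw [htt]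
          _ = _ := by group } with hσ
  have hσv : ∀ d : D, ((σ d : D) : G) = t * d.1 * t := fun _ => rfl
  have hinv : ∀ {u : G}, t * u * t = u → u * t = t * u := by
    intro u hu
    calc u * t = (t * u * t) * t := by rw [hu]
      _ = t * u * (t * t) := by group
      _ = t * u := by rw [htt, mul_one]
  have hinv' : ∀ {u : G}, u * t = t * u → t * u * t = u := by
    intro u hu
    rw [← hu, mul_assoc, htt, mul_one]
  have hC : {w : D | σ w = w}.Finite := by
    have h1 : {w : D | σ w = w} ⊆ (Subtype.val : D → G) ⁻¹' {w | w ∈ D ∧ w * t = t * w} := by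
      intro w hw
      refine ⟨w.2, ?_⟩
      have h2 : σ w = w := hw
      apply hinv
      rw [← hσv, h2]
    exact (hfin.preimage (Subtype.val_injective.injOn)).subset h1
  have hdec : ∀ g : D, ∃ w v : D, σ w = w ∧ σ v = v⁻¹ ∧ g = w * v := by
    intro g
    obtain ⟨w, s, hw, hs, e, h1, h2⟩ := h.dec hDK htt hD g.2
    refine ⟨⟨w, hw⟩, ⟨s, hs⟩, ?_, ?_, ?_⟩
    · apply Subtype.ext
      rw [hσv]
      exact hinv' h1
    · apply Subtype.ext
      rw [hσv, Subgroup.coe_inv]
      exact h2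
    · apply Subtype.ext
      exact e
  have hσσ : ∀ g : D, σ (σ g) = g := by
    intro g
    apply Subtype.ext
    rw [hσv, hσv]
    calc t * (t * g.1 * t) * t = (t * t) * g.1 * (t * t) := by group
      _ = g.1 := by rw [htt]; group
  have hodd : ∀ g : D, ∃ n : ℕ, g ^ (2 * n + 1) = 1 := by
    intro g
    obtain ⟨n, hn⟩ := h.odd _ (hDK g.2)
    exact ⟨n, Subtype.ext (by simpa using hn)⟩
  have hfi : ∀ x : D, (Subgroup.centralizer {x}).FiniteIndex → fi D x.1 := by
    intro x hx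
    have e1 : (Subgroup.centralizer {(x : G)}).subgroupOf D = Subgroup.centralizer {x} := by
      ext k
      rw [Subgroup.mem_subgroupOf, Subgroup.mem_centralizer_singleton_iff,
        Subgroup.mem_centralizer_singleton_iff]
      constructor
      · intro h
        exact Subtype.ext h
      · intro h
        exact congrArg Subtype.val h
    change ((Subgroup.centralizer {(x : G)}).subgroupOf D).index ≠ 0
    rw [e1]
    exact hx.index_ne_zero
  refine ⟨?_, ?_, ?_⟩
  · intro u hu hut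
    refine hfi ⟨u, hu⟩ (shu_core2 σ hσσ hC hdec hodd ⟨u, hu⟩ ?_)
    apply Subtype.ext
    rw [hσv, Subgroup.coe_inv]
    exact hut
  · intro g hg
    obtain ⟨e, he, h1⟩ := shu_core σ hC hdec ⟨g, hg⟩
    refine ⟨e.1, e.2, ?_, ?_⟩
    · apply hinv
      rw [← hσv, he]
    · have h2 := hfi (e⁻¹ * ⟨g, hg⟩) h1
      rw [Subgroup.coe_mul, Subgroup.coe_inv] at h2
      exact h2
  · refine shunkov (fun g => ?_) σ {w : D | σ w = w} hC {v | σ v = v⁻¹} (fun v hv => hv)
      (fun g => ?_)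
    · obtain ⟨n, hn⟩ := hodd g
      exact ⟨2 * n + 1, by omega, hn⟩
    · obtain ⟨w, v, h1, h2, h3⟩ := hdec g
      exact ⟨w, h1, v, h2, h3⟩

end Pool.Agent.FourGp.FF
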