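import Pool.Agent.Lib.MP_fb3619_al.FF.Iface

/-!
# MP_fb3619_al, board FF: row UU (paper 5)
-/

set_option autoImplicit false

universe u

namespace Pool.Agent.FourGp.FF

open Pool.Agent.FourGp.H47 (Odd' inv_of_sq conj_inv_pow mul_inv_self odd_conj comm_of_inv
  mul_inv_self' comm_pow comm_inv conj_comm comm_conj)

namespace Uu

variable {G : Type u} [Group G] {K : Subgroup G} {a b c : G}

/-- conjugation by an involution which commutes with `t` -/
theorem ty_z (h : Fr K a b c) {z t v : G} (hz : z * z = 1) (hzt : z * t = t * z) (hv : Ty K t v) :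
    Ty K t (z * v * z) := by
  refine ⟨?_, ?_⟩
  · calc z * v * z * (z * v * z) = z * v * (z * z) * v * z := by group
      _ = z * (v * v) * z := by rw [hz]; group
      _ = 1 := by rw [hv.1, mul_one, hz]
  · have e : z * v * z * t = z * (v * t) * z := by
      calc z * v * z * t = z * v * (z * t) := by group
        _ = z * (v * t) * z := by rw [hzt]; group
    rw [e]
    exact h.cjmem hz hv.2

/-- `x y x` has the type of `y` -/
theorem ty_xyx (h : Fr K a b c) {x y : G} (hx : Ty K a x) (hy : Ty K c y) : Ty K c (x * y * x) := by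
  refine ⟨?_, ?_⟩
  · calc x * y * x * (x * y * x) = x * y * (x * x) * y * x := by group
      _ = x * (y * y) * x := by rw [hx.1]; group
      _ = 1 := by rw [hy.1, mul_one, hx.1]
  · have e : x * y * x * c = (x * y * b) * (b * (x * a) * b) := by
      calc x * y * x * c = x * y * 1 * x * (a * b) := by rw [h.ab]; group
        _ = x * y * (b * b) * x * (a * b) := by rw [h.bb]
        _ = _ := by group
    rw [e]
    exact K.mul_mem (h.swap'.ty_mul_ab hx hy) (h.cjmem h.bb hx.2)

/-- preservation of types -/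
def Pr (K : Subgroup G) (a b c g : G) : Prop :=
  (∀ y, Ty K a y → Ty K a (g⁻¹ * y * g)) ∧ (∀ y, Ty K b y → Ty K b (g⁻¹ * y * g)) ∧
    ∀ y, Ty K c y → Ty K c (g⁻¹ * y * g)

theorem pr_K (h : Fr K a b c) {k : G} (hk : k ∈ K) : Pr K a b c k :=
  ⟨fun _ hy => h.ty_conj hy hk, fun _ hy => h.rot.ty_conj hy hk, fun _ hy => h.rot.rot.ty_conj hy hk⟩

theorem tt_conj (h : Fr K a b c) {g v w : G} (hg' : Pr K a b c g⁻¹)
    (hu : TT K a b c v w) : TT K a b c (g⁻¹ * v * g) (g⁻¹ * w * g) := by
  obtain ⟨h1, h2, h3⟩ := hu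
  refine ⟨h.cjk h1, ?_, ?_⟩
  · calc g⁻¹ * w * g * (g⁻¹ * v * g) = g⁻¹ * (w * v) * g := by group
      _ = g⁻¹ * (v * w) * g := by rw [h2]
      _ = _ := by group
  · intro y hy hyv hne
    have hy' : Ty K a (g * y * g⁻¹) ∨ Ty K b (g * y * g⁻¹) ∨ Ty K c (g * y * g⁻¹) := by
      have e : g⁻¹⁻¹ * y * g⁻¹ = g * y * g⁻¹ := by group
      rcases hy with k | k | k
      · left; rw [← e]; exact hg'.1 y k
      · right; left; rw [← e]; exact hg'.2.1 y k
      · right; right; rw [← e]; exact hg'.2.2 y k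
    have h4 := h3 (g * y * g⁻¹) hy' (by
      calc g * y * g⁻¹ * v = g * (y * (g⁻¹ * v * g)) * g⁻¹ := by group
        _ = g * (g⁻¹ * v * g * y) * g⁻¹ := by rw [hyv]
        _ = _ := by group) (by
      intro hh
      apply hne
      rw [← hh]
      group)
    calc y * (g⁻¹ * w * g) * y = g⁻¹ * (g * y * g⁻¹ * w * (g * y * g⁻¹)) * g := by group
      _ = g⁻¹ * w⁻¹ * g := by rw [h4]
      _ = _ := by group

theorem ut_conj (h : Fr K a b c) {g w : G} (hg : Pr K a b c g) (hg' : Pr K a b c g⁻¹)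
    (hw : w ∈ UT K a b c) : g⁻¹ * w * g ∈ UT K a b c := by
  unfold UT at hw ⊢
  induction hw using Subgroup.closure_induction with
  | mem x hx =>
    obtain ⟨v, hv, hx⟩ := hx
    apply Subgroup.subset_closure
    refine ⟨g⁻¹ * v * g, ?_, tt_conj h hg' hx⟩
    rcases hv with k | k
    · left; exact hg.1 v k
    · right; exact hg.2.2 v k
  | one => simp
  | mul x y _ _ hx hy =>
    have e : g⁻¹ * (x * y) * g = (g⁻¹ * x * g) * (g⁻¹ * y * g) := by group
    rw [e]
    exact Subgroup.mul_mem _ hx hy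
  | inv x _ hx =>
    have e : g⁻¹ * x⁻¹ * g = (g⁻¹ * x * g)⁻¹ := by group
    rw [e]
    exact Subgroup.inv_mem _ hx

theorem pr_z (h : Fr K a b c) {z : G} (hz : z * z = 1) (ha : z * a = a * z) (hb : z * b = b * z)
    (hc : z * c = c * z) : Pr K a b c z := by
  have e : z⁻¹ = z := inv_of_sq hz
  refine ⟨fun y hy => ?_, fun y hy => ?_, fun y hy => ?_⟩
  · rw [e]; exact ty_z h hz ha hy
  · rw [e]; exact ty_z h hz hb hy
  · rw [e]; exact ty_z h hz hc hy

/-- elements of `B⁻` are inverted by all involutions perpendicular to `b` -/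
theorem inv0 (h : Fr K a b c) (hab : Ab K b a) {x w z : G} (hx : Ty K a x) (hxb : x * b = b * x)
    (hw : w ∈ K) (hwb : w * b = b * w) (hxw : x * w * x = w⁻¹) (hz : Ty K a z) (hzb : z * b = b * z) :
    z * w * z = w⁻¹ := by
  -- an element inverted by `a` is inverted by `z`
  have key : ∀ w' : G, w' ∈ K → w' * b = b * w' → a * w' * a = w'⁻¹ → z * w' * z = w'⁻¹ := by
    intro w' h1 h2 h3
    have hβ : a * z ∈ Cz K b := by
      rw [mem_Cz]
      refine ⟨h.ty_mul h.ty_a hz, ?_⟩
      calc a * z * b = a * (b * z) := by rw [← hzb]; group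
        _ = (a * b) * z := by group
        _ = (b * a) * z := by rw [h.cab]
        _ = b * (a * z) := by group
    have hβi : a * (a * z) * a = (a * z)⁻¹ := mul_inv_self h.aa hz.1
    have h4 := hab (a * z) w' hβ (mem_Cz.2 ⟨h1, h2⟩) hβi h3
    have e1 : z = a * (a * z) := by rw [← mul_assoc, h.aa, one_mul]
    have e2 : z = (a * z)⁻¹ * a := by
      rw [mul_inv_rev, inv_of_sq h.aa, inv_of_sq hz.1, mul_assoc, h.aa, mul_one]
    calc z * w' * z = (a * (a * z)) * w' * ((a * z)⁻¹ * a) := by rw [← e1, ← e2]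
      _ = a * ((a * z) * w') * (a * z)⁻¹ * a := by group
      _ = a * (w' * (a * z)) * (a * z)⁻¹ * a := by rw [h4]
      _ = a * w' * a := by group
      _ = w'⁻¹ := h3
  apply key w hw hwb
  -- `x = k⁻¹ a k`, `k` a power of `a x`
  obtain ⟨j, hj⟩ := h.ty_cj h.ty_a hx
  set k := (a * x) ^ j with hk
  have hax : a * x ∈ Cz K b := by
    rw [mem_Cz]
    refine ⟨h.ty_mul h.ty_a hx, ?_⟩
    calc a * x * b = a * (b * x) := by rw [← hxb]; group
      _ = (a * b) * x := by group
      _ = (b * a) * x := by rw [h.cab]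
      _ = b * (a * x) := by group
  have hkC : k ∈ Cz K b := (Cz K b).pow_mem hax j
  have hki : a * k * a = k⁻¹ := conj_inv_pow h.aa (mul_inv_self h.aa hx.1) j
  have hw1 : k * w * k⁻¹ ∈ Cz K b := (Cz K b).mul_mem ((Cz K b).mul_mem hkC (mem_Cz.2 ⟨hw, hwb⟩))
    ((Cz K b).inv_mem hkC)
  have hw2 : a * (k * w * k⁻¹) * a = (k * w * k⁻¹)⁻¹ := by
    calc a * (k * w * k⁻¹) * a = k * ((k⁻¹ * a * k) * w * (k⁻¹ * a * k)) * k⁻¹ := by group
      _ = k * w⁻¹ * k⁻¹ := by rw [hj, hxw]
      _ = _ := by group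
  have h5 := hab k (k * w * k⁻¹) hkC hw1 hki hw2
  have h6 : k * w * k⁻¹ = w := by
    have e : k * w * k⁻¹ = k⁻¹ * (k * (k * w * k⁻¹)) := by group
    rw [e, h5]
    group
  rw [h6] at hw2
  exact hw2

theorem inv1 (h : Fr K a b c) (hab : Ab K b a) {x w z : G} (hx : Ty K a x) (hxb : x * b = b * x)
    (hw : w ∈ K) (hwb : w * b = b * w) (hxw : x * w * x = w⁻¹) (hz : Ty K a z ∨ Ty K c z)
    (hzb : z * b = b * z) : z * w * z = w⁻¹ := by
  rcases hz with hz | hz
  · exact inv0 h hab hx hxb hw hwb hxw hz hzb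
  · -- `z b` has type `a`
    have h1 : Ty K a (b * z) := h.rot.ty_prod h.rot.ty_a hz hzb.symm
    have h2 : b * z * b = b * (b * z) := by rw [mul_assoc, hzb]
    have h3 := inv0 h hab hx hxb hw hwb hxw h1 h2
    calc z * w * z = (b * b) * z * w * z := by rw [h.bb, one_mul]
      _ = b * (b * z) * w * z := by group
      _ = b * (z * b) * w * z := by rw [hzb]
      _ = b * z * (b * w) * z := by group
      _ = b * z * (w * b) * z := by rw [hwb]
      _ = (b * z) * w * (b * z) := by group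
      _ = w⁻¹ := h3

/-- the same for every involution of type `b` -/
theorem inv2 (h : Fr K a b c) (hab : Ab K b a) {y x w z : G} (hy : Ty K b y) (hx : Ty K a x)
    (hxb : x * y = y * x) (hw : w ∈ K) (hwb : w * y = y * w) (hxw : x * w * x = w⁻¹)
    (hz : Ty K a z ∨ Ty K c z) (hzb : z * y = y * z) : z * w * z = w⁻¹ := by
  obtain ⟨j, hj⟩ := h.rot.ty_cj h.rot.ty_a hy
  set k := (b * y) ^ j with hk
  have hkK : k ∈ K := K.pow_mem (h.rot.ty_mul h.rot.ty_a hy) j
  have hkK' : k⁻¹ ∈ K := K.inv_mem hkK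
  have hb : b = k * y * k⁻¹ := by rw [← hj]; group
  have cm : ∀ t : G, t * y = y * t → (k * t * k⁻¹) * b = b * (k * t * k⁻¹) := by
    intro t ht
    rw [hb]
    calc k * t * k⁻¹ * (k * y * k⁻¹) = k * (t * y) * k⁻¹ := by group
      _ = k * (y * t) * k⁻¹ := by rw [ht]
      _ = _ := by group
  have ee : ∀ t : G, k⁻¹⁻¹ * t * k⁻¹ = k * t * k⁻¹ := by intro t; group
  have h1 : Ty K a (k * x * k⁻¹) := by rw [← ee]; exact h.ty_conj hx hkK'
  have h2 : Ty K a (k * z * k⁻¹) ∨ Ty K c (k * z * k⁻¹) := by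
    rcases hz with hz | hz
    · left; rw [← ee]; exact h.ty_conj hz hkK'
    · right; rw [← ee]; exact h.rot.rot.ty_conj hz hkK'
  have h3 : k * w * k⁻¹ ∈ K := K.mul_mem (K.mul_mem hkK hw) hkK'
  have h4 := inv1 h hab h1 (cm x hxb) h3 (cm w hwb) (by
    calc k * x * k⁻¹ * (k * w * k⁻¹) * (k * x * k⁻¹) = k * (x * w * x) * k⁻¹ := by group
      _ = k * w⁻¹ * k⁻¹ := by rw [hxw]
      _ = _ := by group) h2 (cm z hzb)
  have h5 : k * (z * w * z) * k⁻¹ = k * w⁻¹ * k⁻¹ := by
    calc k * (z * w * z) * k⁻¹ = k * z * k⁻¹ * (k * w * k⁻¹) * (k * z * k⁻¹) := by group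
      _ = (k * w * k⁻¹)⁻¹ := h4
      _ = _ := by group
  exact mul_left_cancel (mul_right_cancel h5)

/-- products of involutions of types `a` and `c` -/
def PP (K : Subgroup G) (a c g : G) : Prop := ∃ x y, Ty K a x ∧ Ty K c y ∧ g = x * y

theorem pp_swap (h : Fr K a b c) {x y : G} (hx : Ty K a x) (hy : Ty K c y) : PP K a c (y * x) := by
  refine ⟨x, x * y * x, hx, ty_xyx h hx hy, ?_⟩
  calc y * x = 1 * y * x := by group
    _ = (x * x) * y * x := by rw [hx.1]
    _ = _ := by group

/-- (i) of the paper -/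
theorem pp_mul (h : Fr K a b c) (hab : Ab K b a) {g v w : G} (hg : PP K a c g) (hv : Ty K a v ∨ Ty K c v)
    (hw : TT K a b c v w) : PP K a c (g * w) := by
  obtain ⟨x, y, hx, hy, rfl⟩ := hg
  set g := x * y with hgdef
  -- the involution of `⟨g⟩`
  have hgb : g * b ∈ K := h.swap'.ty_mul_ab hx hy
  obtain ⟨n, hn⟩ := h.rot.iota hgb
  set y1 := g ^ (2 * n + 1) with hy1
  have hcg : y1 * g = g * y1 := by
    have : Commute g y1 := (Commute.refl g).pow_right _
    exact this.symm
  have hxg : x * g * x = g⁻¹ := mul_inv_self hx.1 hy.1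
  have hxy1 : x * y1 = y1 * x := by
    have h1 : x * y1 * x = y1⁻¹ := conj_inv_pow hx.1 hxg _
    rw [inv_of_sq hn.1] at h1
    calc x * y1 = x * y1 * (x * x) := by rw [hx.1, mul_one]
      _ = (x * y1 * x) * x := by group
      _ = y1 * x := by rw [h1]
  set r := y1 * g with hr
  have hgr : g = y1 * r := by rw [hr, ← mul_assoc, hn.1, one_mul]
  have hrK : r ∈ K := by
    have h1 : y1 * b ∈ K := hn.2
    have e : r = (y1 * b) * (b * (g * b) * b) := by
      calc r = y1 * 1 * g * 1 := by rw [hr]; group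
        _ = y1 * (b * b) * g * (b * b) := by rw [h.bb]
        _ = _ := by group
    rw [e]
    exact K.mul_mem h1 (h.cjmem h.bb hgb)
  have hry : r * y1 = y1 * r := by
    calc r * y1 = y1 * (g * y1) := by rw [hr]; group
      _ = y1 * r := by rw [← hcg]
  have hxr : x * r * x = r⁻¹ := by
    calc x * r * x = x * y1 * g * x := by rw [hr]; group
      _ = y1 * (x * g * x) := by rw [hxy1]; group
      _ = y1 * g⁻¹ := by rw [hxg]
      _ = (g * y1⁻¹)⁻¹ := by group
      _ = (g * y1)⁻¹ := by rw [inv_of_sq hn.1]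
      _ = r⁻¹ := by rw [← hcg]
  -- every perpendicular involution of `y1` inverts `g`
  have hinv : ∀ z, (Ty K a z ∨ Ty K c z) → z * y1 = y1 * z → z * g * z = g⁻¹ := by
    intro z hz hzy
    have h1 := inv2 h hab hn hx hxy1 hrK hry hxr hz hzy
    calc z * g * z = z * (y1 * r) * z := by rw [← hgr]
      _ = (z * y1) * r * z := by group
      _ = y1 * (z * r * z) := by rw [hzy]; group
      _ = y1 * r⁻¹ := by rw [h1]
      _ = (r * y1⁻¹)⁻¹ := by group
      _ = (r * y1)⁻¹ := by rw [inv_of_sq hn.1]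
      _ = (y1 * r)⁻¹ := by rw [hry]
      _ = g⁻¹ := by rw [← hgr]
  rcases hv with hv | hv
  · -- `v` of type `a`, `z` of type `c`
    obtain ⟨m, hz, hzv, hzy⟩ := h.perp hv hn
    set z := (v * y1) ^ m with hzd
    have h1 := hinv z (Or.inr hz) hzy
    have hne : z ≠ v := by
      intro hh
      rw [hh] at hz
      exact h.swap'.ne_ty hv hz
    have h2 : z * w * z = w⁻¹ := hw.2.2 z (Or.inr (Or.inr hz)) hzv hne
    have h3 : Ty K c (z * w) := h.rot.rot.ty_inv hz hw.1 h2
    have h4 : Ty K a (g * z) := by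
      refine ⟨?_, ?_⟩
      · calc g * z * (g * z) = g * (z * g * z) := by group
          _ = 1 := by rw [h1]; group
      · have e : g * z * a = (g * b) * (b * (z * c) * b) := by
          calc g * z * a = g * 1 * z * (c * b) := by rw [h.cb]; group
            _ = g * (b * b) * z * (c * b) := by rw [h.bb]
            _ = _ := by group
        rw [e]
        exact K.mul_mem hgb (h.cjmem h.bb hz.2)
    refine ⟨g * z, z * w, h4, h3, ?_⟩
    calc g * w = g * 1 * w := by group
      _ = g * (z * z) * w := by rw [hz.1]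
      _ = _ := by group
  · -- `v` of type `c`, `z` of type `a`
    obtain ⟨m, hz, hzv, hzy⟩ := h.rot.rot.swap'.perp hv hn
    set z := (v * y1) ^ m with hzd
    have h1 := hinv z (Or.inl hz) hzy
    have hne : z ≠ v := by
      intro hh
      rw [hh] at hz
      exact h.swap'.ne_ty hz hv
    have h2 : z * w * z = w⁻¹ := hw.2.2 z (Or.inl hz) hzv hne
    have h3 : Ty K a (z * w) := h.ty_inv hz hw.1 h2
    have h4 : Ty K c (g * z) := by
      refine ⟨?_, ?_⟩
      · calc g * z * (g * z) = g * (z * g * z) := by group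
          _ = 1 := by rw [h1]; group
      · have e : g * z * c = (g * b) * (b * (z * a) * b) := by
          calc g * z * c = g * 1 * z * (a * b) := by rw [h.ab]; group
            _ = g * (b * b) * z * (a * b) := by rw [h.bb]
            _ = _ := by group
        rw [e]
        exact K.mul_mem hgb (h.cjmem h.bb hz.2)
    have e : g * w = (g * z) * (z * w) := by
      calc g * w = g * 1 * w := by group
        _ = g * (z * z) * w := by rw [hz.1]
        _ = _ := by group
    rw [e]
    exact pp_swap h h3 h4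

theorem tt_inv {v w : G} (hw : TT K a b c v w) : TT K a b c v w⁻¹ := by
  refine ⟨K.inv_mem hw.1, ?_, fun y h1 h2 h3 => ?_⟩
  · have : Commute w v := hw.2.1
    exact this.inv_left
  · have h4 := hw.2.2 y h1 h2 h3
    have hy : y * y = 1 := by
      rcases h1 with k | k | k <;> exact k.1
    calc y * w⁻¹ * y = (y⁻¹ * w * y⁻¹)⁻¹ := by group
      _ = (y * w * y)⁻¹ := by rw [inv_of_sq hy]
      _ = w⁻¹⁻¹ := by rw [h4]

end Uu

open Uu

theorem uu : UuS.{u} := by
  intro G _ K a b c h hab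
  have pa : Pr K a b c a := pr_z h h.aa rfl h.cab h.cac
  have pb : Pr K a b c b := pr_z h h.bb h.cab.symm rfl h.cbc
  have pa' : Pr K a b c a⁻¹ := by rw [inv_of_sq h.aa]; exact pa
  have pb' : Pr K a b c b⁻¹ := by rw [inv_of_sq h.bb]; exact pb
  have hle : UT K a b c ≤ K := by
    unfold UT
    rw [Subgroup.closure_le]
    rintro w ⟨v, -, hw⟩
    exact hw.1
  refine ⟨hle, ⟨fun w hw => ?_, fun w hw => ?_⟩, fun k hk w hw => ?_, fun w hw ha hb => ?_⟩
  · have := ut_conj h pa pa' hw
    rwa [inv_of_sq h.aa] at this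
  · have := ut_conj h pb pb' hw
    rwa [inv_of_sq h.bb] at this
  · exact ut_conj h (pr_K h hk) (pr_K h (K.inv_mem hk)) hw
  · -- all `g w`, `g ∈ I_a I_c`, lie in `I_a I_c`
    have hP : ∀ w ∈ UT K a b c, ∀ g, PP K a c g → PP K a c (g * w) := by
      intro w hw
      unfold UT at hw
      induction hw using Subgroup.closure_induction_right with
      | one => intro g hg; rw [mul_one]; exact hg
      | mul_right x _ y hy ih =>
        intro g hg
        obtain ⟨v, hv, hy⟩ := hy
        rw [← mul_assoc]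
        exact pp_mul h hab (ih g hg) hv hy
      | mul_inv_cancel x _ y hy ih =>
        intro g hg
        obtain ⟨v, hv, hy⟩ := hy
        rw [← mul_assoc]
        exact pp_mul h hab (ih g hg) hv (tt_inv hy)
    obtain ⟨x, y, hx, hy, he⟩ := hP w hw b ⟨a, c, h.ty_a, h.rot.rot.ty_a, h.ac.symm⟩
    have hxg : x * (b * w) * x = (b * w)⁻¹ := by
      rw [he]
      exact mul_inv_self hx.1 hy.1
    obtain ⟨n, hn⟩ := h.odd w (hle hw)
    have hcb : Commute b w := hb.symm
    have hpow : (b * w) ^ (2 * n + 1) = b := by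
      rw [hcb.mul_pow, hn, mul_one, pow_succ, pow_mul, pow_two, h.bb, one_pow, one_mul]
    have hxb : x * b * x = b := by
      have h1 := conj_inv_pow hx.1 hxg (2 * n + 1)
      rw [hpow, inv_of_sq h.bb] at h1
      exact h1
    have hxw : x * w * x = w⁻¹ := by
      calc x * w * x = x * (b * b) * w * x := by rw [h.bb, mul_one]
        _ = x * b * 1 * (b * w) * x := by group
        _ = x * b * (x * x) * (b * w) * x := by rw [hx.1]
        _ = (x * b * x) * (x * (b * w) * x) := by group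
        _ = b * (b * w)⁻¹ := by rw [hxb, hxg]
        _ = b * (w * b)⁻¹ := by rw [hb]
        _ = b * b⁻¹ * w⁻¹ := by group
        _ = w⁻¹ := by group
    exact h.parity h.ty_a hx (hle hw) ha hxw

end Pool.Agent.FourGp.FF
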