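import Pool.Agent.Lib.MP_fb3619_al.FF.Sig
import Pool.Agent.Lib.MP_fb3619_al.FF.Ppp
import Pool.Agent.Lib.MP_fb3619_al.FF.Seq
import Pool.Agent.Lib.MP_fb3619_al.FF.Shu
import Pool.Agent.Lib.MP_fb3619_al.FF.Mq
import Pool.Agent.Lib.MP_fb3619_al.FF.Cnt
import Pool.Agent.Lib.MP_fb3619_al.FF.Fct
import Pool.Agent.Lib.MP_fb3619_al.FF.Uu
import Pool.Agent.Lib.MP_fb3619_al.FF.Cs1
import Pool.Agent.Lib.MP_fb3619_al.FF.Cs2
import Pool.Agent.Lib.MP_fb3619_al.FF.Tri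
import Pool.Agent.Lib.MP_fb3619_al.FF.Pt
import Pool.Agent.Lib.MP_fb3619_al.FF.Hnd

/-!
# MP_fb3619_al, board FF: assembly
-/

set_option autoImplicit false

universe u

namespace Pool.Agent.FourGp.FF

theorem fin_fct : FctS.{u} := fct (ppp sig shu seq) mq cnt shu

theorem fin_pt : PtS.{u} := pt fin_fct (cs1 uu mq) (cs2 mq shu) (tri shu)

end Pool.Agent.FourGp.FF
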