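import Pool.Agent.Lib.MP_fb3619_al.FF.Fin
import Pool.Agent.Lib.MP_fb3619_al.FF.Final

/-!
# MP_fb3619_al, board FF: from the setting of the problem to the setting `Fr`
-/

set_option autoImplicit false

universe u

namespace Pool.Agent.FourGp.FF

open Pool.Agent.FourGp.H47 (Odd' inv_of_sq conj_inv_pow mul_inv_self odd_conj comm_of_inv
  mul_inv_self' comm_pow comm_inv conj_comm comm_conj)
open Pool.Agent.FourGp.H99 (LF LF_ext)

theorem chFin (G : Type u) [Group G] (K : Subgroup G) (a b c : G) (h : Fr K a b c)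
    (hP : ChP G K a b c) : LF K :=
  ch shu uu mq (sgs shu (sgm sig shu seq)) G K a b c h hP

theorem u2Fin (G : Type u) [Group G] (K : Subgroup G) (a b c : G) (h : Fr K a b c)
    (hP : UP G K a b c) : LF K :=
  u2 shu uu mq (sgs shu (sgm sig shu seq)) G K a b c h hP

variable {G : Type u} [Group G]

theorem odd_of_noinv (hG : Monoid.IsTorsion G) {N : Subgroup G}
    (hN : ∀ g ∈ N, g ^ 2 = 1 → g = 1) : ∀ k ∈ N, Odd' k := by
  intro k hk
  have hpos : 0 < orderOf k := (hG k).orderOf_pos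
  rcases Nat.even_or_odd' (orderOf k) with ⟨n, hn | hn⟩
  · exfalso
    have h1 : (k ^ n) ^ 2 = 1 := by
      rw [← pow_mul, mul_comm, ← hn, pow_orderOf_eq_one]
    have h2 := hN _ (N.pow_mem hk n) h1
    have h3 := orderOf_dvd_of_pow_eq_one h2
    have h4 : 0 < n := by omega
    have h5 := Nat.le_of_dvd h4 h3
    omega
  · exact ⟨n, by rw [← hn, pow_orderOf_eq_one]⟩

theorem bridge (hG : Monoid.IsTorsion G) (R : Subgroup G) (hR4 : Nat.card R = 4)
    (hR2 : ∀ r ∈ R, r ^ 2 = 1) (N : Subgroup G) [hNn : N.Normal]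
    (hN : ∀ g ∈ N, g ^ 2 = 1 → g = 1) {t : G} (ht : t ∈ R) (ht1 : t ≠ 1) :
    ∃ a ∈ R, ∃ b ∈ R, a ≠ 1 ∧ b ≠ 1 ∧ a ≠ t ∧ b ≠ t ∧ Fr N a b t ∧
      N ⊓ Subgroup.centralizer (R : Set G) = Fx N a b := by
  have hRR : ∀ r ∈ R, r * r = 1 := fun r hr => by rw [← pow_two]; exact hR2 r hr
  obtain ⟨r, hr, hr1, hrt⟩ : ∃ r ∈ R, r ≠ 1 ∧ r ≠ t := by
    by_contra hne
    push Not at hne
    classical
    have hsub : (R : Set G) ⊆ (({1, t} : Finset G) : Set G) := by
      intro x hx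
      by_cases hx1 : x = 1
      · simp [hx1]
      · simp [hne x hx hx1]
    have h1 := Set.ncard_le_ncard hsub (Finset.finite_toSet _)
    rw [Set.ncard_coe_finset] at h1
    have h2 : (R : Set G).ncard = Nat.card R := rfl
    have h3 := Finset.card_le_two (a := (1 : G)) (b := t)
    rw [h2, hR4] at h1
    omega
  have hrr := hRR r hr
  have htt := hRR t ht
  have hs : r * t ∈ R := R.mul_mem hr ht
  have hs1 : r * t ≠ 1 := by
    intro e
    apply hrt
    calc r = r * (t * t) := by rw [htt, mul_one]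
      _ = (r * t) * t := by group
      _ = t := by rw [e, one_mul]
  have hst : r * t ≠ t := fun e => hr1 (mul_eq_right.1 e)
  obtain ⟨-, -, hall⟩ := Pool.Agent.FourGp.H47.fourR R hR4 hRR hr ht hr1 ht1 hrt
  have hfr : Fr N r (r * t) t :=
    { nor := hNn
      odd := odd_of_noinv hG hN
      aa := hrr
      bb := hRR _ hs
      cc := htt
      ab := by rw [← mul_assoc, hrr, one_mul]
      na := fun h => hr1 (hN r h (hR2 r hr))
      nb := fun h => hs1 (hN _ h (hR2 _ hs))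
      nc := fun h => ht1 (hN t h (hR2 t ht)) }
  refine ⟨r, hr, r * t, hs, hr1, hs1, hrt, hst, hfr, ?_⟩
  ext g
  rw [Subgroup.mem_inf, mem_Fx, Subgroup.mem_centralizer_iff]
  constructor
  · rintro ⟨h1, h2⟩
    exact ⟨h1, (h2 r hr).symm, (h2 _ hs).symm⟩
  · rintro ⟨h1, h2, h3⟩
    refine ⟨h1, fun x hx => ?_⟩
    rcases hall x hx with rfl | rfl | rfl | rfl
    · group
    · exact h3.symm
    · exact h2.symm
    · exact (hfr.comm3 h2 h3).symm

theorem concl (N : Subgroup G) [N.Normal] (h : LF N) : (∀ H ≤ N, H.FG → Finite H) ∧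
    ((∀ H : Subgroup (G ⧸ N), H.FG → Finite H) → ∀ H : Subgroup G, H.FG → Finite H) := by
  refine ⟨?_, fun hQ => LF_ext N h hQ⟩
  intro H hH hfg
  have e := Subgroup.subgroupOfEquivOfLe hH
  have : Group.FG H := (Group.fg_iff_subgroup_fg _).2 hfg
  have : Group.FG (H.subgroupOf N) :=
    Group.fg_of_surjective (f := e.symm.toMonoidHom) e.symm.surjective
  have := h _ ((Group.fg_iff_subgroup_fg _).1 this)
  exact Finite.of_equiv _ e.toEquiv

theorem resCh (hG : Monoid.IsTorsion G) (R : Subgroup G)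
    (hR4 : Nat.card R = 4) (hR2 : ∀ r ∈ R, r ^ 2 = 1) (N : Subgroup G) [N.Normal]
    (hN : ∀ g ∈ N, g ^ 2 = 1 → g = 1)
    (hfin : Finite ↥(N ⊓ Subgroup.centralizer (R : Set G)))
    (hch : ∀ A B : Subgroup ↥(N ⊓ Subgroup.centralizer (R : Set G)),
      A.Normal → B.Normal → A ≤ B ∨ B ≤ A) :
    (∀ H ≤ N, H.FG → Finite H) ∧
      ((∀ H : Subgroup (G ⧸ N), H.FG → Finite H) → ∀ H : Subgroup G, H.FG → Finite H) := by
  obtain ⟨t, ht, ht1⟩ : ∃ t ∈ R, t ≠ 1 := by
    by_contra hne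
    push Not at hne
    have : R = ⊥ := (Subgroup.eq_bot_iff_forall _).2 hne
    rw [this] at hR4
    simp at hR4
  obtain ⟨a, ha, b, hb, -, -, -, -, hfr, hF⟩ := bridge hG R hR4 hR2 N hN ht ht1
  refine concl N (chFin G N a b t hfr ?_)
  rw [hF] at hfin hch
  refine ⟨Set.toFinite _, ?_⟩
  intro A B hA hB hAn hBn
  have hn : ∀ C : Subgroup G, C ≤ Fx N a b → (∀ w ∈ Fx N a b, ∀ x ∈ C, w⁻¹ * x * w ∈ C) →
      (C.subgroupOf (Fx N a b)).Normal := by
    intro C _ h
    refine ⟨fun x hx g => ?_⟩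
    rw [Subgroup.mem_subgroupOf] at hx ⊢
    have := h (g⁻¹ : G) (Subgroup.inv_mem _ g.2) _ hx
    rw [inv_inv] at this
    exact this
  have lift : ∀ C D : Subgroup G, C ≤ Fx N a b →
      C.subgroupOf (Fx N a b) ≤ D.subgroupOf (Fx N a b) → C ≤ D := by
    intro C D hC h x hx
    have h1 : (⟨x, hC hx⟩ : Fx N a b) ∈ C.subgroupOf (Fx N a b) := Subgroup.mem_subgroupOf.2 hx
    exact Subgroup.mem_subgroupOf.1 (h h1)
  rcases hch _ _ (hn A hA hAn) (hn B hB hBn) with h | h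
  · exact Or.inl (lift A B hA h)
  · exact Or.inr (lift B A hB h)

theorem inv_t {N : Subgroup G} {a b t x : G} (h : Fr N a b t) (hx : x ∈ Cz N a)
    (hbx : b * x * b = x⁻¹) : t⁻¹ * x * t = x⁻¹ := by
  have c1 : Commute x a := (mem_Cz.1 hx).2
  rw [inv_of_sq h.cc]
  calc t * x * t = (a * b) * x * (b * a) := by rw [h.ab, h.ba]
    _ = a * (b * x * b) * a := by group
    _ = a * x⁻¹ * a := by rw [hbx]
    _ = x⁻¹ * (a * a) := by rw [← c1.inv_left.eq]; group
    _ = x⁻¹ := by rw [h.aa, mul_one]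

theorem resU2 (hG : Monoid.IsTorsion G) (R : Subgroup G)
    (hR4 : Nat.card R = 4) (hR2 : ∀ r ∈ R, r ^ 2 = 1) (N : Subgroup G) [N.Normal]
    (hN : ∀ g ∈ N, g ^ 2 = 1 → g = 1)
    (hfin : Finite ↥(N ⊓ Subgroup.centralizer (R : Set G))) (t : G) (ht : t ∈ R) (ht1 : t ≠ 1)
    (hr : ∀ r ∈ R, r ≠ 1 → r ≠ t →
      (∀ f ∈ N ⊓ Subgroup.centralizer (R : Set G),
        {x | ∃ g ∈ N ⊓ Subgroup.centralizer {r}, x = g⁻¹ * f * g}.Finite) ∨
      ∀ x ∈ N ⊓ Subgroup.centralizer {r}, ∀ y ∈ N ⊓ Subgroup.centralizer {r},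
        t⁻¹ * x * t = x⁻¹ → t⁻¹ * y * t = y⁻¹ → x * y = y * x) :
    (∀ H ≤ N, H.FG → Finite H) ∧
      ((∀ H : Subgroup (G ⧸ N), H.FG → Finite H) → ∀ H : Subgroup G, H.FG → Finite H) := by
  obtain ⟨a, ha, b, hb, ha1, hb1, hat, hbt, hfr, hF⟩ := bridge hG R hR4 hR2 N hN ht ht1
  refine concl N (u2Fin G N a b t hfr ?_)
  rw [hF] at hfin hr
  refine ⟨Set.toFinite _, ?_, ?_⟩
  · rcases hr a ha ha1 hat with h | h
    · left
      intro f hf
      exact fi_of_finite (h f hf)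
    · right
      intro x y hx hy hbx hby
      exact h x hx y hy (inv_t hfr hx hbx) (inv_t hfr hy hby)
  · rcases hr b hb hb1 hbt with h | h
    · left
      intro f hf
      exact fi_of_finite (h f hf)
    · right
      intro x y hx hy hbx hby
      exact h x hx y hy (inv_t hfr.swap hx hbx) (inv_t hfr.swap hy hby)

end Pool.Agent.FourGp.FF
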