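import Pool.Agent.Lib.MP_fb3619_al.FF.Util

/-!
# MP_fb3619_al, board FF, module TRI: the three possibilities for one type (paper 6)
-/

set_option autoImplicit false

universe u

namespace Pool.Agent.FourGp.FF

open Pool.Agent.FourGp.H47 (Odd' inv_of_sq conj_inv_pow mul_inv_self odd_conj comm_of_inv
  mul_inv_self' comm_pow comm_inv conj_comm comm_conj)

variable {G : Type u} [Group G]

namespace Tri

theorem fi_mul {D : Subgroup G} {x y : G} (hx : fi D x) (hy : fi D y) : fi D (x * y) := by
  unfold fi at *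
  have h1 := Subgroup.relIndex_inf_ne_zero hx hy
  refine fun h2 => h1 ?_
  have h3 : Subgroup.centralizer {x} ⊓ Subgroup.centralizer {y} ≤ Subgroup.centralizer {x * y} := by
    intro g hg
    obtain ⟨hg1, hg2⟩ := Subgroup.mem_inf.1 hg
    rw [Subgroup.mem_centralizer_singleton_iff] at hg1 hg2 ⊢
    have c1 : Commute g x := hg1
    have c2 : Commute g y := hg2
    exact (c1.mul_right c2).eq
  exact Subgroup.relIndex_eq_zero_of_le_left h3 h2

theorem fi_inv1 {D : Subgroup G} {x : G} (hx : fi D x) : fi D x⁻¹ := by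
  unfold fi at *
  refine fun h2 => hx ?_
  have h3 : Subgroup.centralizer {x} ≤ Subgroup.centralizer {x⁻¹} := by
    intro g hg1
    rw [Subgroup.mem_centralizer_singleton_iff] at *
    have c1 : Commute g x := hg1
    exact c1.inv_right.eq
  exact Subgroup.relIndex_eq_zero_of_le_left h3 h2

theorem fi_zpow {D : Subgroup G} {x : G} (hx : fi D x) (n : ℤ) : fi D (x ^ n) := by
  unfold fi at *
  refine fun h2 => hx ?_
  have h3 : Subgroup.centralizer {x} ≤ Subgroup.centralizer {x ^ n} := by
    intro g hg1
    rw [Subgroup.mem_centralizer_singleton_iff] at *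
    have c1 : Commute g x := hg1
    exact (c1.zpow_right n).eq
  exact Subgroup.relIndex_eq_zero_of_le_left h3 h2

/-- In a subgroup of prime order every `f ≠ 1` generates. -/
theorem gen {F : Subgroup G} (hp : (Nat.card F).Prime) {f g : G} (hf : f ∈ F) (hf1 : f ≠ 1)
    (hg : g ∈ F) : ∃ n : ℤ, f ^ n = g := by
  have : Fact (Nat.card F).Prime := ⟨hp⟩
  have h1 : (⟨g, hg⟩ : F) ∈ Subgroup.zpowers (⟨f, hf⟩ : F) := by
    refine mem_zpowers_of_prime_card rfl ?_
    intro h2
    exact hf1 (congrArg Subtype.val h2)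
  obtain ⟨n, hn⟩ := Subgroup.mem_zpowers_iff.1 h1
  exact ⟨n, by have := congrArg Subtype.val hn; simpa using this⟩

variable {K : Subgroup G} {a b c : G}

theorem mulK (h : Fr K a b c) {y : G} (hy : Ty K a y) : a * y ∈ K := by
  have h1 := K.inv_mem hy.2
  rwa [mul_inv_rev, inv_of_sq h.aa, inv_of_sq hy.1] at h1

/-- An involution of the type of `a` which commutes with `b` is a conjugate of `a` under `C_K(b)`. -/
theorem conj_of (h : Fr K a b c) {y : G} (hy : Ty K a y) (hyb : y * b = b * y) :
    ∃ g ∈ Cz K b, a * g * a = g⁻¹ ∧ g⁻¹ * a * g = y := by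
  obtain ⟨j, hj⟩ := h.ty_cj h.ty_a hy
  refine ⟨(a * y) ^ j, mem_Cz.2 ⟨K.pow_mem (mulK h hy) j, comm_pow h.cab hyb j⟩,
    conj_inv_pow h.aa (mul_inv_self h.aa hy.1) j, hj⟩

/-- Criterion for `T_b`. -/
theorem tt_of (h : Fr K a b c) {u : G} (hu : u ∈ Cz K b) (hi : a * u * a = u⁻¹)
    (hc : ∀ g ∈ Cz K b, a * g * a = g⁻¹ → g * u = u * g) : TT K a b c b u := by
  rw [mem_Cz] at hu
  have key : ∀ y, Ty K a y → y * b = b * y → y * u * y = u⁻¹ := by
    intro y hy hyb
    obtain ⟨g, hg, hgi, rfl⟩ := conj_of h hy hyb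
    have h1 := hc g hg hgi
    have c1 : Commute g u := h1
    calc g⁻¹ * a * g * u * (g⁻¹ * a * g) = g⁻¹ * a * (g * u) * g⁻¹ * a * g := by group
      _ = g⁻¹ * (a * u * a) * g := by rw [h1]; group
      _ = g⁻¹ * (u⁻¹ * g) := by rw [hi]; group
      _ = g⁻¹ * (g * u⁻¹) := by rw [c1.inv_right.eq]
      _ = u⁻¹ := by group
  refine ⟨hu.1, hu.2, ?_⟩
  rintro y (hy | hy | hy) hyb hne
  · exact key y hy hyb
  · exact absurd (h.rot.ty_eq hy h.rot.ty_a hyb) hne
  · -- `y b` has the type of `a`
    have h1 : Ty K a (y * b) := h.rot.swap.ty_prod hy h.rot.ty_a hyb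
    have h2 : (y * b) * b = b * (y * b) := by rw [← mul_assoc, hyb]
    have h3 := key _ h1 h2
    calc y * u * y = y * (u * (b * b)) * y := by rw [h.bb, mul_one]
      _ = y * (u * b) * (b * y) := by group
      _ = y * (b * u) * (y * b) := by rw [hu.2, hyb]
      _ = (y * b) * u * (y * b) := by group
      _ = u⁻¹ := h3

end Tri

open Tri

theorem tri (hS : ShuS.{u}) : TriS.{u} := by
  intro G _ K a b c h hp
  have hFfin : (Fx K a b : Set G).Finite := by
    have : Finite (Fx K a b) := Nat.finite_of_card_ne_zero hp.ne_zero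
    exact Set.toFinite _
  have hainv : ∀ d ∈ Cz K b, a * d * a ∈ Cz K b := fun d hd => h.cz_inv h.aa h.cab hd
  have hF' : ∀ w, w ∈ Cz K b → w * a = a * w → w ∈ Fx K a b := by
    intro w hw hwa
    rw [mem_Cz] at hw
    exact mem_Fx.2 ⟨hw.1, hwa, hw.2⟩
  have hFB : ∀ w ∈ Fx K a b, w ∈ Cz K b ∧ w * a = a * w := by
    intro w hw
    rw [mem_Fx] at hw
    exact ⟨mem_Cz.2 ⟨hw.1, hw.2.2⟩, hw.2.1⟩
  obtain ⟨s1, s2, -⟩ := hS G K a b c h (Cz K b) a cz_le h.aa hainv (hFfin.subset fun w hw => hF' w hw.1 hw.2)
  by_cases hcase : ∀ f ∈ Fx K a b, fi (Cz K b) f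
  swap
  · -- `F ∩ Δ = 1`
    left
    have hno : ∀ f ∈ Fx K a b, fi (Cz K b) f → f = 1 := by
      intro f hf hfi
      by_contra hf1
      apply hcase
      intro g hg
      obtain ⟨n, rfl⟩ := gen hp hf hf1 hg
      exact fi_zpow hfi n
    have hab : Ab K b a := by
      intro u v hu hv hui hvi
      have huv : fi (Cz K b) (u * v) := fi_mul (s1 u hu hui) (s1 v hv hvi)
      obtain ⟨w, s, hw, hs, e, hwa, hsi⟩ := h.dec cz_le h.aa hainv ((Cz K b).mul_mem hu hv)
      have hw1 : w = 1 := by
        refine hno w (hF' w hw hwa) ?_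
        have e1 : w = (u * v) * s⁻¹ := by rw [e]; group
        rw [e1]
        exact fi_mul huv (fi_inv1 (s1 s hs hsi))
      rw [hw1, one_mul] at e
      rw [← e] at hsi
      have e2 : a * (u * v) * a = u⁻¹ * v⁻¹ := by
        calc a * (u * v) * a = a * u * 1 * v * a := by group
          _ = a * u * (a * a) * v * a := by rw [h.aa]
          _ = (a * u * a) * (a * v * a) := by group
          _ = _ := by rw [hui, hvi]
      rw [e2] at hsi
      have e3 := congrArg (fun x => x⁻¹) hsi
      simp only [mul_inv_rev, inv_inv] at e3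
      exact e3.symm
    refine ⟨hab, Fx K a b, hFfin, ?_⟩
    intro g hg
    obtain ⟨w, s, hw, hs, e, hwa, hsi⟩ := h.dec cz_le h.aa hainv hg
    refine ⟨w, hF' w hw hwa, s, ?_, e⟩
    exact tt_of h hs hsi fun g hg hgi => hab g s hg hs hgi hsi
  · right
    refine ⟨hcase, ?_⟩
    -- FC
    have hFC : ∀ g ∈ Cz K b, fi (Cz K b) g := by
      intro g hg
      obtain ⟨w, hw, hwa, h1⟩ := s2 g hg
      have e : g = w * (w⁻¹ * g) := by group
      rw [e]
      exact fi_mul (hcase w (hF' w hw hwa)) h1
    by_cases hD : ∃ D₀ : Subgroup G, D₀ ≤ Cz K b ∧ (∀ u ∈ D₀, a * u * a ∈ D₀) ∧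
        D₀.relIndex (Cz K b) ≠ 0 ∧ ∀ f ∈ D₀, f ∈ Fx K a b → f = 1
    · left
      obtain ⟨D₀, hD1, hD2, hD3, hD4⟩ := hD
      have hinv : ∀ u ∈ D₀, a * u * a = u⁻¹ := by
        intro u hu
        obtain ⟨w, s, hw, hs, e, hwa, hsi⟩ := h.dec (hD1.trans cz_le) h.aa hD2 hu
        have hw1 : w = 1 := hD4 w hw (hF' w (hD1 hw) hwa)
        rw [hw1, one_mul] at e
        rw [e]
        exact hsi
      have hcomm : ∀ u ∈ D₀, ∀ v ∈ D₀, u * v = v * u := by
        intro u hu v hv
        have hsi := hinv _ (D₀.mul_mem hu hv)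
        have e2 : a * (u * v) * a = u⁻¹ * v⁻¹ := by
          calc a * (u * v) * a = a * u * 1 * v * a := by group
            _ = a * u * (a * a) * v * a := by rw [h.aa]
            _ = (a * u * a) * (a * v * a) := by group
            _ = _ := by rw [hinv u hu, hinv v hv]
        rw [e2] at hsi
        have e3 := congrArg (fun x => x⁻¹) hsi
        simp only [mul_inv_rev, inv_inv] at e3
        exact e3.symm
      obtain ⟨R, hR1, hR2⟩ := cover_of_relIndex hD3
      -- the central part
      have hZ : (D₀ ⊓ Subgroup.centralizer (R : Set G)).relIndex (Cz K b) ≠ 0 := by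
        refine Subgroup.relIndex_inf_ne_zero hD3 ?_
        have h1 : ∀ R' : Finset G, (∀ r ∈ R', r ∈ Cz K b) →
            (Subgroup.centralizer (R' : Set G)).relIndex (Cz K b) ≠ 0 := by
          classical
          intro R'
          induction R' using Finset.induction_on with
          | empty =>
            intro _
            have e : Subgroup.centralizer ((∅ : Finset G) : Set G) = ⊤ := by
              ext g
              simp [Subgroup.mem_centralizer_iff]
            rw [e, Subgroup.relIndex_top_left]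
            exact one_ne_zero
          | insert r R' _ ih =>
            intro hr
            have h2 := ih fun r' hr' => hr r' (Finset.mem_insert_of_mem hr')
            have h3 := hFC r (hr r (Finset.mem_insert_self _ _))
            have h4 := Subgroup.relIndex_inf_ne_zero h3 h2
            refine fun h5 => h4 (Subgroup.relIndex_eq_zero_of_le_left ?_ h5)
            intro g hg
            obtain ⟨hg1, hg2⟩ := Subgroup.mem_inf.1 hg
            rw [Subgroup.mem_centralizer_singleton_iff] at hg1
            rw [Subgroup.mem_centralizer_iff] at hg2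
            rw [Subgroup.mem_centralizer_iff]
            intro m hm
            rw [Finset.coe_insert, Set.mem_insert_iff] at hm
            rcases hm with rfl | hm
            · exact hg1.symm
            · exact hg2 m hm
        exact h1 R hR1
      have hcen : ∀ u ∈ D₀ ⊓ Subgroup.centralizer (R : Set G), ∀ g ∈ Cz K b, g * u = u * g := by
        intro u hu g hg
        obtain ⟨hu1, hu2⟩ := Subgroup.mem_inf.1 hu
        obtain ⟨r, hr, h1⟩ := hR2 g hg
        rw [Subgroup.mem_centralizer_iff] at hu2
        have c1 : Commute r u := hu2 r hr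
        have c2 : Commute (g * r⁻¹) u := hcomm _ h1 _ hu1
        have c3 := c2.mul_left c1
        have e : g * r⁻¹ * r = g := by group
        rw [e] at c3
        exact c3.eq
      obtain ⟨R', hR1', hR2'⟩ := cover_of_relIndex hZ
      refine ⟨R', R'.finite_toSet, ?_⟩
      intro g hg
      obtain ⟨r, hr, h1⟩ := hR2' g hg
      refine ⟨r, hr, g * r⁻¹, ?_, ?_⟩
      · have h2 := (Subgroup.mem_inf.1 h1).1
        exact tt_of h (hD1 h2) (hinv _ h2) fun g' hg' _ => hcen _ h1 g' hg'
      · rw [hcen _ h1 r (hR1' r hr)]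
        group
    · right
      intro β hβ f hf
      by_contra hne
      apply hD
      refine ⟨Cz K b ⊓ (Subgroup.centralizer {β} ⊓ Subgroup.centralizer {a * β * a}), inf_le_left, ?_, ?_, ?_⟩
      · intro u hu
        obtain ⟨hu1, hu⟩ := Subgroup.mem_inf.1 hu
        obtain ⟨hu2, hu3⟩ := Subgroup.mem_inf.1 hu
        rw [Subgroup.mem_centralizer_singleton_iff] at hu2 hu3
        refine Subgroup.mem_inf.2 ⟨hainv u hu1, Subgroup.mem_inf.2 ⟨?_, ?_⟩⟩
        · rw [Subgroup.mem_centralizer_singleton_iff]
          calc a * u * a * β = a * (u * (a * β * a)) * a := by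
                calc a * u * a * β = a * u * a * β * 1 := by group
                  _ = a * u * a * β * (a * a) := by rw [h.aa]
                  _ = _ := by group
            _ = a * ((a * β * a) * u) * a := by rw [hu3]
            _ = (a * a) * β * (a * u * a) := by group
            _ = β * (a * u * a) := by rw [h.aa, one_mul]
        · rw [Subgroup.mem_centralizer_singleton_iff]
          calc a * u * a * (a * β * a) = a * u * (a * a) * β * a := by group
            _ = a * (u * β) * a := by rw [h.aa]; group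
            _ = a * (β * u) * a := by rw [hu2]
            _ = a * β * 1 * u * a := by group
            _ = a * β * (a * a) * u * a := by rw [h.aa]
            _ = a * β * a * (a * u * a) := by group
      · have h1 : fi (Cz K b) β := hFC β hβ
        have h2 : fi (Cz K b) (a * β * a) := hFC _ (hainv β hβ)
        rw [inf_comm, Subgroup.inf_relIndex_right]
        exact Subgroup.relIndex_inf_ne_zero h1 h2
      · intro g hg hgF
        obtain ⟨hg1, hg⟩ := Subgroup.mem_inf.1 hg
        obtain ⟨hg2, hg3⟩ := Subgroup.mem_inf.1 hg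
        rw [Subgroup.mem_centralizer_singleton_iff] at hg2
        by_contra hg4
        obtain ⟨n, rfl⟩ := gen hp hgF hg4 hf
        have c1 : Commute g β := hg2
        exact hne (c1.zpow_left n).eq

end Pool.Agent.FourGp.FF
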