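import Pool.Agent.Lib.MP_fb3619_al.H47.Frame
import Pool.Agent.Lib.MP_fb3619_al.H99.Loc

/-!
# MP_fb3619_al, board FF: four-groups with finite centralizer, the odd case

`K` is a normal subgroup of odd elements, `a, b, c` the involutions of a four-group outside `K`.
An involution has type `a` if it lies in the coset `K a`.
-/

set_option autoImplicit false

universe u

namespace Pool.Agent.FourGp.FF

open Pool.Agent.FourGp.H47 (Odd' inv_of_sq conj_inv_pow mul_inv_self odd_conj comm_of_inv
  mul_inv_self' comm_pow comm_inv conj_comm comm_conj)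

variable {G : Type u} [Group G]

/-- The setting: `K` normal, all its elements have odd order, `{1, a, b, c}` is a four-group which
meets `K` trivially. -/
structure Fr (K : Subgroup G) (a b c : G) : Prop where
  nor : K.Normal
  odd : ∀ k ∈ K, Odd' k
  aa : a * a = 1
  bb : b * b = 1
  cc : c * c = 1
  ab : a * b = c
  na : a ∉ K
  nb : b ∉ K
  nc : c ∉ K

/-- `x` is an involution of the type of `a`. -/
def Ty (K : Subgroup G) (a x : G) : Prop := x * x = 1 ∧ x * a ∈ K

/-- `C_K(x)` -/
def Cz (K : Subgroup G) (x : G) : Subgroup G := K ⊓ Subgroup.centralizer {x}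

/-- `C_K(x) ∩ C_K(y)` -/
def Fx (K : Subgroup G) (x y : G) : Subgroup G := K ⊓ Subgroup.centralizer {x, y}

/-- The centralizer of `s` has finite index in `D` (more precisely: meets `D` in a subgroup of
finite index of `D`). -/
def fi (D : Subgroup G) (s : G) : Prop := (Subgroup.centralizer {s}).relIndex D ≠ 0

/-- `T_v`: the elements of `C_K(v)` which are inverted by every involution (of one of the three
types) which commutes with `v` and is different from `v`. -/
def TT (K : Subgroup G) (a b c v u : G) : Prop := u ∈ K ∧ u * v = v * u ∧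
  ∀ y, (Ty K a y ∨ Ty K b y ∨ Ty K c y) → y * v = v * y → y ≠ v → y * u * y = u⁻¹

theorem mem_Cz {K : Subgroup G} {x g : G} : g ∈ Cz K x ↔ g ∈ K ∧ g * x = x * g := by
  unfold Cz
  rw [Subgroup.mem_inf, Subgroup.mem_centralizer_singleton_iff]

theorem mem_Fx {K : Subgroup G} {x y g : G} :
    g ∈ Fx K x y ↔ g ∈ K ∧ g * x = x * g ∧ g * y = y * g := by
  unfold Fx
  rw [Subgroup.mem_inf, Subgroup.mem_centralizer_iff]
  constructor
  · rintro ⟨h1, h2⟩
    exact ⟨h1, (h2 x (by simp)).symm, (h2 y (by simp)).symm⟩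
  · rintro ⟨h1, h2, h3⟩
    refine ⟨h1, ?_⟩
    intro m hm
    simp only [Set.mem_insert_iff, Set.mem_singleton_iff] at hm
    rcases hm with rfl | rfl
    · exact h2.symm
    · exact h3.symm

variable {K : Subgroup G} {a b c : G}

namespace Fr

theorem ba (h : Fr K a b c) : b * a = c := by
  have h1 : c * c = 1 := h.cc
  have h2 : a * b * (a * b) = 1 := by rw [h.ab]; exact h1
  calc b * a = (a * a) * (b * a) * (b * b) := by rw [h.aa, h.bb]; group
    _ = a * (a * b * (a * b)) * b := by group
    _ = a * b := by rw [h2]; group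
    _ = c := h.ab

theorem bc (h : Fr K a b c) : b * c = a := by
  rw [← h.ba, ← mul_assoc, h.bb, one_mul]

theorem cb (h : Fr K a b c) : c * b = a := by
  rw [← h.ab, mul_assoc, h.bb, mul_one]

theorem ca (h : Fr K a b c) : c * a = b := by
  rw [← h.ba, mul_assoc, h.aa, mul_one]

theorem ac (h : Fr K a b c) : a * c = b := by
  rw [← h.ab, ← mul_assoc, h.aa, one_mul]

theorem cab (h : Fr K a b c) : a * b = b * a := by rw [h.ab, h.ba]
theorem cbc (h : Fr K a b c) : b * c = c * b := by rw [h.bc, h.cb]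
theorem cac (h : Fr K a b c) : a * c = c * a := by rw [h.ac, h.ca]

theorem rot (h : Fr K a b c) : Fr K b c a where
  nor := h.nor
  odd := h.odd
  aa := h.bb
  bb := h.cc
  cc := h.aa
  ab := h.bc
  na := h.nb
  nb := h.nc
  nc := h.na

theorem swap (h : Fr K a b c) : Fr K b a c where
  nor := h.nor
  odd := h.odd
  aa := h.bb
  bb := h.aa
  cc := h.cc
  ab := h.ba
  na := h.nb
  nb := h.na
  nc := h.nc

/-- `(a, b, c) → (a, c, b)` -/
theorem swap' (h : Fr K a b c) : Fr K a c b := h.swap.rot

/-- conjugation by an involution -/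
theorem cjmem (h : Fr K a b c) {z k : G} (hz : z * z = 1) (hk : k ∈ K) : z * k * z ∈ K := by
  have := h.nor.conj_mem k hk z
  rwa [inv_of_sq hz] at this

theorem cjk (h : Fr K a b c) {g k : G} (hk : k ∈ K) : g⁻¹ * k * g ∈ K := by
  have := h.nor.conj_mem k hk g⁻¹
  rwa [inv_inv] at this

/-- The frame can be conjugated by any element of `G`. -/
theorem conj (h : Fr K a b c) (g : G) : Fr K (g⁻¹ * a * g) (g⁻¹ * b * g) (g⁻¹ * c * g) where
  nor := h.nor
  odd := h.odd
  aa := by
    calc g⁻¹ * a * g * (g⁻¹ * a * g) = g⁻¹ * (a * a) * g := by group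
      _ = 1 := by rw [h.aa]; group
  bb := by
    calc g⁻¹ * b * g * (g⁻¹ * b * g) = g⁻¹ * (b * b) * g := by group
      _ = 1 := by rw [h.bb]; group
  cc := by
    calc g⁻¹ * c * g * (g⁻¹ * c * g) = g⁻¹ * (c * c) * g := by group
      _ = 1 := by rw [h.cc]; group
  ab := by
    calc g⁻¹ * a * g * (g⁻¹ * b * g) = g⁻¹ * (a * b) * g := by group
      _ = _ := by rw [h.ab]
  na := fun hm => h.na (by
    have := h.nor.conj_mem _ hm g
    have e : g * (g⁻¹ * a * g) * g⁻¹ = a := by group
    rwa [e] at this)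
  nb := fun hm => h.nb (by
    have := h.nor.conj_mem _ hm g
    have e : g * (g⁻¹ * b * g) * g⁻¹ = b := by group
    rwa [e] at this)
  nc := fun hm => h.nc (by
    have := h.nor.conj_mem _ hm g
    have e : g * (g⁻¹ * c * g) * g⁻¹ = c := by group
    rwa [e] at this)

end Fr

/-! ### Types -/

namespace Fr

theorem ty_a (h : Fr K a b c) : Ty K a a := ⟨h.aa, by rw [h.aa]; exact K.one_mem⟩

theorem ty_not_mem (h : Fr K a b c) {x : G} (hx : Ty K a x) : x ∉ K := by
  intro hm
  apply h.na
  have := K.mul_mem (K.inv_mem hm) hx.2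
  have e : x⁻¹ * (x * a) = a := by group
  rwa [e] at this

theorem ty_conj (h : Fr K a b c) {x k : G} (hx : Ty K a x) (hk : k ∈ K) :
    Ty K a (k⁻¹ * x * k) := by
  refine ⟨?_, ?_⟩
  · calc k⁻¹ * x * k * (k⁻¹ * x * k) = k⁻¹ * (x * x) * k := by group
      _ = 1 := by rw [hx.1]; group
  · have h1 : a * k * a ∈ K := h.cjmem h.aa hk
    have e : k⁻¹ * x * k * a = k⁻¹ * (x * a) * (a * k * a) := by
      calc k⁻¹ * x * k * a = k⁻¹ * x * 1 * k * a := by group
        _ = k⁻¹ * x * (a * a) * k * a := by rw [h.aa]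
        _ = k⁻¹ * (x * a) * (a * k * a) := by group
    rw [e]
    exact K.mul_mem (K.mul_mem (K.inv_mem hk) hx.2) h1

theorem ty_mul (h : Fr K a b c) {x y : G} (hx : Ty K a x) (hy : Ty K a y) : x * y ∈ K := by
  have e : x * y = (x * a) * (y * a)⁻¹ := by
    have h1 : (y * a)⁻¹ = a * y := by
      rw [mul_inv_rev, inv_of_sq h.aa, inv_of_sq hy.1]
    rw [h1]
    calc x * y = x * 1 * y := by group
      _ = x * (a * a) * y := by rw [h.aa]
      _ = _ := by group
  rw [e]
  exact K.mul_mem hx.2 (K.inv_mem hy.2)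

/-- Two involutions of the same type are conjugate by a power of their product. -/
theorem ty_cj (h : Fr K a b c) {x y : G} (hx : Ty K a x) (hy : Ty K a y) :
    ∃ j : ℕ, ((x * y) ^ j)⁻¹ * x * (x * y) ^ j = y :=
  odd_conj hx.1 hy.1 (h.odd _ (h.ty_mul hx hy))

/-- An involution times an inverted element of `K` is an involution of the same type. -/
theorem ty_inv (h : Fr K a b c) {x k : G} (hx : Ty K a x) (hk : k ∈ K) (hi : x * k * x = k⁻¹) :
    Ty K a (x * k) := by
  refine ⟨?_, ?_⟩
  · calc x * k * (x * k) = (x * k * x) * k := by group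
      _ = 1 := by rw [hi]; group
  · have e : x * k * a = (x * k * x) * (x * a) := by
      calc x * k * a = x * k * 1 * a := by group
        _ = x * k * (x * x) * a := by rw [hx.1]
        _ = _ := by group
    rw [e, hi]
    exact K.mul_mem (K.inv_mem hk) hx.2

/-- Commuting involutions of the same type are equal. -/
theorem ty_eq (h : Fr K a b c) {x y : G} (hx : Ty K a x) (hy : Ty K a y) (hc : x * y = y * x) :
    x = y := by
  have h1 := h.odd _ (h.ty_mul hx hy)
  have h2 : x * y * (x * y) = 1 := by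
    calc x * y * (x * y) = x * (y * x) * y := by group
      _ = (x * x) * (y * y) := by rw [← hc]; group
      _ = 1 := by rw [hx.1, hy.1, one_mul]
  have h3 := h1.eq_one h2
  calc x = (x * y) * y := by rw [mul_assoc, hy.1, mul_one]
    _ = y := by rw [h3, one_mul]

theorem ty_mul_ab (h : Fr K a b c) {x y : G} (hx : Ty K a x) (hy : Ty K b y) :
    x * y * c ∈ K := by
  have h1 : a * (y * b) * a ∈ K := h.cjmem h.aa hy.2
  have e : x * y * c = (x * a) * (a * (y * b) * a) := by
    calc x * y * c = x * 1 * y * c := by group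
      _ = x * (a * a) * y * (b * a) := by rw [h.aa, h.ba]
      _ = _ := by group
  rw [e]
  exact K.mul_mem hx.2 h1

/-- The product of commuting involutions of types `a`, `b` has type `c`. -/
theorem ty_prod (h : Fr K a b c) {x y : G} (hx : Ty K a x) (hy : Ty K b y)
    (hc : x * y = y * x) : Ty K c (x * y) := by
  refine ⟨?_, h.ty_mul_ab hx hy⟩
  calc x * y * (x * y) = x * (y * x) * y := by group
    _ = (x * x) * (y * y) := by rw [← hc]; group
    _ = 1 := by rw [hx.1, hy.1, one_mul]

theorem ne_ty (h : Fr K a b c) {x : G} (hx : Ty K a x) (hy : Ty K b x) : False := by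
  have h1 := h.ty_mul_ab hx hy
  rw [hx.1, one_mul] at h1
  exact h.nc h1

/-- An element of the coset `K a` has an odd power which is an involution of type `a`. -/
theorem iota (h : Fr K a b c) {g : G} (hg : g * a ∈ K) : ∃ n : ℕ, Ty K a (g ^ (2 * n + 1)) := by
  have h1 : g * g ∈ K := by
    have e : g * g = (g * a) * (a * (g * a) * a) := by
      calc g * g = g * 1 * g * 1 := by group
        _ = g * (a * a) * g * (a * a) := by rw [h.aa]
        _ = _ := by group
    rw [e]
    exact K.mul_mem hg (h.cjmem h.aa hg)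
  obtain ⟨n, hn⟩ := h.odd _ h1
  refine ⟨n, ?_, ?_⟩
  · rw [← (Commute.refl g).mul_pow (2 * n + 1)]
    exact hn
  · have e : g ^ (2 * n + 1) * a = (g * g) ^ n * (g * a) := by
      rw [pow_succ, pow_mul, pow_two, mul_assoc]
    rw [e]
    exact K.mul_mem (K.pow_mem h1 n) hg

/-- The common perpendicular of involutions of types `a`, `b`. -/
theorem perp (h : Fr K a b c) {x y : G} (hx : Ty K a x) (hy : Ty K b y) :
    ∃ m : ℕ, Ty K c ((x * y) ^ m) ∧ (x * y) ^ m * x = x * (x * y) ^ m ∧
      (x * y) ^ m * y = y * (x * y) ^ m := by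
  obtain ⟨n, hn⟩ := h.rot.rot.iota (g := x * y) (h.ty_mul_ab hx hy)
  refine ⟨2 * n + 1, hn, ?_, ?_⟩
  · exact comm_of_inv hx.1 hn.1 (conj_inv_pow hx.1 (mul_inv_self hx.1 hy.1) _)
  · exact comm_of_inv hy.1 hn.1
      (conj_inv_pow hy.1 (mul_inv_self' hx.1 hy.1) _)

end Fr

end Pool.Agent.FourGp.FF
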