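import Pool.Agent.Lib.MP_fb3619_al.FF.Sh

/-!
# MP_fb3619_al, board FF: the covering lemma COV (finding 4303)

A finite subset `L` of `K`, invariant under `C_K(c)` and the four-group, all of whose elements have
finitely many conjugates under `C_K(a)`: then every conjugate (under `K`) of an element of `L` has
finitely many conjugates under `C_K(a)`.
-/

set_option autoImplicit false

universe u v

namespace Pool.Agent.FourGp.FF

open Pool.Agent.FourGp.H47 (Odd' inv_of_sq conj_inv_pow mul_inv_self odd_conj comm_of_inv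
  mul_inv_self' comm_pow comm_inv conj_comm comm_conj)

open scoped Pointwise

/-- A group covered by finitely many sets `F₀ s H`, one for each value of `φ`. -/
theorem cover_abs {S : Type u} [Group S] {ι : Type v} (φ : S → ι) (hι : (Set.range φ).Finite)
    (F0 : Set S) (hF0 : F0.Finite) (H : ι → Subgroup S)
    (h1 : ∀ s s', φ s = φ s' → ∃ f ∈ F0, ∃ k ∈ H (φ s), s' = f * s * k)
    (h2 : ∀ s, ∀ f ∈ F0, ∀ k ∈ H (φ s), φ (f * s * k) = φ s) (s : S) :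
    (H (φ s)).FiniteIndex := by
  classical
  have hrep : ∀ i : ι, ∃ r : S, i ∈ Set.range φ → φ r = i := by
    intro i
    by_cases hi : i ∈ Set.range φ
    · obtain ⟨r, hr⟩ := hi
      exact ⟨r, fun _ => hr⟩
    · exact ⟨1, fun h => absurd h hi⟩
  choose rep hrep using hrep
  have hcov : ⋃ p ∈ hι.toFinset ×ˢ hF0.toFinset,
      (p.2 * rep p.1) • ((H p.1 : Subgroup S) : Set S) = Set.univ := by
    rw [Set.eq_univ_iff_forall]
    intro y
    have e1 := hrep (φ y) ⟨y, rfl⟩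
    obtain ⟨f, hf, k, hk, e⟩ := h1 (rep (φ y)) y e1
    rw [Set.mem_iUnion]
    refine ⟨(φ y, f), ?_⟩
    rw [Set.mem_iUnion]
    refine ⟨?_, ?_⟩
    · rw [Finset.mem_product]
      exact ⟨hι.mem_toFinset.2 ⟨y, rfl⟩, hF0.mem_toFinset.2 hf⟩
    · refine ⟨k, ?_, e.symm⟩
      rw [e1] at hk
      exact hk
  have h3 := Subgroup.leftCoset_cover_filter_FiniteIndex hcov
  have h4 : s ∈ (Set.univ : Set S) := trivial
  rw [← h3, Set.mem_iUnion] at h4
  obtain ⟨p, hp⟩ := h4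
  rw [Set.mem_iUnion] at hp
  obtain ⟨hp, k, hk, e⟩ := hp
  rw [Finset.mem_filter, Finset.mem_product] at hp
  have e1 := hrep p.1 (hι.mem_toFinset.1 hp.1.1)
  have e2 : φ s = p.1 := by
    have e3 : p.2 * rep p.1 * k = s := e
    rw [← e3, ← e1]
    have h5 := h2 (rep p.1) p.2 (hF0.mem_toFinset.1 hp.1.2) k (by rw [e1]; exact hk)
    rw [e1] at h5 ⊢
    exact h5
  rw [e2]
  exact hp.2

variable {G : Type u} [Group G]

/-- The stabilizer of a set under conjugation. -/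
def NS (A : Set G) : Subgroup G where
  carrier := {k | ∀ t, t ∈ A ↔ k⁻¹ * t * k ∈ A}
  mul_mem' := by
    intro x y hx hy t
    rw [hx t, hy (x⁻¹ * t * x)]
    have e : y⁻¹ * (x⁻¹ * t * x) * y = (x * y)⁻¹ * t * (x * y) := by group
    rw [e]
  one_mem' := by
    intro t
    have e : (1 : G)⁻¹ * t * 1 = t := by group
    rw [e]
  inv_mem' := by
    intro x hx t
    rw [hx (x⁻¹⁻¹ * t * x⁻¹)]
    have e : x⁻¹ * (x⁻¹⁻¹ * t * x⁻¹) * x = t := by group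
    rw [e]

theorem mem_NS {A : Set G} {k : G} : k ∈ NS A ↔ ∀ t, t ∈ A ↔ k⁻¹ * t * k ∈ A := Iff.rfl

theorem NS_invol {A : Set G} {y : G} (hy : y * y = 1) (h : ∀ t ∈ A, y * t * y ∈ A) : y ∈ NS A := by
  intro t
  rw [inv_of_sq hy]
  refine ⟨h t, fun ht => ?_⟩
  have h1 := h _ ht
  have e : y * (y * t * y) * y = t := by
    calc y * (y * t * y) * y = (y * y) * t * (y * y) := by group
      _ = t := by rw [hy]; group
  rwa [e] at h1

variable {K : Subgroup G} {a b c : G}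

/-- `K` is transitive on the flags of given types. -/
theorem Fr.flag (h : Fr K a b c) {x y : G} (hx : Ty K a x) (hy : Ty K b y) (hxy : x * y = y * x) :
    ∃ g ∈ K, x = g⁻¹ * a * g ∧ y = g⁻¹ * b * g := by
  obtain ⟨j, hj⟩ := h.ty_cj h.ty_a hx
  set g1 := (a * x) ^ j with hg1
  have hg1K : g1 ∈ K := K.pow_mem (h.ty_mul h.ty_a hx) j
  have hy' : Ty K b (g1 * y * g1⁻¹) := by
    have := h.rot.ty_conj hy (K.inv_mem hg1K)
    rwa [_root_.inv_inv] at this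
  have hy'a : (g1 * y * g1⁻¹) * a = a * (g1 * y * g1⁻¹) := by
    calc (g1 * y * g1⁻¹) * a = g1 * (y * (g1⁻¹ * a * g1)) * g1⁻¹ := by group
      _ = g1 * (x * y) * g1⁻¹ := by rw [hj, hxy]
      _ = g1 * ((g1⁻¹ * a * g1) * y) * g1⁻¹ := by rw [hj]
      _ = a * (g1 * y * g1⁻¹) := by group
  obtain ⟨i, hi⟩ := h.rot.ty_cj h.rot.ty_a hy'
  set g2 := (b * (g1 * y * g1⁻¹)) ^ i with hg2
  have hg2K : g2 ∈ K := K.pow_mem (h.rot.ty_mul h.rot.ty_a hy') i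
  have hg2a : g2 * a = a * g2 := comm_pow (h.cab.symm) hy'a i
  refine ⟨g2 * g1, K.mul_mem hg2K hg1K, ?_, ?_⟩
  · calc x = g1⁻¹ * a * g1 := hj.symm
      _ = g1⁻¹ * (g2⁻¹ * (g2 * a)) * g1 := by group
      _ = g1⁻¹ * (g2⁻¹ * (a * g2)) * g1 := by rw [hg2a]
      _ = (g2 * g1)⁻¹ * a * (g2 * g1) := by group
  · calc y = g1⁻¹ * (g1 * y * g1⁻¹) * g1 := by group
      _ = g1⁻¹ * (g2⁻¹ * b * g2) * g1 := by rw [hi]
      _ = (g2 * g1)⁻¹ * b * (g2 * g1) := by group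

theorem Fr.fx_finite (h : Fr K a b c) (hF : (Fx K a b : Set G).Finite) {x y : G} (hx : Ty K a x)
    (hy : Ty K b y) (hxy : x * y = y * x) : (Fx K x y : Set G).Finite := by
  obtain ⟨g, hg, rfl, rfl⟩ := h.flag hx hy hxy
  refine (hF.image fun w => g⁻¹ * w * g).subset ?_
  intro w hw
  have hw' := mem_Fx.1 hw
  have key : ∀ r : G, w * (g⁻¹ * r * g) = (g⁻¹ * r * g) * w → (g * w * g⁻¹) * r =
      r * (g * w * g⁻¹) := by
    intro r hr
    calc (g * w * g⁻¹) * r = g * (w * (g⁻¹ * r * g)) * g⁻¹ := by group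
      _ = g * ((g⁻¹ * r * g) * w) * g⁻¹ := by rw [hr]
      _ = r * (g * w * g⁻¹) := by group
  refine ⟨g * w * g⁻¹, mem_Fx.2 ⟨h.nor.conj_mem _ hw'.1 g, key a hw'.2.1, key b hw'.2.2⟩, ?_⟩
  simp only []
  group

/-- The label of an involution `y` of type `b`: the conjugate of `L` at the common perpendicular
of `a` and `y`. -/
def lab (K : Subgroup G) (a c : G) (L : Set G) (y : G) : Set G :=
  {t | ∃ α ∈ Cz K a, (α⁻¹ * c * α) * y = y * (α⁻¹ * c * α) ∧ ∃ s ∈ L, t = α⁻¹ * s * α}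

section

variable {L : Set G}

theorem lab_ex (h : Fr K a b c) {y : G} (hy : Ty K b y) :
    ∃ α ∈ Cz K a, (α⁻¹ * c * α) * y = y * (α⁻¹ * c * α) ∧ Ty K c (α⁻¹ * c * α) ∧
      ∃ m : ℕ, α⁻¹ * c * α = (a * y) ^ m := by
  obtain ⟨m, hz, hza, hzy⟩ := h.perp h.ty_a hy
  obtain ⟨j, hj⟩ := h.rot.rot.ty_cj h.rot.rot.ty_a hz
  refine ⟨(c * (a * y) ^ m) ^ j, mem_Cz.2 ⟨K.pow_mem (h.rot.rot.ty_mul h.rot.rot.ty_a hz) j,
    comm_pow h.cac.symm hza j⟩, ?_, ?_, m, hj⟩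
  · rw [hj]; exact hzy
  · rw [hj]; exact hz

theorem lab_eq (h : Fr K a b c) (hLc : ∀ g ∈ Cz K c, ∀ s ∈ L, g⁻¹ * s * g ∈ L) {y α : G}
    (hy : Ty K b y) (hα : α ∈ Cz K a) (hαy : (α⁻¹ * c * α) * y = y * (α⁻¹ * c * α)) :
    lab K a c L y = {t | ∃ s ∈ L, t = α⁻¹ * s * α} := by
  have key : ∀ β ∈ Cz K a, Ty K c (β⁻¹ * c * β) ∧ (β⁻¹ * c * β) * a = a * (β⁻¹ * c * β) := by
    intro β hβ
    rw [mem_Cz] at hβ
    refine ⟨h.rot.rot.ty_conj h.rot.rot.ty_a hβ.1, ?_⟩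
    have c1 : Commute β a := hβ.2
    have c2 : Commute c a := h.cac.symm
    exact (c1.inv_left.mul_left c2).mul_left c1
  ext t
  constructor
  · rintro ⟨β, hβ, hβy, s, hs, rfl⟩
    have e : β⁻¹ * c * β = α⁻¹ * c * α :=
      h.perp_uniq h.ty_a hy (key β hβ).1 (key α hα).1 (key β hβ).2 hβy (key α hα).2 hαy
    have hg : β * α⁻¹ ∈ Cz K c := by
      refine mem_Cz.2 ⟨K.mul_mem (mem_Cz.1 hβ).1 (K.inv_mem (mem_Cz.1 hα).1), ?_⟩
      calc β * α⁻¹ * c = β * (α⁻¹ * c * α) * α⁻¹ := by group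
        _ = β * (β⁻¹ * c * β) * α⁻¹ := by rw [e]
        _ = c * (β * α⁻¹) := by group
    refine ⟨(β * α⁻¹)⁻¹ * s * (β * α⁻¹), hLc _ hg s hs, ?_⟩
    group
  · rintro ⟨s, hs, rfl⟩
    exact ⟨α, hα, hαy, s, hs, rfl⟩

/-- An involution of type `b` commuting with `c` normalises `L`. -/
theorem L_inv (h : Fr K a b c) (hLc : ∀ g ∈ Cz K c, ∀ s ∈ L, g⁻¹ * s * g ∈ L)
    (hLb : ∀ s ∈ L, b * s * b ∈ L) {y s : G} (hy : Ty K b y) (hyc : y * c = c * y) (hs : s ∈ L) :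
    y * s * y ∈ L := by
  obtain ⟨j, hj⟩ := h.rot.ty_cj h.rot.ty_a hy
  set g := (b * y) ^ j with hg
  have hgc : g ∈ Cz K c :=
    mem_Cz.2 ⟨K.pow_mem (h.rot.ty_mul h.rot.ty_a hy) j, comm_pow h.cbc hyc j⟩
  have h1 : g * s * g⁻¹ ∈ L := by
    have := hLc g⁻¹ ((Cz K c).inv_mem hgc) s hs
    rwa [inv_inv] at this
  have h2 := hLc g hgc _ (hLb _ h1)
  have e : g⁻¹ * (b * (g * s * g⁻¹) * b) * g = y * s * y := by
    rw [← hj]; group
  rwa [e] at h2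

theorem lab_y (h : Fr K a b c) (hLc : ∀ g ∈ Cz K c, ∀ s ∈ L, g⁻¹ * s * g ∈ L)
    (hLb : ∀ s ∈ L, b * s * b ∈ L) {y : G} (hy : Ty K b y) : y ∈ NS (lab K a c L y) := by
  obtain ⟨α, hα, hαy, -, -⟩ := lab_ex h hy
  have hαK := (mem_Cz.1 hα).1
  rw [lab_eq h hLc hy hα hαy]
  refine NS_invol hy.1 ?_
  rintro t ⟨s, hs, rfl⟩
  have hy' : Ty K b (α * y * α⁻¹) := by
    have := h.rot.ty_conj hy (K.inv_mem hαK)
    rwa [inv_inv] at this
  have hy'c : (α * y * α⁻¹) * c = c * (α * y * α⁻¹) := by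
    calc (α * y * α⁻¹) * c = α * (y * (α⁻¹ * c * α)) * α⁻¹ := by group
      _ = α * ((α⁻¹ * c * α) * y) * α⁻¹ := by rw [hαy]
      _ = c * (α * y * α⁻¹) := by group
  refine ⟨_, L_inv h hLc hLb hy' hy'c hs, ?_⟩
  group

theorem lab_a (h : Fr K a b c) (hLc : ∀ g ∈ Cz K c, ∀ s ∈ L, g⁻¹ * s * g ∈ L)
    (hLa : ∀ s ∈ L, a * s * a ∈ L) {y : G} (hy : Ty K b y) : a ∈ NS (lab K a c L y) := by
  obtain ⟨α, hα, hαy, -, -⟩ := lab_ex h hy
  rw [lab_eq h hLc hy hα hαy]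
  refine NS_invol h.aa ?_
  rintro t ⟨s, hs, rfl⟩
  refine ⟨_, hLa s hs, ?_⟩
  have c1 : Commute α a := (mem_Cz.1 hα).2
  calc a * (α⁻¹ * s * α) * a = (a * α⁻¹) * s * (α * a) := by group
    _ = (α⁻¹ * a) * s * (a * α) := by rw [c1.inv_left.eq, c1.eq]
    _ = α⁻¹ * (a * s * a) * α := by group

/-- (v) -/
theorem lab_conj (h : Fr K a b c) (hLc : ∀ g ∈ Cz K c, ∀ s ∈ L, g⁻¹ * s * g ∈ L)
    (hLa : ∀ s ∈ L, a * s * a ∈ L) (hLb : ∀ s ∈ L, b * s * b ∈ L) {y k : G} (hy : Ty K b y)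
    (hk : k ∈ K) (hkN : k ∈ NS (lab K a c L y)) :
    lab K a c L (k⁻¹ * y * k) = lab K a c L y := by
  have hy' : Ty K b (k⁻¹ * y * k) := h.rot.ty_conj hy hk
  obtain ⟨α, hα, hαy, hzt, m, hm⟩ := lab_ex h hy
  set A := lab K a c L y with hA
  have haN : a ∈ NS A := lab_a h hLc hLa hy
  have hyN : y ∈ NS A := lab_y h hLc hLb hy
  have hy'N : k⁻¹ * y * k ∈ NS A :=
    (NS A).mul_mem ((NS A).mul_mem ((NS A).inv_mem hkN) hyN) hkN
  obtain ⟨m', hz', hz'a, hz'y⟩ := h.perp h.ty_a hy'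
  set z := α⁻¹ * c * α with hz
  set z' := (a * (k⁻¹ * y * k)) ^ m' with hz'def
  have hzN : z ∈ NS A := by rw [hm]; exact (NS A).pow_mem ((NS A).mul_mem haN hyN) _
  have hz'N : z' ∈ NS A := (NS A).pow_mem ((NS A).mul_mem haN hy'N) _
  have hza : z * a = a * z := by
    have c1 : Commute α a := (mem_Cz.1 hα).2
    have c2 : Commute c a := h.cac.symm
    exact (c1.inv_left.mul_left c2).mul_left c1
  obtain ⟨j, hj⟩ := h.rot.rot.ty_cj hzt hz'
  set k' := (z * z') ^ j with hk'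
  have hk'K : k' ∈ K := K.pow_mem (h.rot.rot.ty_mul hzt hz') j
  have hk'a : k' * a = a * k' := comm_pow hza hz'a j
  have hk'N : k' ∈ NS A := (NS A).pow_mem ((NS A).mul_mem hzN hz'N) _
  have hα' : α * k' ∈ Cz K a := (Cz K a).mul_mem hα (mem_Cz.2 ⟨hk'K, hk'a⟩)
  have e : (α * k')⁻¹ * c * (α * k') = z' := by
    rw [← hj, hz]; group
  rw [lab_eq h hLc hy' hα' (by rw [e]; exact hz'y)]
  have hA' : A = {t | ∃ s ∈ L, t = α⁻¹ * s * α} := lab_eq h hLc hy hα hαy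
  ext t
  constructor
  · rintro ⟨s, hs, rfl⟩
    have h1 : α⁻¹ * s * α ∈ A := by rw [hA']; exact ⟨s, hs, rfl⟩
    have h2 := (hk'N _).1 h1
    have e2 : k'⁻¹ * (α⁻¹ * s * α) * k' = (α * k')⁻¹ * s * (α * k') := by group
    rwa [e2] at h2
  · intro ht
    have h1 : k' * t * k'⁻¹ ∈ A := by
      rw [hk'N]
      have e2 : k'⁻¹ * (k' * t * k'⁻¹) * k' = t := by group
      rw [e2]; exact ht
    rw [hA'] at h1
    obtain ⟨s, hs, e3⟩ := h1
    refine ⟨s, hs, ?_⟩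
    calc t = k'⁻¹ * (k' * t * k'⁻¹) * k' := by group
      _ = (α * k')⁻¹ * s * (α * k') := by rw [e3]; group

end

/-- COV. -/
theorem cov (h : Fr K a b c) (hF : (Fx K a b : Set G).Finite) {L : Set G} (hL : L.Finite)
    (hLc : ∀ g ∈ Cz K c, ∀ s ∈ L, g⁻¹ * s * g ∈ L) (hLa : ∀ s ∈ L, a * s * a ∈ L)
    (hLb : ∀ s ∈ L, b * s * b ∈ L) (hfi : ∀ s ∈ L, fi (Cz K a) s) :
    ∀ k ∈ K, ∀ s ∈ L, fi (Cz K a) (k⁻¹ * s * k) := by
  classical
  intro k hk s hs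
  -- the involution `x`
  have hx : Ty K a (k * a * k⁻¹) := by
    have := h.ty_conj h.ty_a (K.inv_mem hk)
    rwa [inv_inv] at this
  set x := k * a * k⁻¹ with hxdef
  obtain ⟨m, hy0, hy0x, hy0c⟩ := h.swap'.perp hx h.rot.rot.ty_a
  set y0 := (x * c) ^ m with hy0def
  have hF0 := h.fx_finite hF hx hy0 hy0x.symm
  -- the finite set containing all labels
  have hU : {t | ∃ α ∈ Cz K a, ∃ s ∈ L, t = α⁻¹ * s * α}.Finite := by
    refine (hL.biUnion fun s hs => fi_finite (hfi s hs)).subset ?_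
    rintro t ⟨α, hα, s, hs, rfl⟩
    rw [Set.mem_iUnion]
    refine ⟨s, ?_⟩
    rw [Set.mem_iUnion]
    exact ⟨hs, α, hα, rfl⟩
  have hconj : ∀ g : G, g ∈ Cz K x → Ty K b (g⁻¹ * y0 * g) ∧
      (g⁻¹ * y0 * g) * x = x * (g⁻¹ * y0 * g) := by
    intro g hg
    rw [mem_Cz] at hg
    refine ⟨h.rot.ty_conj hy0 hg.1, ?_⟩
    have c1 : Commute g x := hg.2
    have c2 : Commute y0 x := hy0x
    exact (c1.inv_left.mul_left c2).mul_left c1
  have hfin := cover_abs (S := Cz K x) (fun g => lab K a c L ((g : G)⁻¹ * y0 * g))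
    (hU.finite_subsets.subset (by
      rintro _ ⟨g, rfl⟩ t ⟨α, hα, -, s, hs, e⟩
      exact ⟨α, hα, s, hs, e⟩))
    {f | (f : G) * y0 = y0 * f}
    (by
      refine Set.Finite.of_finite_image (f := Subtype.val) (hF0.subset ?_)
        Subtype.val_injective.injOn
      rintro _ ⟨f, hf, rfl⟩
      exact mem_Fx.2 ⟨(mem_Cz.1 f.2).1, (mem_Cz.1 f.2).2, hf⟩)
    (fun A => (NS A).subgroupOf (Cz K x))
    (by
      -- (vi)
      intro g g' e
      have hg := hconj g g.2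
      have hg' := hconj g' g'.2
      set y := (g : G)⁻¹ * y0 * g with hy
      set y' := (g' : G)⁻¹ * y0 * g' with hy'
      obtain ⟨j, hj⟩ := h.rot.ty_cj hg.1 hg'.1
      set q := (y * y') ^ j with hq
      have hqx : q ∈ Cz K x :=
        mem_Cz.2 ⟨K.pow_mem (h.rot.ty_mul hg.1 hg'.1) j, comm_pow hg.2 hg'.2 j⟩
      have hqN : q ∈ NS (lab K a c L y) := by
        refine (NS _).pow_mem ((NS _).mul_mem (lab_y h hLc hLb hg.1) ?_) _
        have e' : lab K a c L y = lab K a c L y' := e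
        rw [e']
        exact lab_y h hLc hLb hg'.1
      refine ⟨g' * (g * ⟨q, hqx⟩)⁻¹, ?_, ⟨q, hqx⟩, ?_, ?_⟩
      · show ((g' * (g * ⟨q, hqx⟩)⁻¹ : Cz K x) : G) * y0 = y0 * _
        push_cast
        apply comm_conj
        calc ((g' : G) * ((g : G) * q)⁻¹)⁻¹ * y0 * (g' * ((g : G) * q)⁻¹)
            = g * q * ((g' : G)⁻¹ * y0 * g') * q⁻¹ * (g : G)⁻¹ := by group
          _ = g * q * (q⁻¹ * ((g : G)⁻¹ * y0 * g) * q) * q⁻¹ * (g : G)⁻¹ := by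
            rw [← hy', ← hj, hy]
          _ = y0 := by group
      · rw [Subgroup.mem_subgroupOf]
        exact hqN
      · group)
    (by
      -- (vii)
      intro g f hf q hq
      rw [Subgroup.mem_subgroupOf] at hq
      have hf' : (f : G) * y0 = y0 * f := hf
      have e : ((f * g * q : Cz K x) : G)⁻¹ * y0 * ((f * g * q : Cz K x) : G) =
          (q : G)⁻¹ * ((g : G)⁻¹ * y0 * g) * q := by
        push_cast
        calc ((f : G) * g * q)⁻¹ * y0 * (f * g * q)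
            = (q : G)⁻¹ * (g : G)⁻¹ * ((f : G)⁻¹ * (y0 * f)) * g * q := by group
          _ = (q : G)⁻¹ * (g : G)⁻¹ * ((f : G)⁻¹ * (f * y0)) * g * q := by rw [hf']
          _ = _ := by group
      show lab K a c L (((f * g * q : Cz K x) : G)⁻¹ * y0 * ((f * g * q : Cz K x) : G)) = _
      rw [e]
      exact lab_conj h hLc hLa hLb (hconj g g.2).1 (mem_Cz.1 q.2).1 hq)
    1
  -- the label of `y0` is `L`
  have hlab : lab K a c L y0 = L := by
    have h1 : (1 : G) ∈ Cz K a := (Cz K a).one_mem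
    rw [lab_eq h hLc hy0 h1 (by
      have e : (1 : G)⁻¹ * c * 1 = c := by group
      rw [e]; exact hy0c.symm)]
    ext t
    constructor
    · rintro ⟨s, hs, rfl⟩
      have e : (1 : G)⁻¹ * s * 1 = s := by group
      rw [e]; exact hs
    · intro ht
      exact ⟨t, ht, by group⟩
  have e1 : (((1 : Cz K x) : G))⁻¹ * y0 * ((1 : Cz K x) : G) = y0 := by
    push_cast; group
  simp only [e1, hlab] at hfin
  -- conclusion
  have h2 : (NS L).relIndex (Cz K x) ≠ 0 := hfin.index_ne_zero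
  obtain ⟨R, -, hR⟩ := cover_of_relIndex h2
  have h3 : {t | ∃ r ∈ R, ∃ s ∈ L, t = r⁻¹ * s * r}.Finite := by
    refine (R.finite_toSet.biUnion fun r _ => hL.image fun s => r⁻¹ * s * r).subset ?_
    rintro t ⟨r, hr, s, hs, rfl⟩
    rw [Set.mem_iUnion]
    refine ⟨r, ?_⟩
    rw [Set.mem_iUnion]
    exact ⟨hr, s, hs, rfl⟩
  apply fi_of_finite
  refine (h3.image fun t => k⁻¹ * t * k).subset ?_
  rintro t ⟨g, hg, rfl⟩
  have hg' : k * g * k⁻¹ ∈ Cz K x := by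
    rw [mem_Cz] at hg ⊢
    refine ⟨h.nor.conj_mem _ hg.1 k, ?_⟩
    rw [hxdef]
    calc k * g * k⁻¹ * (k * a * k⁻¹) = k * (g * a) * k⁻¹ := by group
      _ = k * (a * g) * k⁻¹ := by rw [hg.2]
      _ = k * a * k⁻¹ * (k * g * k⁻¹) := by group
  obtain ⟨r, hr, hrN⟩ := hR _ hg'
  refine ⟨r⁻¹ * ((k * g * k⁻¹ * r⁻¹)⁻¹ * s * (k * g * k⁻¹ * r⁻¹)) * r,
    ⟨r, hr, _, (hrN s).1 hs, rfl⟩, ?_⟩
  simp only []
  group

end Pool.Agent.FourGp.FF
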