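import Pool.Agent.Lib.MP_fb3619_al.FF.Base

/-!
# MP_fb3619_al, board FF: decompositions, the parity lemma
-/

set_option autoImplicit false

universe u

namespace Pool.Agent.FourGp.FF

open Pool.Agent.FourGp.H47 (Odd' inv_of_sq conj_inv_pow mul_inv_self odd_conj comm_of_inv
  mul_inv_self' comm_pow comm_inv conj_comm comm_conj)

variable {G : Type u} [Group G] {K : Subgroup G} {a b c : G}

namespace Fr

/-- The common perpendicular is unique. -/
theorem perp_uniq (h : Fr K a b c) {x y z z' : G} (hx : Ty K a x) (hy : Ty K b y)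
    (hz : Ty K c z) (hz' : Ty K c z') (h1 : z * x = x * z) (h2 : z * y = y * z)
    (h1' : z' * x = x * z') (h2' : z' * y = y * z') : z = z' := by
  obtain ⟨m, hm, -, -⟩ := h.perp hx hy
  have key : ∀ w : G, Ty K c w → w * x = x * w → w * y = y * w → w = (x * y) ^ m := by
    intro w hw e1 e2
    refine h.rot.rot.ty_eq hw hm ?_
    have c1 : Commute w x := e1
    have c2 : Commute w y := e2
    exact (c1.mul_right c2).pow_right m
  rw [key z hz h1 h2, key z' hz' h1' h2']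

/-- `k = w s`, `w` commutes with the involution `z`, `s` is inverted by `z`; if `k` belongs to a
subgroup `X` invariant under `z`, so do `w` and `s`. -/
theorem dec (h : Fr K a b c) {X : Subgroup G} (hX : X ≤ K) {z k : G} (hz : z * z = 1)
    (hzX : ∀ u ∈ X, z * u * z ∈ X) (hk : k ∈ X) :
    ∃ w s : G, w ∈ X ∧ s ∈ X ∧ k = w * s ∧ w * z = z * w ∧ z * s * z = s⁻¹ := by
  set t := (z * k * z)⁻¹ * k with ht
  have htX : t ∈ X := X.mul_mem (X.inv_mem (hzX k hk)) hk
  have hti : z * t * z = t⁻¹ := by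
    rw [ht]
    have e : (z * k * z)⁻¹ = z * k⁻¹ * z := by
      rw [mul_inv_rev, mul_inv_rev, inv_of_sq hz]; group
    rw [e]
    calc z * (z * k⁻¹ * z * k) * z = (z * z) * k⁻¹ * (z * k * z) := by group
      _ = (z * k⁻¹ * z * k)⁻¹ := by
        rw [hz, one_mul, mul_inv_rev, mul_inv_rev, mul_inv_rev, inv_inv, inv_of_sq hz]
        group
  obtain ⟨j, hj⟩ := (h.odd t (hX htX)).sqrt
  refine ⟨k * (t ^ j)⁻¹, t ^ j, X.mul_mem hk (X.inv_mem (X.pow_mem htX j)), X.pow_mem htX j,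
    by group, ?_, conj_inv_pow hz hti j⟩
  have e1 : z * (t ^ j)⁻¹ * z = t ^ j := by
    have := conj_inv_pow hz hti j
    have e2 := congrArg (fun x => x⁻¹) this
    simp only [mul_inv_rev, inv_of_sq hz, inv_inv] at e2
    exact (mul_assoc _ _ _).trans e2
  have e3 : z * (k * (t ^ j)⁻¹) * z = k * (t ^ j)⁻¹ := by
    calc z * (k * (t ^ j)⁻¹) * z = (z * k * z) * (z * z)⁻¹ * (z * (t ^ j)⁻¹ * z) := by group
      _ = (z * k * z) * (t ^ j) := by rw [hz, e1]; group
      _ = (z * k * z) * (t ^ j * t ^ j) * (t ^ j)⁻¹ := by group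
      _ = (z * k * z) * ((z * k * z)⁻¹ * k) * (t ^ j)⁻¹ := by rw [hj]
      _ = k * (t ^ j)⁻¹ := by group
  calc k * (t ^ j)⁻¹ * z = (z * z) * (k * (t ^ j)⁻¹) * z := by rw [hz, one_mul]
    _ = z * (z * (k * (t ^ j)⁻¹) * z) := by group
    _ = z * (k * (t ^ j)⁻¹) := by rw [e3]

/-- Uniqueness of the decomposition. -/
theorem dec_uniq (h : Fr K a b c) {z w s w' s' : G} (hz : z * z = 1) (hs : s ∈ K) (hs' : s' ∈ K)
    (hw : w * z = z * w) (hw' : w' * z = z * w') (hi : z * s * z = s⁻¹)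
    (hi' : z * s' * z = s'⁻¹) (e : w * s = w' * s') : w = w' ∧ s = s' := by
  -- apply `z`: `w s⁻¹ = w' s'⁻¹`
  have e1 : w * s⁻¹ = w' * s'⁻¹ := by
    have h1 : z * (w * s) * z = w * s⁻¹ := by
      calc z * (w * s) * z = (z * w) * s * z := by group
        _ = w * (z * s * z) := by rw [← hw]; group
        _ = w * s⁻¹ := by rw [hi]
    have h2 : z * (w' * s') * z = w' * s'⁻¹ := by
      calc z * (w' * s') * z = (z * w') * s' * z := by group
        _ = w' * (z * s' * z) := by rw [← hw']; group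
        _ = w' * s'⁻¹ := by rw [hi']
    rw [← h1, ← h2, e]
  -- so `s² = s'²`
  have e2 : s * s = s' * s' := by
    calc s * s = (w * s⁻¹)⁻¹ * (w * s) := by group
      _ = (w' * s'⁻¹)⁻¹ * (w' * s') := by rw [e1, e]
      _ = s' * s' := by group
  have e3 : s = s' := by
    obtain ⟨n, hn⟩ := h.odd s hs
    obtain ⟨n', hn'⟩ := h.odd s' hs'
    set N := (2 * n + 1) * (2 * n' + 1) with hN
    have h1 : s ^ N = 1 := by rw [hN, pow_mul, hn, one_pow]
    have h2 : s' ^ N = 1 := by rw [hN, mul_comm, pow_mul, hn', one_pow]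
    have h3 : ∃ q, N + 1 = 2 * q := ⟨2 * n * n' + n + n' + 1, by rw [hN]; ring⟩
    obtain ⟨q, hq⟩ := h3
    calc s = s ^ (N + 1) := by rw [pow_succ, h1, one_mul]
      _ = (s * s) ^ q := by rw [hq, pow_mul, pow_two]
      _ = (s' * s') ^ q := by rw [e2]
      _ = s' ^ (N + 1) := by rw [hq, pow_mul, pow_two]
      _ = s' := by rw [pow_succ, h2, one_mul]
  refine ⟨?_, e3⟩
  rw [e3] at e
  exact mul_right_cancel e

/-- PARITY LEMMA. -/
theorem parity (h : Fr K a b c) {t t' u : G} (ht : Ty K a t) (ht' : Ty K a t') (hu : u ∈ K)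
    (h1 : u * t = t * u) (h2 : t' * u * t' = u⁻¹) : u = 1 := by
  have e1 : t' * t * u * (t' * t)⁻¹ = u⁻¹ := by
    rw [mul_inv_rev, inv_of_sq ht.1, inv_of_sq ht'.1]
    calc t' * t * u * (t * t') = t' * (t * u) * t * t' := by group
      _ = t' * u * (t * t) * t' := by rw [← h1]; group
      _ = u⁻¹ := by rw [ht.1, mul_one, h2]
  obtain ⟨n, hn⟩ := h.odd _ (h.ty_mul ht' ht)
  set g := t' * t with hg
  have e2 : ∀ m : ℕ, g ^ (2 * m) * u * (g ^ (2 * m))⁻¹ = u := by
    intro m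
    induction m with
    | zero => simp
    | succ m ih =>
      have e3 : g * (g * u * g⁻¹) * g⁻¹ = u := by
        rw [e1]
        calc g * u⁻¹ * g⁻¹ = (g * u * g⁻¹)⁻¹ := by group
          _ = u := by rw [e1, inv_inv]
      calc g ^ (2 * (m + 1)) * u * (g ^ (2 * (m + 1)))⁻¹
          = g ^ (2 * m) * (g * (g * u * g⁻¹) * g⁻¹) * (g ^ (2 * m))⁻¹ := by
            rw [show 2 * (m + 1) = 2 * m + 1 + 1 by ring, pow_succ, pow_succ]; group
        _ = u := by rw [e3, ih]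
  have e4 : u = u⁻¹ := by
    calc u = g ^ (2 * n + 1) * u * (g ^ (2 * n + 1))⁻¹ := by rw [hn]; group
      _ = g * (g ^ (2 * n) * u * (g ^ (2 * n))⁻¹) * g⁻¹ := by
        rw [pow_succ']; group
      _ = u⁻¹ := by rw [e2, e1]
  refine (h.odd u hu).eq_one ?_
  nth_rewrite 1 [e4]
  group

/-- A commutator of two elements inverted by an involution of type `a` is centralized by an
involution of type `a`. -/
theorem comm_cent (h : Fr K a b c) {x u w : G} (hx : Ty K a x) (hu : u ∈ K) (hw : w ∈ K)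
    (h1 : x * u * x = u⁻¹) (h2 : x * w * x = w⁻¹) :
    ∃ t, Ty K a t ∧ (u⁻¹ * w⁻¹ * u * w) * t = t * (u⁻¹ * w⁻¹ * u * w) := by
  have hm : x * u * w * a ∈ K := by
    have e : x * u * w * a = (x * a) * (a * (u * w) * a) := by
      calc x * u * w * a = x * 1 * u * w * a := by group
        _ = x * (a * a) * u * w * a := by rw [h.aa]
        _ = _ := by group
    rw [e]
    exact K.mul_mem hx.2 (h.cjmem h.aa (K.mul_mem hu hw))
  obtain ⟨n, hn⟩ := h.iota hm
  refine ⟨_, hn, ?_⟩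
  have e : u⁻¹ * w⁻¹ * u * w = (x * u * w) * (x * u * w) := by
    calc u⁻¹ * w⁻¹ * u * w = (x * u * x) * (x * w * x) * u * w := by rw [h1, h2]
      _ = x * u * (x * x) * w * x * u * w := by group
      _ = _ := by rw [hx.1]; group
  rw [e]
  have c0 : Commute (x * u * w) (x * u * w) := Commute.refl _
  exact (c0.mul_left c0).pow_right _

/-- `u, w` inverted by `x`: `x w` is an involution of the same type which inverts `w⁻¹ u`. -/
theorem inv_inv (h : Fr K a b c) {x u w : G} (hx : Ty K a x) (hw : w ∈ K)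
    (h1 : x * u * x = u⁻¹) (h2 : x * w * x = w⁻¹) :
    Ty K a (x * w) ∧ (x * w) * (w⁻¹ * u) * (x * w) = (w⁻¹ * u)⁻¹ := by
  refine ⟨h.ty_inv hx hw h2, ?_⟩
  calc (x * w) * (w⁻¹ * u) * (x * w) = (x * u * x) * w := by group
    _ = (w⁻¹ * u)⁻¹ := by rw [h1]; group

/-- `K = C_K(a) B⁻ C⁻`, inside every subgroup `X` of `K` invariant under `a` and `b`. -/
theorem fac (h : Fr K a b c) {X : Subgroup G} (hX : X ≤ K) (ha : ∀ u ∈ X, a * u * a ∈ X)
    (hb : ∀ u ∈ X, b * u * b ∈ X) {k : G} (hk : k ∈ X) :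
    ∃ α β γ : G, α ∈ X ∧ β ∈ X ∧ γ ∈ X ∧ k = α * β * γ ∧ α * a = a * α ∧ β * b = b * β ∧
      a * β * a = β⁻¹ ∧ γ * c = c * γ ∧ a * γ * a = γ⁻¹ := by
  have hc : ∀ u ∈ X, c * u * c ∈ X := by
    intro u hu
    have e : c * u * c = a * (b * u * b) * a := by
      calc c * u * c = (a * b) * u * (b * a) := by rw [h.ab, h.ba]
        _ = _ := by group
    rw [e]
    exact ha _ (hb u hu)
  -- the perpendicular of `k⁻¹ a k` and `c`
  have hx : Ty K a (k⁻¹ * a * k) := h.ty_conj h.ty_a (hX hk)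
  obtain ⟨m, hz, hzx, hzc⟩ := h.swap'.perp hx h.rot.rot.ty_a
  set z := (k⁻¹ * a * k * c) ^ m with hzdef
  -- `b z ∈ X`
  have hbz : b * z ∈ X := by
    have hP : ∀ n : ℕ, (k⁻¹ * a * k * c) ^ (2 * n) ∈ X ∧
        b * (k⁻¹ * a * k * c) ^ (2 * n + 1) ∈ X := by
      have e0 : b * (k⁻¹ * a * k * c) ∈ X := by
        have e : b * (k⁻¹ * a * k * c) = (b * (k⁻¹ * (a * k * a)) * b) := by
          calc b * (k⁻¹ * a * k * c) = b * (k⁻¹ * a * k * (a * b)) := by rw [h.ab]
            _ = _ := by group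
        rw [e]
        exact hb _ (X.mul_mem (X.inv_mem hk) (ha k hk))
      have e1 : (k⁻¹ * a * k * c) * (k⁻¹ * a * k * c) ∈ X := by
        have e : (k⁻¹ * a * k * c) * (k⁻¹ * a * k * c) =
            b * (b * (k⁻¹ * a * k * c)) * b * (b * (k⁻¹ * a * k * c)) := by
          calc (k⁻¹ * a * k * c) * (k⁻¹ * a * k * c)
              = 1 * (k⁻¹ * a * k * c) * 1 * (k⁻¹ * a * k * c) := by group
            _ = (b * b) * (k⁻¹ * a * k * c) * (b * b) * (k⁻¹ * a * k * c) := by rw [h.bb]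
            _ = _ := by group
        rw [e]
        exact X.mul_mem (hb _ e0) e0
      intro n
      have e2 : (k⁻¹ * a * k * c) ^ (2 * n) ∈ X := by
        rw [pow_mul, pow_two]
        exact X.pow_mem e1 n
      refine ⟨e2, ?_⟩
      rw [pow_succ', ← mul_assoc]
      exact X.mul_mem e0 e2
    rcases Nat.even_or_odd' m with ⟨n, hn | hn⟩
    · exfalso
      have h1 := (hP n).1
      rw [← hn] at h1
      exact h.rot.ty_not_mem hz (hX h1)
    · rw [hzdef, hn]
      exact (hP n).2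
  obtain ⟨j, hj⟩ := h.rot.ty_cj h.rot.ty_a hz
  set γ := (b * z) ^ j with hγ
  have hγX : γ ∈ X := X.pow_mem hbz j
  have hγc : γ * c = c * γ := comm_pow h.cbc hzc j
  have hγb : b * γ * b = γ⁻¹ := conj_inv_pow h.bb (mul_inv_self h.bb hz.1) j
  have hγa : a * γ * a = γ⁻¹ := by
    calc a * γ * a = (b * c) * γ * (c * b) := by rw [h.bc, h.cb]
      _ = b * (c * γ) * c * b := by group
      _ = b * γ * (c * c) * b := by rw [← hγc]; group
      _ = γ⁻¹ := by rw [h.cc, mul_one, hγb]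
  -- `y = k' ⁻¹ a k'` with `k' = k γ⁻¹` commutes with `b`
  set k' := k * γ⁻¹ with hk'
  have hk'X : k' ∈ X := X.mul_mem hk (X.inv_mem hγX)
  have hy : Ty K a (k'⁻¹ * a * k') := h.ty_conj h.ty_a (hX hk'X)
  set y := k'⁻¹ * a * k' with hydef
  have e1 : y = γ * (k⁻¹ * a * k) * γ⁻¹ := by rw [hydef, hk']; group
  have e2 : b = γ * z * γ⁻¹ := by rw [← hj]; group
  have hyb : y * b = b * y := by
    rw [e1]
    nth_rewrite 1 [e2]
    calc γ * (k⁻¹ * a * k) * γ⁻¹ * (γ * z * γ⁻¹) = γ * ((k⁻¹ * a * k) * z) * γ⁻¹ := by group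
      _ = γ * (z * (k⁻¹ * a * k)) * γ⁻¹ := by rw [hzx]
      _ = (γ * z * γ⁻¹) * (γ * (k⁻¹ * a * k) * γ⁻¹) := by group
      _ = _ := by rw [← e2]
  have hay : a * y ∈ X := by
    have e : a * y = (a * k'⁻¹ * a) * k' := by rw [hydef]; group
    rw [e]
    exact X.mul_mem (ha _ (X.inv_mem hk'X)) hk'X
  obtain ⟨i, hi⟩ := h.ty_cj h.ty_a hy
  set β := (a * y) ^ i with hβ
  have hβX : β ∈ X := X.pow_mem hay i
  have hβb : β * b = b * β := comm_pow h.cab hyb i
  have hβa : a * β * a = β⁻¹ := conj_inv_pow h.aa (mul_inv_self h.aa hy.1) i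
  refine ⟨k' * β⁻¹, β, γ, X.mul_mem hk'X (X.inv_mem hβX), hβX, hγX, by rw [hk']; group, ?_,
    hβb, hβa, hγc, hγa⟩
  apply comm_conj
  calc (k' * β⁻¹)⁻¹ * a * (k' * β⁻¹) = β * (k'⁻¹ * a * k') * β⁻¹ := by group
    _ = β * (β⁻¹ * a * β) * β⁻¹ := by rw [hi]
    _ = a := by group

/-- Elements inverted by `a` and centralized by `b` are inverted by `c`. -/
theorem inv_c (h : Fr K a b c) {β : G} (hb : β * b = b * β) (ha : a * β * a = β⁻¹) :
    c * β * c = β⁻¹ := by
  calc c * β * c = (a * b) * β * (b * a) := by rw [h.ab, h.ba]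
    _ = a * (b * β) * b * a := by group
    _ = a * β * (b * b) * a := by rw [← hb]; group
    _ = β⁻¹ := by rw [h.bb, mul_one, ha]

end Fr

end Pool.Agent.FourGp.FF
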