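import Pool.Agent.Lib.MP_fb3619_al.FF.Ppp

/-!
# MP_fb3619_al, board FF: the sigma argument for a subgroup `E` of `F` (finding 4303, step (S))
-/

set_option autoImplicit false

universe u

namespace Pool.Agent.FourGp.FF

open Pool.Agent.FourGp.H47 (Odd' inv_of_sq conj_inv_pow mul_inv_self odd_conj comm_of_inv
  mul_inv_self' comm_pow comm_inv conj_comm comm_conj)

variable {G : Type u} [Group G] {K : Subgroup G} {a b c : G}

/-- SGM: the sigma argument for a subgroup `E` of `F`: the `C_K(c)`-conjugates of `E` are centralized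
by subgroups of finite index of `C_K(b)`. -/
def SgmS : Prop := ∀ (G : Type u) [Group G] (K : Subgroup G) (a b c : G), Fr K a b c →
  (Fx K a b : Set G).Finite → ∀ E : Subgroup G, E ≤ Fx K a b →
  (∀ w ∈ Fx K a b, ∀ e ∈ E, w⁻¹ * e * w ∈ E) →
  (∀ e ∈ E, fi (Cz K c) e) →
  (∀ e ∈ E, ∀ γ ∈ Cz K c, ∀ w m : G, w ∈ Fx K a b → m ∈ Cz K c → a * m * a = m⁻¹ →
    γ⁻¹ * e * γ = w * m → fi (Cz K b) w) →
  (∀ e ∈ E, ∀ β ∈ Cz K b, ∀ w m : G, w ∈ Fx K a b → m ∈ Cz K b → a * m * a = m⁻¹ →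
    β⁻¹ * e * β = w * m → fi (Cz K a) w) →
  ∀ e ∈ E, ∀ γ ∈ Cz K c, fi (Cz K b) (γ⁻¹ * e * γ)

namespace Fr

/-- Two flags of types `(a, c)` which centralize a set `M` are conjugate by an element of `K` which
centralizes `M`. -/
theorem flag_conj (h : Fr K a b c) (M : Set G) {x y x' y' : G} (hx : Ty K a x) (hy : Ty K c y)
    (hx' : Ty K a x') (hy' : Ty K c y') (hxy : x * y = y * x) (hxy' : x' * y' = y' * x')
    (h1 : ∀ m ∈ M, m * x = x * m) (h2 : ∀ m ∈ M, m * y = y * m)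
    (h1' : ∀ m ∈ M, m * x' = x' * m) (h2' : ∀ m ∈ M, m * y' = y' * m) :
    ∃ k ∈ K, (∀ m ∈ M, m * k = k * m) ∧ k⁻¹ * x * k = x' ∧ k⁻¹ * y * k = y' := by
  obtain ⟨j, hj⟩ := h.rot.rot.ty_cj hy hy'
  set k₁ := (y * y') ^ j with hk₁
  have hk₁K : k₁ ∈ K := K.pow_mem (h.rot.rot.ty_mul hy hy') j
  have hk₁M : ∀ m ∈ M, m * k₁ = k₁ * m := by
    intro m hm
    have c1 : Commute m y := h2 m hm
    have c2 : Commute m y' := h2' m hm
    exact ((c1.mul_right c2).pow_right j).eq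
  set x₁ := k₁⁻¹ * x * k₁ with hx₁
  have hx₁T : Ty K a x₁ := h.ty_conj hx hk₁K
  have hx₁y' : x₁ * y' = y' * x₁ := by
    rw [hx₁, ← hj]
    calc k₁⁻¹ * x * k₁ * (k₁⁻¹ * y * k₁) = k₁⁻¹ * (x * y) * k₁ := by group
      _ = k₁⁻¹ * (y * x) * k₁ := by rw [hxy]
      _ = _ := by group
  have hx₁M : ∀ m ∈ M, m * x₁ = x₁ * m := by
    intro m hm
    have c1 : Commute m k₁ := hk₁M m hm
    have c2 : Commute m x := h1 m hm
    exact ((c1.inv_right.mul_right c2).mul_right c1).eq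
  obtain ⟨i, hi⟩ := h.ty_cj hx₁T hx'
  set k₂ := (x₁ * x') ^ i with hk₂
  have hk₂K : k₂ ∈ K := K.pow_mem (h.ty_mul hx₁T hx') i
  have hk₂M : ∀ m ∈ M, m * k₂ = k₂ * m := by
    intro m hm
    have c1 : Commute m x₁ := hx₁M m hm
    have c2 : Commute m x' := h1' m hm
    exact ((c1.mul_right c2).pow_right i).eq
  have hk₂y : k₂ * y' = y' * k₂ := by
    have c1 : Commute x₁ y' := hx₁y'
    have c2 : Commute x' y' := hxy'
    exact ((c1.mul_left c2).pow_left i).eq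
  refine ⟨k₁ * k₂, K.mul_mem hk₁K hk₂K, ?_, ?_, ?_⟩
  · intro m hm
    have c1 : Commute m k₁ := hk₁M m hm
    have c2 : Commute m k₂ := hk₂M m hm
    exact (c1.mul_right c2).eq
  · calc (k₁ * k₂)⁻¹ * x * (k₁ * k₂) = k₂⁻¹ * (k₁⁻¹ * x * k₁) * k₂ := by group
      _ = x' := by rw [← hx₁, hi]
  · calc (k₁ * k₂)⁻¹ * y * (k₁ * k₂) = k₂⁻¹ * (k₁⁻¹ * y * k₁) * k₂ := by group
      _ = k₂⁻¹ * (y' * k₂) := by rw [hj]; group
      _ = y' := by rw [← hk₂y]; group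

end Fr

theorem sgm (hSig : SigS.{u}) (hShu : ShuS.{u}) (hSeq : SeqS.{u}) : SgmS.{u} := by
  intro G _ K a b c h hFin E hEF hEn hEc hβc hαc
  have hShuB := hShu G K a b c h (Cz K b) a cz_le h.aa
    (fun d hd => h.cz_inv h.aa h.cab hd) (hFin.subset (by
      rintro w ⟨hw, hwa⟩
      rw [mem_Cz] at hw
      exact mem_Fx.2 ⟨hw.1, hwa, hw.2⟩))
  have hEfin : (E : Set G).Finite := hFin.subset hEF
  -- the set `S`
  set S : Set G := {s | ∃ f ∈ E, ∃ γ ∈ Cz K c, s = γ⁻¹ * f * γ} with hS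
  have hSfin : S.Finite := by
    have : S = ⋃ f ∈ (E : Set G), {x | ∃ g ∈ Cz K c, x = g⁻¹ * f * g} := by
      ext x
      simp only [hS, Set.mem_ofPred_eq, Set.mem_iUnion, SetLike.mem_coe, exists_prop]
    rw [this]
    exact hEfin.biUnion fun f hf => fi_finite (hEc f hf)
  have hSa : ∀ s ∈ S, a * s * a ∈ S := by
    rintro s ⟨f, hf, γ, hγ, rfl⟩
    refine ⟨f, hf, a * γ * a, h.cz_inv h.aa h.cac hγ, ?_⟩
    have hf' := mem_Fx.1 (hEF hf)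
    have e : (a * γ * a)⁻¹ = a * γ⁻¹ * a := by
      rw [mul_inv_rev, mul_inv_rev, inv_of_sq h.aa]; group
    rw [e]
    calc a * (γ⁻¹ * f * γ) * a = a * γ⁻¹ * 1 * f * γ * a := by group
      _ = a * γ⁻¹ * (a * a) * f * γ * a := by rw [h.aa]
      _ = a * γ⁻¹ * a * (a * f) * γ * a := by group
      _ = a * γ⁻¹ * a * f * (a * γ * a) := by rw [← hf'.2.1]; group
  have hFa : ∀ s ∈ Fx K a b, a * s * a ∈ Fx K a b := by
    intro s hs
    have hs' := mem_Fx.1 hs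
    have e : a * s * a = s := by rw [← hs'.2.1, mul_assoc, h.aa, mul_one]
    rwa [e]
  set S₁ : Set G := {s | (s ∈ S ∨ s ∈ Fx K a b) ∧ fi (Cz K b) s} with hS₁
  set S₂ : Set G := {s | s ∈ S ∧ ¬ fi (Cz K b) s} with hS₂
  obtain ⟨α, hα, hαα⟩ := hSeq G K a b c h hFin hShuB.1 S₁ S₂
    ((hSfin.union hFin).subset fun _ hs => hs.1)
    (hSfin.subset fun _ hs => hs.1) (fun _ hs => hs.2)
    (fun s hs => ⟨hs.1.imp (hSa s) (hFa s),
      fi_inv h.aa (fun d hd => h.cz_inv h.aa h.cab hd) hs.2⟩)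
    (fun _ hs => hs.2)
  -- the set `Φ`
  set Sa : Set G := {s | ∃ f, (f ∈ Fx K a b ∧ fi (Cz K a) f) ∧ ∃ δ ∈ Cz K a, s = δ⁻¹ * f * δ}
    with hSadef
  have hSafin : Sa.Finite := by
    have : Sa = ⋃ f ∈ {f | f ∈ Fx K a b ∧ fi (Cz K a) f},
        {x | ∃ g ∈ Cz K a, x = g⁻¹ * f * g} := by
      ext x
      simp only [hSadef, Set.mem_ofPred_eq, Set.mem_iUnion, exists_prop]
    rw [this]
    exact (hFin.subset fun f hf => hf.1).biUnion fun f hf => fi_finite hf.2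
  intro f₁ hf₁ γ₀ hγ₀
  by_contra hcon
  have hγ₀' := mem_Cz.1 hγ₀
  set x := γ₀⁻¹ * a * γ₀ with hx
  have hxT : Ty K a x := h.ty_conj h.ty_a hγ₀'.1
  have hxc : x * c = c * x := by
    have c1 : Commute γ₀ c := hγ₀'.2
    have c2 : Commute a c := h.cac
    exact ((c1.inv_left.mul_left c2).mul_left c1).eq
  -- the data
  have hpen : ∀ i, ∃ δ : G, δ ∈ Cz K c ∧
      x * (α i * (δ⁻¹ * b * δ) * (α i)⁻¹) = (α i * (δ⁻¹ * b * δ) * (α i)⁻¹) * x :=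
    fun i => h.penta hγ₀ (hα i).1
  choose δ hδ hxq using hpen
  set q : ℕ → G := fun i => α i * ((δ i)⁻¹ * b * δ i) * (α i)⁻¹ with hq
  have hαK : ∀ i, α i ∈ K := fun i => cz_le (hα i).1
  have hδK : ∀ i, δ i ∈ K := fun i => cz_le (hδ i)
  have hqT : ∀ i, Ty K b (q i) := by
    intro i
    have h1 := h.rot.ty_conj (h.rot.ty_conj h.rot.ty_a (hδK i)) (K.inv_mem (hαK i))
    rwa [inv_inv] at h1
  -- `f₃`
  set f₃ : ℕ → G → G := fun i f => α i * ((δ i)⁻¹ * f * δ i) * (α i)⁻¹ with hf₃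
  have hf₃q : ∀ i, ∀ f ∈ E, f₃ i f * q i = q i * f₃ i f := by
    intro i f hf
    have hf' := mem_Fx.1 (hEF hf)
    simp only [hf₃, hq]
    calc α i * ((δ i)⁻¹ * f * δ i) * (α i)⁻¹ * (α i * ((δ i)⁻¹ * b * δ i) * (α i)⁻¹)
        = α i * ((δ i)⁻¹ * (f * b) * δ i) * (α i)⁻¹ := by group
      _ = α i * ((δ i)⁻¹ * (b * f) * δ i) * (α i)⁻¹ := by rw [hf'.2.2]
      _ = _ := by group
  have hf₃K : ∀ i, ∀ f ∈ E, f₃ i f ∈ K := by
    intro i f hf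
    exact K.mul_mem (K.mul_mem (hαK i) (h.cjk (fx_le (hEF hf)))) (K.inv_mem (hαK i))
  have hdec : ∀ i f, ∃ w n : G, f ∈ E → w ∈ Cz K (q i) ∧ n ∈ Cz K (q i) ∧
      f₃ i f = w * n ∧ w * x = x * w ∧ x * n * x = n⁻¹ := by
    intro i f
    by_cases hf : f ∈ E
    · obtain ⟨w, n, h1⟩ := h.dec (X := Cz K (q i)) cz_le hxT.1
        (fun u hu => h.cz_inv hxT.1 (hxq i) hu) (mem_Cz.2 ⟨hf₃K i f hf, hf₃q i f hf⟩)
      exact ⟨w, n, fun _ => h1⟩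
    · exact ⟨1, 1, fun hf' => absurd hf' hf⟩
  choose φ n hφn using hdec
  have hφS : ∀ i, ∀ f ∈ E, γ₀ * φ i f * γ₀⁻¹ ∈ Sa := by
    intro i f hf
    obtain ⟨h1, h2, h3, h4, h5⟩ := hφn i f hf
    rw [mem_Cz] at h1 h2
    -- `g = δ α⁻¹`, `x' = g x g⁻¹`
    set g := δ i * (α i)⁻¹ with hg
    have hgK : g ∈ K := K.mul_mem (hδK i) (K.inv_mem (hαK i))
    have hqg : q i = g⁻¹ * b * g := by simp only [hq, hg]; group
    have hf3g : f₃ i f = g⁻¹ * f * g := by simp only [hf₃, hg]; group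
    have hx'T : Ty K a (g * x * g⁻¹) := by
      have := h.ty_conj hxT (K.inv_mem hgK)
      rwa [inv_inv] at this
    have hx'b : g * x * g⁻¹ * b = b * (g * x * g⁻¹) := by
      calc g * x * g⁻¹ * b = g * (x * (g⁻¹ * b * g)) * g⁻¹ := by group
        _ = g * ((g⁻¹ * b * g) * x) * g⁻¹ := by rw [← hqg, hxq i]
        _ = _ := by group
    obtain ⟨j, hj⟩ := h.ty_cj h.ty_a hx'T
    set β' := (a * (g * x * g⁻¹)) ^ j with hβ'
    have hβ'K : β' ∈ K := K.pow_mem (h.ty_mul h.ty_a hx'T) j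
    have hβ'b : β' * b = b * β' := comm_pow h.cab hx'b j
    have hβ'C : β' ∈ Cz K b := mem_Cz.2 ⟨hβ'K, hβ'b⟩
    -- `w = β' g φ g⁻¹ β'⁻¹`
    set w := β' * g * φ i f * g⁻¹ * β'⁻¹ with hw
    set m := β' * g * n i f * g⁻¹ * β'⁻¹ with hm
    have hgm : ∀ u : G, u ∈ K → u * q i = q i * u →
        β' * g * u * g⁻¹ * β'⁻¹ ∈ Cz K b := by
      intro u hu huq
      refine mem_Cz.2 ⟨K.mul_mem (K.mul_mem (K.mul_mem (K.mul_mem hβ'K hgK) hu) (K.inv_mem hgK))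
        (K.inv_mem hβ'K), ?_⟩
      have c1 : Commute β' b := hβ'b
      have c2 : Commute (g * u * g⁻¹) b := by
        calc g * u * g⁻¹ * b = g * (u * (g⁻¹ * b * g)) * g⁻¹ := by group
          _ = g * ((g⁻¹ * b * g) * u) * g⁻¹ := by rw [← hqg, huq]
          _ = b * (g * u * g⁻¹) := by group
      have e : β' * g * u * g⁻¹ * β'⁻¹ = β' * (g * u * g⁻¹) * β'⁻¹ := by group
      rw [e]
      exact ((c1.mul_left c2).mul_left c1.inv_left).eq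
    have hwb := hgm _ h1.1 h1.2
    have hmb := hgm _ h2.1 h2.2
    rw [← hw] at hwb
    rw [← hm] at hmb
    have ea : a = β' * g * x * g⁻¹ * β'⁻¹ := by
      calc a = β' * (β'⁻¹ * a * β') * β'⁻¹ := by group
        _ = β' * (g * x * g⁻¹) * β'⁻¹ := by rw [hj]
        _ = _ := by group
    have hwa : w * a = a * w := by
      calc w * a = (β' * g * φ i f * g⁻¹ * β'⁻¹) * (β' * g * x * g⁻¹ * β'⁻¹) := by rw [← ea]
        _ = β' * g * (φ i f * x) * g⁻¹ * β'⁻¹ := by group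
        _ = β' * g * (x * φ i f) * g⁻¹ * β'⁻¹ := by rw [h4]
        _ = (β' * g * x * g⁻¹ * β'⁻¹) * (β' * g * φ i f * g⁻¹ * β'⁻¹) := by group
        _ = a * w := by rw [← ea]
    have hma : a * m * a = m⁻¹ := by
      rw [hm]
      calc a * (β' * g * n i f * g⁻¹ * β'⁻¹) * a
          = (β' * g * x * g⁻¹ * β'⁻¹) * (β' * g * n i f * g⁻¹ * β'⁻¹) *
            (β' * g * x * g⁻¹ * β'⁻¹) := by rw [← ea]
        _ = β' * g * (x * n i f * x) * g⁻¹ * β'⁻¹ := by group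
        _ = (β' * g * n i f * g⁻¹ * β'⁻¹)⁻¹ := by rw [h5]; group
    have hwF : w ∈ Fx K a b := mem_Fx.2 ⟨cz_le hwb, hwa, (mem_Cz.1 hwb).2⟩
    have hfw := hαc f hf β'⁻¹ ((Cz K b).inv_mem hβ'C) w m hwF hmb hma (by
      rw [hw, hm, inv_inv]
      calc β' * f * β'⁻¹ = β' * g * (g⁻¹ * f * g) * g⁻¹ * β'⁻¹ := by group
        _ = β' * g * (φ i f * n i f) * g⁻¹ * β'⁻¹ := by rw [← hf3g, h3]
        _ = _ := by group)
    refine ⟨w, ⟨hwF, hfw⟩, β' * g * γ₀⁻¹, ?_, ?_⟩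
    · refine mem_Cz.2 ⟨K.mul_mem (K.mul_mem hβ'K hgK) (K.inv_mem hγ₀'.1), ?_⟩
      apply comm_conj
      have e : (β' * g * γ₀⁻¹)⁻¹ * a * (β' * g * γ₀⁻¹) =
          γ₀ * (g⁻¹ * β'⁻¹ * a * β' * g) * γ₀⁻¹ := by group
      rw [e]
      nth_rewrite 1 [ea]
      calc γ₀ * (g⁻¹ * β'⁻¹ * (β' * g * x * g⁻¹ * β'⁻¹) * β' * g) * γ₀⁻¹ = γ₀ * x * γ₀⁻¹ := by
            group
        _ = a := by rw [hx]; group
    · rw [hw]; group
  have hsS : ∀ i, ∀ f ∈ E, (δ i)⁻¹ * f * δ i ∈ S :=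
    fun i f hf => ⟨f, hf, δ i, hδ i, rfl⟩
  -- pigeonhole
  have : Finite E := hEfin
  have : Finite S := hSfin
  have : Finite Sa := hSafin
  let data : ℕ → (E → S × Sa) := fun i f =>
    (⟨(δ i)⁻¹ * f.1 * δ i, hsS i f.1 f.2⟩, ⟨γ₀ * φ i f.1 * γ₀⁻¹, hφS i f.1 f.2⟩)
  have hpig : ∃ i j, i < j ∧ data i = data j := by
    obtain ⟨i, j, hij, e⟩ := Finite.exists_ne_map_eq_of_infinite data
    rcases lt_or_gt_of_ne hij with h1 | h1
    · exact ⟨i, j, h1, e⟩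
    · exact ⟨j, i, h1, e.symm⟩
  obtain ⟨i, j, hij, edata⟩ := hpig
  have es : ∀ f ∈ E, (δ i)⁻¹ * f * δ i = (δ j)⁻¹ * f * δ j := by
    intro f hf
    have h1 := congrFun edata ⟨f, hf⟩
    exact congrArg (fun p : S × Sa => (p.1 : G)) h1
  have eφ : ∀ f ∈ E, φ i f = φ j f := by
    intro f hf
    have h1 := congrFun edata ⟨f, hf⟩
    have h2 : γ₀ * φ i f * γ₀⁻¹ = γ₀ * φ j f * γ₀⁻¹ :=
      congrArg (fun p : S × Sa => (p.2 : G)) h1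
    calc φ i f = γ₀⁻¹ * (γ₀ * φ i f * γ₀⁻¹) * γ₀ := by group
      _ = γ₀⁻¹ * (γ₀ * φ j f * γ₀⁻¹) * γ₀ := by rw [h2]
      _ = φ j f := by group
  have hsC : ∀ f ∈ E, (δ i)⁻¹ * f * δ i ∈ Cz K c := by
    intro f hf
    have hf' := mem_Fx.1 (hEF hf)
    exact (Cz K c).mul_mem ((Cz K c).mul_mem ((Cz K c).inv_mem (hδ i))
      (mem_Cz.2 ⟨hf'.1, h.comm3 hf'.2.1 hf'.2.2⟩)) (hδ i)
  -- all `s_f` belong to `S₁`
  have hall : ∀ f ∈ E, (δ i)⁻¹ * f * δ i ∈ S₁ := by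
    intro f hf
    by_contra hns
    have hs2 : (δ i)⁻¹ * f * δ i ∈ S₂ := by
      refine ⟨hsS i f hf, fun h1 => hns ⟨Or.inl (hsS i f hf), h1⟩⟩
    refine (hαα i j hij).2 _ hs2 ?_
    -- decompose `s`
    obtain ⟨φs, m, h1, h2, h3, h4, h5⟩ := h.dec (X := Cz K c) cz_le h.aa
      (fun u hu => h.cz_inv h.aa h.cac hu) (hsC f hf)
    have hφs : φs ∈ Fx K a b := h.mem_F (cz_le h1) h4 (mem_Cz.1 h1).2
    have hφs1 : φs ∈ S₁ := ⟨Or.inr hφs, hβc f hf (δ i) (hδ i) φs m hφs h2 h5 h3⟩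
    obtain ⟨g1, g2, g3, g4, g5⟩ := hφn i f hf
    obtain ⟨g1', g2', g3', g4', g5'⟩ := hφn j f hf
    refine hSig G K a b c h x _ m φs (φ i f) (n i f) (n j f) (α i) (α j) hxT h3 (cz_le h2) h5
      (hαK i) (hαK j) (hα i).2.1 (hα j).2.1 (hαα i j hij).1 ((hα i).2.2 φs hφs1)
      ((hα j).2.2 φs hφs1) (cz_le g2) (cz_le g2') g5 g5' g3 ?_
    rw [eφ f hf, ← g3', es f hf]
  -- conclusion: the flags `(x, c)` and `(a, c)ᵍ`, `g = δ α⁻¹`
  set g := δ i * (α i)⁻¹ with hg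
  have hgK : g ∈ K := K.mul_mem (hδK i) (K.inv_mem (hαK i))
  have hfg : ∀ f ∈ E, g⁻¹ * f * g = (δ i)⁻¹ * f * δ i := by
    intro f hf
    have hsα := (hα i).2.2 _ (hall f hf)
    calc g⁻¹ * f * g = α i * ((δ i)⁻¹ * f * δ i) * (α i)⁻¹ := by rw [hg]; group
      _ = ((δ i)⁻¹ * f * δ i) * α i * (α i)⁻¹ := by rw [hsα]
      _ = _ := by group
  have hMc : ∀ f ∈ E, (g⁻¹ * f * g) * c = c * (g⁻¹ * f * g) := by
    intro f hf
    rw [hfg f hf]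
    exact (mem_Cz.1 (hsC f hf)).2
  have hMx : ∀ f ∈ E, (g⁻¹ * f * g) * x = x * (g⁻¹ * f * g) := by
    intro f hf
    have hsq : (g⁻¹ * f * g) * q i = q i * (g⁻¹ * f * g) := by
      have h1 := hf₃q i f hf
      have e : f₃ i f = g⁻¹ * f * g := by simp only [hf₃, hg]; group
      rwa [e] at h1
    obtain ⟨m, hm, hm1, hm2⟩ := h.rot.perp (hqT i) (h.rot.rot.ty_a)
    have hxm : x = (q i * c) ^ m :=
      h.rot.perp_uniq (hqT i) (h.rot.rot.ty_a) hxT hm (hxq i) hxc hm1 hm2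
    rw [hxm]
    have c1 : Commute (g⁻¹ * f * g) (q i) := hsq
    have c2 : Commute (g⁻¹ * f * g) c := hMc f hf
    exact ((c1.mul_right c2).pow_right m).eq
  have hgcomm : ∀ {f z : G}, f * z = z * f →
      (g⁻¹ * f * g) * (g⁻¹ * z * g) = (g⁻¹ * z * g) * (g⁻¹ * f * g) := by
    intro f z e
    calc (g⁻¹ * f * g) * (g⁻¹ * z * g) = g⁻¹ * (f * z) * g := by group
      _ = g⁻¹ * (z * f) * g := by rw [e]
      _ = _ := by group
  obtain ⟨k, hk, hkM, hkx, hkc⟩ := h.flag_conj {m | ∃ f ∈ E, m = g⁻¹ * f * g}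
    (x := g⁻¹ * a * g) (y := g⁻¹ * c * g) (x' := x) (y' := c)
    (h.ty_conj h.ty_a hgK) (h.rot.rot.ty_conj h.rot.rot.ty_a hgK) hxT h.rot.rot.ty_a
    (hgcomm h.cac) hxc
    (by rintro m ⟨f, hf, rfl⟩; exact hgcomm (mem_Fx.1 (hEF hf)).2.1)
    (by
      rintro m ⟨f, hf, rfl⟩
      exact hgcomm (h.comm3 (mem_Fx.1 (hEF hf)).2.1 (mem_Fx.1 (hEF hf)).2.2))
    (by rintro m ⟨f, hf, rfl⟩; exact hMx f hf)
    (by rintro m ⟨f, hf, rfl⟩; exact hMc f hf)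
  set w := γ₀ * (g * k)⁻¹ with hw
  have hwF : w ∈ Fx K a b := by
    refine h.mem_F (K.mul_mem hγ₀'.1 (K.inv_mem (K.mul_mem hgK hk))) ?_ ?_
    · apply comm_conj
      calc w⁻¹ * a * w = (g * k) * (γ₀⁻¹ * a * γ₀) * (g * k)⁻¹ := by rw [hw]; group
        _ = (g * k) * (k⁻¹ * (g⁻¹ * a * g) * k) * (g * k)⁻¹ := by rw [← hx, hkx]
        _ = a := by group
    · apply comm_conj
      calc w⁻¹ * c * w = (g * k) * (γ₀⁻¹ * c * γ₀) * (g * k)⁻¹ := by rw [hw]; group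
        _ = (g * k) * c * (g * k)⁻¹ := by rw [conj_comm hγ₀'.2]
        _ = (g * k) * (k⁻¹ * (g⁻¹ * c * g) * k) * (g * k)⁻¹ := by rw [hkc]
        _ = c := by group
  have hw1 := hEn w hwF f₁ hf₁
  have e : γ₀⁻¹ * f₁ * γ₀ = (δ i)⁻¹ * (w⁻¹ * f₁ * w) * δ i := by
    rw [← hfg _ hw1]
    have h1 := hkM (g⁻¹ * (w⁻¹ * f₁ * w) * g) ⟨_, hw1, rfl⟩
    calc γ₀⁻¹ * f₁ * γ₀ = k⁻¹ * ((g⁻¹ * (w⁻¹ * f₁ * w) * g) * k) := by rw [hw]; group
      _ = k⁻¹ * (k * (g⁻¹ * (w⁻¹ * f₁ * w) * g)) := by rw [h1]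
      _ = _ := by group
  rw [e] at hcon
  exact hcon (hall _ hw1).2

end Pool.Agent.FourGp.FF
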