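import Pool.Agent.Lib.MP_fb3619_al.FF.Rr

/-!
# MP_fb3619_al, board FF: (T) of finding 4303

If `C_K(c)` is infinite, then `T_c` or `P_c` is nontrivial.
-/

set_option autoImplicit false

universe u v

namespace Pool.Agent.FourGp.FF

open Pool.Agent.FourGp.H47 (Odd' inv_of_sq conj_inv_pow mul_inv_self odd_conj comm_of_inv
  mul_inv_self' comm_pow comm_inv conj_comm comm_conj)
open Pool.Agent.FourGp.H99 (LF)

variable {G : Type u} [Group G] {K : Subgroup G} {a b c : G}

/-- (T). -/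
theorem tt_or_p (hS : ShuS.{u}) (h : Fr K a b c) (hF : (Fx K a b : Set G).Finite)
    (hinf : Infinite (Cz K c)) :
    (∃ t, t ≠ 1 ∧ TT K a b c c t) ∨ (∃ f, f ≠ 1 ∧ PF K a b c f) := by
  classical
  set D := Cz K c with hD
  have hDK : D ≤ K := cz_le
  have hDa : ∀ u ∈ D, a * u * a ∈ D := fun u hu => h.cz_inv h.aa h.cac hu
  have hDb : ∀ u ∈ D, b * u * b ∈ D := fun u hu => h.cz_inv h.bb h.cbc hu
  have hfinD : {w | w ∈ D ∧ w * a = a * w}.Finite := by
    refine hF.subset ?_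
    rintro w ⟨hw, hwa⟩
    exact h.mem_F (hDK hw) hwa (mem_Cz.1 hw).2
  have hfi := (hS G K a b c h D a hDK h.aa hDa hfinD).1
  -- the class of subgroups
  let P : Subgroup G → Prop := fun X => X ≤ D ∧ X.relIndex D ≠ 0 ∧
    (∀ d ∈ D, ∀ x ∈ X, d⁻¹ * x * d ∈ X) ∧ VInv a b X
  have hP0 : P D := by
    refine ⟨le_rfl, ?_, fun d hd x hx => D.mul_mem (D.mul_mem (D.inv_mem hd) hx) hd, hDa, hDb⟩
    rw [Subgroup.relIndex_self]
    exact one_ne_zero
  have hex : ∃ n, ∃ X, P X ∧ Nat.card (X ⊓ Fx K a b : Subgroup G) = n := ⟨_, D, hP0, rfl⟩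
  obtain ⟨X, hX, hcard⟩ := Nat.find_spec hex
  have hmin : ∀ X', P X' → Nat.card (X ⊓ Fx K a b : Subgroup G) ≤
      Nat.card (X' ⊓ Fx K a b : Subgroup G) := by
    intro X' hX'
    rw [hcard]
    exact Nat.find_min' hex ⟨X', hX', rfl⟩
  obtain ⟨hXD, hXi, hXn, hXV⟩ := hX
  have hFfin : Finite (X ⊓ Fx K a b : Subgroup G) := by
    refine (hF.subset ?_).to_subtype
    intro x hx
    exact hx.2
  -- `X ∩ F` centralizes the inverted elements of `D`
  have hcent : ∀ f ∈ X ⊓ Fx K a b, ∀ u ∈ D, a * u * a = u⁻¹ → f * u = u * f := by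
    intro f hf u hu hau
    have hU := fi_finite (hfi u hu hau)
    set U : Set G := {x | ∃ g ∈ D, x = g⁻¹ * u * g} with hUdef
    have hUfi : ∀ x ∈ hU.toFinset, fi D x := by
      intro x hx
      rw [Set.Finite.mem_toFinset] at hx
      obtain ⟨g, hg, rfl⟩ := hx
      refine fi_conj ?_ (hfi u hu hau)
      intro d hd
      exact D.mul_mem (D.mul_mem hg hd) (D.inv_mem hg)
    have hCi := relIndex_centralizer hU.toFinset hUfi
    rw [Set.Finite.coe_toFinset] at hCi
    have hP' : P (X ⊓ Subgroup.centralizer U) := by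
      refine ⟨inf_le_left.trans hXD, Subgroup.relIndex_inf_ne_zero hXi hCi, ?_, ?_⟩
      · rintro d hd x ⟨hx, hxU⟩
        refine ⟨hXn d hd x hx, ?_⟩
        have hxU' := Subgroup.mem_centralizer_iff.1 hxU
        refine Subgroup.mem_centralizer_iff.2 ?_
        rintro _ ⟨g, hg, rfl⟩
        have h1 := hxU' ((g * d⁻¹)⁻¹ * u * (g * d⁻¹)) ⟨g * d⁻¹, D.mul_mem hg (D.inv_mem hd), rfl⟩
        calc g⁻¹ * u * g * (d⁻¹ * x * d)
            = d⁻¹ * ((g * d⁻¹)⁻¹ * u * (g * d⁻¹) * x) * d := by group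
          _ = d⁻¹ * (x * ((g * d⁻¹)⁻¹ * u * (g * d⁻¹))) * d := by rw [h1]
          _ = d⁻¹ * x * d * (g⁻¹ * u * g) := by group
      · have key : ∀ z : G, z * z = 1 → (∀ u ∈ D, z * u * z ∈ D) → z * u * z = u⁻¹ →
            (∀ x ∈ X, z * x * z ∈ X) → ∀ x ∈ X ⊓ Subgroup.centralizer U,
            z * x * z ∈ X ⊓ Subgroup.centralizer U := by
          rintro z hz hzD hzu hzX x ⟨hx, hxU⟩
          refine ⟨hzX x hx, ?_⟩
          have hxU' := Subgroup.mem_centralizer_iff.1 hxU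
          refine Subgroup.mem_centralizer_iff.2 ?_
          rintro _ ⟨g, hg, rfl⟩
          have h1 := hxU' ((z * g * z)⁻¹ * u * (z * g * z)) ⟨z * g * z, hzD g hg, rfl⟩
          have hzi : (z * g * z)⁻¹ = z * g⁻¹ * z := by
            rw [mul_inv_rev, mul_inv_rev, inv_of_sq hz]; group
          have e1 : z * (g⁻¹ * u * g) * z = ((z * g * z)⁻¹ * u * (z * g * z))⁻¹ := by
            have e2 : ((z * g * z)⁻¹ * u * (z * g * z))⁻¹ = (z * g * z)⁻¹ * u⁻¹ * (z * g * z) := by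
              group
            rw [e2, hzi, ← hzu]
            calc z * (g⁻¹ * u * g) * z = z * g⁻¹ * 1 * u * 1 * g * z := by group
              _ = z * g⁻¹ * (z * z) * u * (z * z) * g * z := by rw [hz]
              _ = _ := by group
          have c1 : Commute ((z * g * z)⁻¹ * u * (z * g * z)) x := h1
          have c2 := c1.inv_left
          rw [← e1] at c2
          have h3 : z * (g⁻¹ * u * g) * z * x = x * (z * (g⁻¹ * u * g) * z) := c2
          calc g⁻¹ * u * g * (z * x * z) = 1 * (g⁻¹ * u * g) * (z * x * z) := by group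
            _ = (z * z) * (g⁻¹ * u * g) * (z * x * z) := by rw [hz]
            _ = z * (z * (g⁻¹ * u * g) * z * x) * z := by group
            _ = z * (x * (z * (g⁻¹ * u * g) * z)) * z := by rw [h3]
            _ = z * x * z * (g⁻¹ * u * g) * (z * z) := by group
            _ = z * x * z * (g⁻¹ * u * g) := by rw [hz, mul_one]
        have huc := (mem_Cz.1 hu).2
        have hbu : b * u * b = u⁻¹ := by
          calc b * u * b = (c * a) * u * (a * c) := by rw [h.ca, h.ac]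
            _ = c * (a * u * a) * c := by group
            _ = c * u⁻¹ * c := by rw [hau]
            _ = u⁻¹ * (c * c) := by
              have c1 : Commute u c := huc
              rw [← c1.inv_left.eq]; group
            _ = u⁻¹ := by rw [h.cc, mul_one]
        exact ⟨key a h.aa hDa hau hXV.1, key b h.bb hDb hbu hXV.2⟩
    have hle : (X ⊓ Subgroup.centralizer U) ⊓ Fx K a b ≤ X ⊓ Fx K a b :=
      inf_le_inf_right _ inf_le_left
    have heq := Subgroup.eq_of_le_of_card_ge hle (hmin _ hP')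
    rw [← heq] at hf
    have h1 := Subgroup.mem_centralizer_iff.1 hf.1.2 u ⟨1, D.one_mem, by group⟩
    exact h1.symm
  by_cases hne : ∃ f ∈ X ⊓ Fx K a b, f ≠ 1
  · right
    obtain ⟨f, hf, hf1⟩ := hne
    exact ⟨f, hf1, hf.2, hcent f hf⟩
  · left
    push Not at hne
    have hXinv : ∀ x ∈ X, a * x * a = x⁻¹ := by
      intro x hx
      obtain ⟨w, s, hw, hs, e, h1, h2⟩ := h.dec (hXD.trans hDK) h.aa hXV.1 hx
      have hwF : w ∈ Fx K a b := h.mem_F (hDK (hXD hw)) h1 (mem_Cz.1 (hXD hw)).2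
      rw [hne w ⟨hw, hwF⟩, one_mul] at e
      rw [e, h2]
    have hXinvb : ∀ x ∈ X, b * x * b = x⁻¹ := by
      intro x hx
      have huc := (mem_Cz.1 (hXD hx)).2
      calc b * x * b = (c * a) * x * (a * c) := by rw [h.ca, h.ac]
        _ = c * (a * x * a) * c := by group
        _ = c * x⁻¹ * c := by rw [hXinv x hx]
        _ = x⁻¹ * (c * c) := by
          have c1 : Commute x c := huc
          rw [← c1.inv_left.eq]; group
        _ = x⁻¹ := by rw [h.cc, mul_one]
    have hXbot : X ≠ ⊥ := by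
      intro e
      apply hXi
      rw [e, Subgroup.relIndex_bot_left, Nat.card_eq_zero_of_infinite]
    obtain ⟨t, ht, ht1⟩ := (Subgroup.ne_bot_iff_exists_ne_one.1 hXbot) |> fun ⟨x, hx⟩ =>
      (⟨x.1, x.2, fun e => hx (Subtype.ext e)⟩ : ∃ t : G, t ∈ X ∧ t ≠ 1)
    refine ⟨t, ht1, hDK (hXD ht), (mem_Cz.1 (hXD ht)).2, ?_⟩
    have hconj : ∀ g ∈ D, g * t * g⁻¹ ∈ X := by
      intro g hg
      have := hXn g⁻¹ (D.inv_mem hg) t ht
      rwa [inv_inv] at this
    rintro y (hy | hy | hy) hyc hyne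
    · obtain ⟨j, hj⟩ := h.ty_cj h.ty_a hy
      set g := (a * y) ^ j with hg
      have hgD : g ∈ D := mem_Cz.2 ⟨K.pow_mem (h.ty_mul h.ty_a hy) j, comm_pow h.cac hyc j⟩
      calc y * t * y = g⁻¹ * a * g * t * (g⁻¹ * a * g) := by rw [hj]
        _ = g⁻¹ * (a * (g * t * g⁻¹) * a) * g := by group
        _ = g⁻¹ * (g * t * g⁻¹)⁻¹ * g := by rw [hXinv _ (hconj g hgD)]
        _ = t⁻¹ := by group
    · obtain ⟨j, hj⟩ := h.rot.ty_cj h.rot.ty_a hy
      set g := (b * y) ^ j with hg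
      have hgD : g ∈ D := mem_Cz.2 ⟨K.pow_mem (h.rot.ty_mul h.rot.ty_a hy) j, comm_pow h.cbc hyc j⟩
      calc y * t * y = g⁻¹ * b * g * t * (g⁻¹ * b * g) := by rw [hj]
        _ = g⁻¹ * (b * (g * t * g⁻¹) * b) * g := by group
        _ = g⁻¹ * (g * t * g⁻¹)⁻¹ * g := by rw [hXinvb _ (hconj g hgD)]
        _ = t⁻¹ := by group
    · exact absurd (h.rot.rot.ty_eq hy h.rot.rot.ty_a hyc) hyne

end Pool.Agent.FourGp.FF
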