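import Pool.Agent.Lib.MP_fb3619_al.FF.Rad
import Pool.Agent.Lib.MP_fb3619_al.FF.Tt
import Pool.Agent.Lib.MP_fb3619_al.FF.Uu
import Pool.Agent.Lib.MP_fb3619_al.FF.Sgm

/-!
# MP_fb3619_al, board FF: the theorems CH and U2 (finding 4303)
-/

set_option autoImplicit false

universe u v

namespace Pool.Agent.FourGp.FF

open Pool.Agent.FourGp.H47 (Odd' inv_of_sq conj_inv_pow mul_inv_self odd_conj comm_of_inv
  mul_inv_self' comm_pow comm_inv conj_comm comm_conj)
open Pool.Agent.FourGp.H99 (LF)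

/-- The sigma step (helper46). -/
def SgS : Prop := ∀ (G : Type u) [Group G] (K : Subgroup G) (a b c : G), Fr K a b c →
  (Fx K a b : Set G).Finite →
  (∀ f ∈ Fx K a b, fi (Cz K c) f → fi (Cz K b) f) →
  (∀ f ∈ Fx K a b, fi (Cz K b) f → fi (Cz K a) f) →
  ∀ f ∈ Fx K a b, fi (Cz K c) f → ∀ γ ∈ Cz K c, fi (Cz K b) (γ⁻¹ * f * γ)

/-- The sigma step for `E = F_c`. -/
theorem sgs (hS : ShuS.{u}) (hG : SgmS.{u}) : SgS.{u} := by
  intro G _ K a b c h hF h1 h2 f hf hfc γ hγ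
  have hvc : ∀ w ∈ Fx K a b, w ∈ Cz K c := fun w hw =>
    mem_Cz.2 ⟨(mem_Fx.1 hw).1, h.comm3 (mem_Fx.1 hw).2.1 (mem_Fx.1 hw).2.2⟩
  have hconj : ∀ {v g k : G}, g ∈ Cz K v → fi (Cz K v) k → fi (Cz K v) (g⁻¹ * k * g) := by
    intro v g k hg hk
    exact fi_conj (fun d hd => (Cz K v).mul_mem ((Cz K v).mul_mem hg hd)
      ((Cz K v).inv_mem hg)) hk
  have e1 : Fx K a c = Fx K a b := h.swap.fx_rot.trans Fr.fx_swap.symm
  -- inverted elements of `C_K(c)` and of `C_K(b)`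
  have hic : ∀ m ∈ Cz K c, a * m * a = m⁻¹ → fi (Cz K c) m := by
    refine (hS G K a b c h (Cz K c) a cz_le h.aa (fun d hd => h.cz_inv h.aa h.cac hd)
      (hF.subset ?_)).1
    rintro w ⟨hw, hwa⟩
    rw [← e1]
    exact mem_Fx.2 ⟨(mem_Cz.1 hw).1, hwa, (mem_Cz.1 hw).2⟩
  have hib : ∀ m ∈ Cz K b, a * m * a = m⁻¹ → fi (Cz K b) m := by
    refine (hS G K a b c h (Cz K b) a cz_le h.aa (fun d hd => h.cz_inv h.aa h.cab hd)
      (hF.subset ?_)).1
    rintro w ⟨hw, hwa⟩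
    exact mem_Fx.2 ⟨(mem_Cz.1 hw).1, hwa, (mem_Cz.1 hw).2⟩
  have hquot : ∀ {v g w m : G}, fi (Cz K v) g → fi (Cz K v) m → g = w * m → fi (Cz K v) w := by
    intro v g w m hg hm e
    have e' : w = g * m⁻¹ := by rw [e]; group
    rw [e']
    exact (HD (Cz K v)).mul_mem hg ((HD (Cz K v)).inv_mem hm)
  refine hG G K a b c h hF (Fx K a b ⊓ HD (Cz K c)) inf_le_left ?_ ?_ ?_ ?_ f ⟨hf, hfc⟩ γ hγ
  · rintro w hw e ⟨he, he'⟩
    exact ⟨(Fx K a b).mul_mem ((Fx K a b).mul_mem ((Fx K a b).inv_mem hw) he) hw,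
      hconj (hvc w hw) he'⟩
  · rintro e ⟨-, he⟩
    exact he
  · rintro e ⟨-, he⟩ g hg w m hw hm ham hgm
    exact h1 w hw (hquot (hconj hg he) (hic m hm ham) hgm)
  · rintro e ⟨he, he'⟩ g hg w m hw hm ham hgm
    exact h2 w hw (hquot (hconj hg (h1 e he he')) (hib m hm ham) hgm)

variable {G : Type u} [Group G] {K : Subgroup G} {a b c : G}

/-- (L): if the inverted elements of `C_K(b)` commute, then `T_a = T_c = 1`. -/
theorem ll (hU : UuS.{u}) (hM : MqS.{u}) (h : Fr K a b c) (hN : NoLf K a b) (hAb : Ab K b a) :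
    (∀ t, TT K a b c a t → t = 1) ∧ (∀ t, TT K a b c c t → t = 1) := by
  obtain ⟨hle, hinv, hnor, hfix⟩ := hU G K a b c h hAb
  have hLU : LF (UT K a b c) := by
    refine hM G K a b c h (UT K a b c) ⊥ hle bot_le hinv ⟨?_, ?_⟩ ?_ ?_ ?_
    · intro u hu
      rw [Subgroup.mem_bot] at hu ⊢
      rw [hu, mul_one, h.aa]
    · intro u hu
      rw [Subgroup.mem_bot] at hu ⊢
      rw [hu, mul_one, h.bb]
    · intro n _ z hz
      rw [Subgroup.mem_bot] at hz ⊢
      rw [hz]; group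
    · intro f hf hfF
      obtain ⟨-, h1, h2⟩ := mem_Fx.1 hfF
      rw [Subgroup.mem_bot]
      exact hfix f hf h1 h2
    · intro S _
      infer_instance
  have hbot := hN _ hle hinv hnor hLU
  constructor
  · intro t ht
    have h1 : t ∈ UT K a b c := Subgroup.subset_closure ⟨a, Or.inl h.ty_a, ht⟩
    rw [hbot] at h1
    exact Subgroup.mem_bot.1 h1
  · intro t ht
    have h1 : t ∈ UT K a b c := Subgroup.subset_closure ⟨c, Or.inr h.rot.rot.ty_a, ht⟩
    rw [hbot] at h1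
    exact Subgroup.mem_bot.1 h1

/-- If only the identity of `F` has finitely many conjugates in `C_K(b)`, the inverted elements of
`C_K(b)` commute. -/
theorem ab_of (hS : ShuS.{u}) (h : Fr K a b c) (hF : (Fx K a b : Set G).Finite)
    (h1 : ∀ f ∈ Fx K a b, fi (Cz K b) f → f = 1) : Ab K b a := by
  have hDa : ∀ u ∈ Cz K b, a * u * a ∈ Cz K b := fun u hu => h.cz_inv h.aa h.cab hu
  have hfinD : {w | w ∈ Cz K b ∧ w * a = a * w}.Finite := by
    refine hF.subset ?_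
    rintro w ⟨hw, hwa⟩
    exact mem_Fx.2 ⟨(mem_Cz.1 hw).1, hwa, (mem_Cz.1 hw).2⟩
  have hfi := (hS G K a b c h (Cz K b) a cz_le h.aa hDa hfinD).1
  intro u v hu hv hui hvi
  set X : Subgroup G := HD (Cz K b) ⊓ Cz K b with hX
  have hXK : X ≤ K := inf_le_right.trans cz_le
  have hXa : ∀ x ∈ X, a * x * a ∈ X := by
    rintro x ⟨hx1, hx2⟩
    exact ⟨fi_inv h.aa hDa hx1, hDa x hx2⟩
  have huX : u ∈ X := ⟨hfi u hu hui, hu⟩
  have hvX : v ∈ X := ⟨hfi v hv hvi, hv⟩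
  obtain ⟨w, s, hw, hs, e, h2, h3⟩ := h.dec hXK h.aa hXa (X.mul_mem huX hvX)
  have hw1 : w = 1 := h1 w (mem_Fx.2 ⟨hXK hw, h2, (mem_Cz.1 hw.2).2⟩) hw.1
  rw [hw1, one_mul] at e
  have e1 : a * (u * v) * a = u⁻¹ * v⁻¹ := by
    calc a * (u * v) * a = a * u * 1 * v * a := by group
      _ = a * u * (a * a) * v * a := by rw [h.aa]
      _ = (a * u * a) * (a * v * a) := by group
      _ = u⁻¹ * v⁻¹ := by rw [hui, hvi]
  have e2 : (u * v)⁻¹ = u⁻¹ * v⁻¹ := by rw [← e1, e, h3]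
  calc u * v = (u⁻¹ * v⁻¹)⁻¹ := by rw [← e2]; group
    _ = v * u := by group

/-- The conjugates under `C_K(c)` of an element of `P_c` are conjugates under `F`. -/
theorem pf_conj (h : Fr K a b c) {f : G} (hP : PF K a b c f) {g : G} (hg : g ∈ Cz K c) :
    ∃ w ∈ Fx K a b, g⁻¹ * f * g = w⁻¹ * f * w := by
  obtain ⟨w, u, hw, hu, e, h1, h2⟩ := h.dec (X := Cz K c) cz_le h.aa
    (fun u hu => h.cz_inv h.aa h.cac hu) hg
  have hwF : w ∈ Fx K a b := h.mem_F (mem_Cz.1 hw).1 h1 (mem_Cz.1 hw).2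
  refine ⟨w, hwF, ?_⟩
  have hu1 : w * u * w⁻¹ ∈ Cz K c := (Cz K c).mul_mem ((Cz K c).mul_mem hw hu)
    ((Cz K c).inv_mem hw)
  have c1 : Commute w a := h1
  have hi : a * (w * u * w⁻¹) * a = (w * u * w⁻¹)⁻¹ := by
    calc a * (w * u * w⁻¹) * a = (a * w) * u * (w⁻¹ * a) := by group
      _ = (w * a) * u * (a * w⁻¹) := by rw [← c1.eq, c1.inv_left.eq]
      _ = w * (a * u * a) * w⁻¹ := by group
      _ = _ := by rw [h2]; group
  have h3 := hP.2 _ hu1 hi
  calc g⁻¹ * f * g = u⁻¹ * (w⁻¹ * (f * (w * u * w⁻¹)) * w) := by rw [e]; group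
    _ = u⁻¹ * (w⁻¹ * ((w * u * w⁻¹) * f) * w) := by rw [h3]
    _ = w⁻¹ * f * w := by group

theorem pf_fi (h : Fr K a b c) (hF : (Fx K a b : Set G).Finite) {f : G} (hP : PF K a b c f) :
    fi (Cz K c) f := by
  apply fi_of_finite
  refine (hF.image fun w => w⁻¹ * f * w).subset ?_
  rintro x ⟨g, hg, rfl⟩
  obtain ⟨w, hw, e⟩ := pf_conj h hP hg
  exact ⟨w, hw, e.symm⟩

/-- (S). -/
theorem ss (hG : SgS.{u}) (h : Fr K a b c) (hN : NoLf K a b) (hF : (Fx K a b : Set G).Finite)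
    (h1 : ∀ f ∈ Fx K a b, fi (Cz K c) f → fi (Cz K b) f)
    (h2 : ∀ f ∈ Fx K a b, fi (Cz K b) f → fi (Cz K a) f) :
    ∀ f ∈ Fx K a b, fi (Cz K c) f → f = 1 := by
  have hsg := hG G K a b c h hF h1 h2
  have hF' : (Fx K b a : Set G).Finite := by
    rw [← Fr.fx_swap]; exact hF
  have key := covN h.swap hN.swap hF'
    (L := {x | ∃ f ∈ Fx K a b, fi (Cz K c) f ∧ ∃ γ ∈ Cz K c, x = γ⁻¹ * f * γ})
    (by
      refine (hF.biUnion (t := fun f => {x | fi (Cz K c) f ∧ ∃ γ ∈ Cz K c, x = γ⁻¹ * f * γ})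
        fun f hf => ?_).subset ?_
      · by_cases hfi : fi (Cz K c) f
        · refine (fi_finite hfi).subset ?_
          rintro x ⟨-, γ, hγ, e⟩
          exact ⟨γ, hγ, e⟩
        · convert Set.finite_empty
          ext x
          simp only [Set.mem_ofPred_eq, Set.mem_empty_iff_false, iff_false, not_and]
          exact fun h' => absurd h' hfi
      · rintro x ⟨f, hf, hfi, γ, hγ, e⟩
        rw [Set.mem_iUnion]
        refine ⟨f, ?_⟩
        rw [Set.mem_iUnion]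
        exact ⟨hf, hfi, γ, hγ, e⟩)
    (by
      rintro x ⟨f, hf, -, γ, hγ, rfl⟩
      exact h.cjk (mem_Fx.1 hf).1)
    (by
      rintro g hg x ⟨f, hf, hfi, γ, hγ, rfl⟩
      exact ⟨f, hf, hfi, γ * g, (Cz K c).mul_mem hγ hg, by group⟩)
    (by
      rintro x ⟨f, hf, hfi, γ, hγ, rfl⟩
      refine ⟨f, hf, hfi, b * γ * b, h.cz_inv h.bb h.cbc hγ, ?_⟩
      have c1 : Commute f b := (mem_Fx.1 hf).2.2
      have e : (b * γ * b)⁻¹ = b * γ⁻¹ * b := by
        rw [mul_inv_rev, mul_inv_rev, inv_of_sq h.bb]; group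
      rw [e]
      calc b * (γ⁻¹ * f * γ) * b = b * γ⁻¹ * (1 * f) * γ * b := by group
        _ = b * γ⁻¹ * ((b * b) * f) * γ * b := by rw [h.bb]
        _ = b * γ⁻¹ * (b * (b * f)) * γ * b := by group
        _ = b * γ⁻¹ * (b * (f * b)) * γ * b := by rw [c1.eq]
        _ = _ := by group)
    (by
      rintro x ⟨f, hf, hfi, γ, hγ, rfl⟩
      refine ⟨f, hf, hfi, a * γ * a, h.cz_inv h.aa h.cac hγ, ?_⟩
      have c1 : Commute f a := (mem_Fx.1 hf).2.1
      have e : (a * γ * a)⁻¹ = a * γ⁻¹ * a := by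
        rw [mul_inv_rev, mul_inv_rev, inv_of_sq h.aa]; group
      rw [e]
      calc a * (γ⁻¹ * f * γ) * a = a * γ⁻¹ * (1 * f) * γ * a := by group
        _ = a * γ⁻¹ * ((a * a) * f) * γ * a := by rw [h.aa]
        _ = a * γ⁻¹ * (a * (a * f)) * γ * a := by group
        _ = a * γ⁻¹ * (a * (f * a)) * γ * a := by rw [c1.eq]
        _ = _ := by group)
    (by
      rintro x ⟨f, hf, hfi, γ, hγ, rfl⟩
      exact hsg f hf hfi γ hγ)
  intro f hf hfi
  exact key f ⟨f, hf, hfi, 1, (Cz K c).one_mem, by group⟩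

/-- If `C_K(b)` is finite, `K` is locally finite. -/
theorem lf_of_finite (hS : ShuS.{u}) (h : Fr K a b c) (hfin : Finite (Cz K b)) : LF K := by
  refine (hS G K a b c h K b le_rfl h.bb (fun d hd => h.cjmem h.bb hd) ?_).2.2
  refine (Set.toFinite (Cz K b : Set G)).subset ?_
  rintro w ⟨hw, hwb⟩
  exact mem_Cz.2 ⟨hw, hwb⟩

/-- MASTER THEOREM: trivial locally finite radical and `F_c ≤ F_b ≤ F_a`. -/
theorem master (hS : ShuS.{u}) (hU : UuS.{u}) (hM : MqS.{u}) (hG : SgS.{u}) (h : Fr K a b c)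
    (hN : NoLf K a b) (hF : (Fx K a b : Set G).Finite)
    (h1 : ∀ f ∈ Fx K a b, fi (Cz K c) f → fi (Cz K b) f)
    (h2 : ∀ f ∈ Fx K a b, fi (Cz K b) f → fi (Cz K a) f) : LF K := by
  have hFc := ss hG h hN hF h1 h2
  have e1 : Fx K a c = Fx K a b := h.swap.fx_rot.trans Fr.fx_swap.symm
  have hF' : (Fx K a c : Set G).Finite := by rw [e1]; exact hF
  have hAb : Ab K c a := ab_of hS h.swap' hF' (by rw [e1]; exact hFc)
  have hN' : NoLf K a c := hN.swap.rot h.swap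
  have hTb := (ll hU hM h.swap' hN' hAb).2
  by_cases hfin : Finite (Cz K b)
  · exact lf_of_finite hS h hfin
  exfalso
  rw [not_finite_iff_infinite] at hfin
  rcases tt_or_p hS h.swap' hF' hfin with ⟨t, ht1, ht⟩ | ⟨f, hf1, hf⟩
  · exact ht1 (hTb t ht)
  · refine hf1 (rr h.swap' hN' hF' hf (h2 f ?_ (pf_fi h.swap' hF' hf)))
    rw [← e1]; exact hf.1

/-! ### CH -/

/-- The subgroups of `F` normalised by `F` are linearly ordered, `F` is finite. -/
def ChP (G : Type u) [Group G] (K : Subgroup G) (a b _c : G) : Prop :=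
  (Fx K a b : Set G).Finite ∧ ∀ A B : Subgroup G, A ≤ Fx K a b → B ≤ Fx K a b →
    (∀ w ∈ Fx K a b, ∀ x ∈ A, w⁻¹ * x * w ∈ A) → (∀ w ∈ Fx K a b, ∀ x ∈ B, w⁻¹ * x * w ∈ B) →
    A ≤ B ∨ B ≤ A

theorem ch_nolf (hS : ShuS.{u}) (hU : UuS.{u}) (hM : MqS.{u}) (hG : SgS.{u})
    (h : Fr K a b c) (hN : NoLf K a b) (hP : ChP G K a b c) : LF K := by
  obtain ⟨hF, hch⟩ := hP
  have eab : Fx K b a = Fx K a b := Fr.fx_swap
  have eac : Fx K a c = Fx K a b := h.swap.fx_rot.trans Fr.fx_swap.symm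
  have eca : Fx K c a = Fx K a b := Fr.fx_swap.trans eac
  have ebc : Fx K b c = Fx K a b := h.fx_rot
  have ecb : Fx K c b = Fx K a b := Fr.fx_swap.trans ebc
  have hNba : NoLf K b a := hN.swap
  have hNbc : NoLf K b c := hN.rot h
  have hNcb : NoLf K c b := hNbc.swap
  have hNca : NoLf K c a := hNbc.rot h.rot
  have hNac : NoLf K a c := hNca.swap
  -- the three subgroups
  have hn : ∀ v, (∀ w ∈ Fx K a b, w ∈ Cz K v) → ∀ w ∈ Fx K a b,
      ∀ x ∈ Fx K a b ⊓ HD (Cz K v), w⁻¹ * x * w ∈ Fx K a b ⊓ HD (Cz K v) := by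
    rintro v hv w hw x ⟨hx, hx'⟩
    refine ⟨(Fx K a b).mul_mem ((Fx K a b).mul_mem ((Fx K a b).inv_mem hw) hx) hw,
      fi_conj ?_ hx'⟩
    intro d hd
    exact (Cz K v).mul_mem ((Cz K v).mul_mem (hv w hw) hd) ((Cz K v).inv_mem (hv w hw))
  have hva : ∀ w ∈ Fx K a b, w ∈ Cz K a := fun w hw =>
    mem_Cz.2 ⟨(mem_Fx.1 hw).1, (mem_Fx.1 hw).2.1⟩
  have hvb : ∀ w ∈ Fx K a b, w ∈ Cz K b := fun w hw =>
    mem_Cz.2 ⟨(mem_Fx.1 hw).1, (mem_Fx.1 hw).2.2⟩
  have hvc : ∀ w ∈ Fx K a b, w ∈ Cz K c := fun w hw =>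
    mem_Cz.2 ⟨(mem_Fx.1 hw).1, h.comm3 (mem_Fx.1 hw).2.1 (mem_Fx.1 hw).2.2⟩
  have toimp : ∀ v w : G, Fx K a b ⊓ HD (Cz K v) ≤ Fx K a b ⊓ HD (Cz K w) →
      ∀ f ∈ Fx K a b, fi (Cz K v) f → fi (Cz K w) f := fun v w hvw f hf hfi =>
    (hvw ⟨hf, hfi⟩).2
  have hab := hch _ _ inf_le_left inf_le_left (hn a hva) (hn b hvb)
  have hbc := hch _ _ inf_le_left inf_le_left (hn b hvb) (hn c hvc)
  have hac := hch _ _ inf_le_left inf_le_left (hn a hva) (hn c hvc)
  -- the master theorem for all orders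
  rcases hab with hab | hab
  · rcases hbc with hbc | hbc
    · -- a ≤ b ≤ c
      refine master hS hU hM hG h.rot.swap hNcb (by rw [ecb]; exact hF) ?_ ?_
      · rw [ecb]; exact toimp a b hab
      · rw [ecb]; exact toimp b c hbc
    · rcases hac with hac | hac
      · -- a ≤ c ≤ b
        refine master hS hU hM hG h.rot hNbc (by rw [ebc]; exact hF) ?_ ?_
        · rw [ebc]; exact toimp a c hac
        · rw [ebc]; exact toimp c b hbc
      · -- c ≤ a ≤ b
        refine master hS hU hM hG h.swap hNba (by rw [eab]; exact hF) ?_ ?_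
        · rw [eab]; exact toimp c a hac
        · rw [eab]; exact toimp a b hab
  · rcases hbc with hbc | hbc
    · rcases hac with hac | hac
      · -- b ≤ a ≤ c
        refine master hS hU hM hG h.rot.rot hNca (by rw [eca]; exact hF) ?_ ?_
        · rw [eca]; exact toimp b a hab
        · rw [eca]; exact toimp a c hac
      · -- b ≤ c ≤ a
        refine master hS hU hM hG h.swap' hNac (by rw [eac]; exact hF) ?_ ?_
        · rw [eac]; exact toimp b c hbc
        · rw [eac]; exact toimp c a hac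
    · -- c ≤ b ≤ a
      exact master hS hU hM hG h hN hF (toimp c b hbc) (toimp b a hab)

/-- CH. -/
theorem ch (hS : ShuS.{u}) (hU : UuS.{u}) (hM : MqS.{u}) (hG : SgS.{u}) (G : Type u) [Group G]
    (K : Subgroup G) (a b c : G) (h : Fr K a b c) (hP : ChP G K a b c) : LF K := by
  refine rad ChP ?_ ?_ G K a b c h hP
  · intro G _ K N a b c Q _ K' a' b' c' π h q hP
    refine ⟨q.fx_finite h hP.1, ?_⟩
    intro A B hA hB hAn hBn
    have key := hP.2 (((A.comap π).map K.subtype) ⊓ Fx K a b) (((B.comap π).map K.subtype) ⊓ Fx K a b)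
      inf_le_right inf_le_right ?_ ?_
    · have lift : ∀ A B : Subgroup Q, A ≤ Fx K' a' b' →
          ((A.comap π).map K.subtype) ⊓ Fx K a b ≤ ((B.comap π).map K.subtype) ⊓ Fx K a b →
          A ≤ B := by
        intro A B hA hAB x hx
        obtain ⟨k, hk, rfl⟩ := q.lift_fx h (hA hx)
        obtain ⟨⟨k', hk', e⟩, -⟩ := hAB ⟨⟨k, hx, rfl⟩, hk⟩
        have : k' = k := Subtype.ext e
        rw [this] at hk'
        exact hk'
      rcases key with key | key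
      · exact Or.inl (lift A B hA key)
      · exact Or.inr (lift B A hB key)
    all_goals
      rintro w hw x ⟨⟨k, hk, rfl⟩, hkF⟩
      have hwK := (mem_Fx.1 hw).1
      refine ⟨⟨⟨w, hwK⟩⁻¹ * k * ⟨w, hwK⟩, ?_, rfl⟩, (Fx K a b).mul_mem
        ((Fx K a b).mul_mem ((Fx K a b).inv_mem hw) hkF) hw⟩
      rw [SetLike.mem_coe, Subgroup.mem_comap, map_mul, map_mul, map_inv]
      have hw' : π ⟨w, hwK⟩ ∈ Fx K' a' b' := by
        have h1 := mem_Fx.1 hw
        refine mem_Fx.2 ⟨(q.ran _).2 ⟨_, rfl⟩, ?_, ?_⟩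
        · have e1 : a * w * a = w := by rw [← h1.2.1, mul_assoc, h.aa, mul_one]
          have e2 := q.ca ⟨w, hwK⟩ ⟨w, hwK⟩ e1.symm
          calc π ⟨w, hwK⟩ * a' = a' * π ⟨w, hwK⟩ * a' * a' := by rw [← e2]
            _ = a' * π ⟨w, hwK⟩ * (a' * a') := by group
            _ = a' * π ⟨w, hwK⟩ := by rw [q.fr.aa, mul_one]
        · have e1 : b * w * b = w := by rw [← h1.2.2, mul_assoc, h.bb, mul_one]
          have e2 := q.cb ⟨w, hwK⟩ ⟨w, hwK⟩ e1.symm
          calc π ⟨w, hwK⟩ * b' = b' * π ⟨w, hwK⟩ * b' * b' := by rw [← e2]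
            _ = b' * π ⟨w, hwK⟩ * (b' * b') := by group
            _ = b' * π ⟨w, hwK⟩ := by rw [q.fr.bb, mul_one]
      first
        | exact hAn _ hw' _ hk
        | exact hBn _ hw' _ hk
  · intro G _ K a b c h hN hP
    exact ch_nolf hS hU hM hG h hN hP

/-! ### U2 -/

/-- `C_K(v)` is an FC-group modulo the condition on `F`, or its inverted elements commute. -/
def Cv (K : Subgroup G) (a b v w : G) : Prop := (∀ f ∈ Fx K a b, fi (Cz K v) f) ∨ Ab K v w

def UP (G : Type u) [Group G] (K : Subgroup G) (a b _c : G) : Prop :=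
  (Fx K a b : Set G).Finite ∧ Cv K a b a b ∧ Cv K a b b a

theorem u2_mixed (hS : ShuS.{u}) (hU : UuS.{u}) (hM : MqS.{u}) (h : Fr K a b c)
    (hN : NoLf K a b) (hF : (Fx K a b : Set G).Finite) (hA : Ab K a b)
    (hB : ∀ f ∈ Fx K a b, fi (Cz K b) f) : LF K := by
  have hT := (ll hU hM h.swap hN.swap hA).2
  by_cases hfin : Finite (Cz K c)
  · exact lf_of_finite hS h.rot hfin
  exfalso
  rw [not_finite_iff_infinite] at hfin
  have e1 : Fx K b a = Fx K a b := Fr.fx_swap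
  rcases tt_or_p hS h.swap (by rw [e1]; exact hF) hfin with ⟨t, ht1, ht⟩ | ⟨f, hf1, hf⟩
  · exact ht1 (hT t ht)
  · exact hf1 (rr h.swap hN.swap (by rw [e1]; exact hF) hf (hB f (by rw [← e1]; exact hf.1)))

theorem u2_nolf (hS : ShuS.{u}) (hU : UuS.{u}) (hM : MqS.{u}) (hG : SgS.{u})
    (h : Fr K a b c) (hN : NoLf K a b) (hP : UP G K a b c) : LF K := by
  obtain ⟨hF, hA, hB⟩ := hP
  have e1 : Fx K b a = Fx K a b := Fr.fx_swap
  rcases hA with hA | hA
  · rcases hB with hB | hB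
    · exact master hS hU hM hG h hN hF (fun f hf _ => hB f hf) (fun f hf _ => hA f hf)
    · exact u2_mixed hS hU hM h.swap hN.swap (by rw [e1]; exact hF) hB (by rw [e1]; exact hA)
  · rcases hB with hB | hB
    · exact u2_mixed hS hU hM h hN hF hA hB
    · -- both commute
      have hT := (ll hU hM h.swap hN.swap hA).1
      refine lf_of_finite hS h ?_
      have hb1 : ∀ u ∈ Cz K b, a * u * a = u⁻¹ → u = 1 := by
        intro u hu hau
        apply hT
        refine ⟨(mem_Cz.1 hu).1, (mem_Cz.1 hu).2, ?_⟩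
        rintro y (hy | hy | hy) hyb hyne
        · exact absurd (h.rot.ty_eq hy h.rot.ty_a hyb) hyne
        · exact Uu.inv1 h hB h.ty_a h.cab (mem_Cz.1 hu).1 (mem_Cz.1 hu).2 hau (Or.inl hy) hyb
        · exact Uu.inv1 h hB h.ty_a h.cab (mem_Cz.1 hu).1 (mem_Cz.1 hu).2 hau (Or.inr hy) hyb
      have hsub : (Cz K b : Set G) ⊆ Fx K a b := ?_
      · exact (hF.subset hsub).to_subtype
      intro g hg
      obtain ⟨w, s, hw, hs, e, h2, h3⟩ := h.dec (X := Cz K b) cz_le h.aa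
        (fun u hu => h.cz_inv h.aa h.cab hu) hg
      rw [hb1 s hs h3, mul_one] at e
      rw [e]
      exact mem_Fx.2 ⟨(mem_Cz.1 hw).1, h2, (mem_Cz.1 hw).2⟩

/-- U2. -/
theorem u2 (hS : ShuS.{u}) (hU : UuS.{u}) (hM : MqS.{u}) (hG : SgS.{u}) (G : Type u) [Group G]
    (K : Subgroup G) (a b c : G) (h : Fr K a b c) (hP : UP G K a b c) : LF K := by
  refine rad UP ?_ ?_ G K a b c h hP
  · intro G _ K N a b c Q _ K' a' b' c' π h q hP
    obtain ⟨hF, hA, hB⟩ := hP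
    refine ⟨q.fx_finite h hF, ?_, ?_⟩
    · rcases hA with hA | hA
      · left
        intro f hf
        obtain ⟨k, hk, rfl⟩ := q.lift_fx h hf
        exact q.fi_map h (hA k hk)
      · right
        intro u v hu hv hui hvi
        obtain ⟨k, hk, hki, rfl⟩ := q.swap.lift_ab h.swap hu hui
        obtain ⟨l, hl, hli, rfl⟩ := q.swap.lift_ab h.swap hv hvi
        have := hA k l hk hl hki hli
        rw [← map_mul, ← map_mul]
        congr 1
        exact Subtype.ext this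
    · rcases hB with hB | hB
      · left
        intro f hf
        obtain ⟨k, hk, rfl⟩ := q.lift_fx h hf
        exact q.swap.fi_map h.swap (hB k hk)
      · right
        intro u v hu hv hui hvi
        obtain ⟨k, hk, hki, rfl⟩ := q.lift_ab h hu hui
        obtain ⟨l, hl, hli, rfl⟩ := q.lift_ab h hv hvi
        have := hB k l hk hl hki hli
        rw [← map_mul, ← map_mul]
        congr 1
        exact Subtype.ext this
  · intro G _ K a b c h hN hP
    exact u2_nolf hS hU hM hG h hN hP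

end Pool.Agent.FourGp.FF
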