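import Pool.Agent.Lib.MP_fb3619_al.FF.Fac

/-!
# MP_fb3619_al, board FF: statements of the modules. Paper: finding 4267.
-/

set_option autoImplicit false

universe u

namespace Pool.Agent.FourGp.FF

open Pool.Agent.FourGp.H99 (LF)

/-- `X` is invariant under the four-group. -/
def VInv {G : Type u} [Group G] (a b : G) (X : Subgroup G) : Prop :=
  (∀ u ∈ X, a * u * a ∈ X) ∧ (∀ u ∈ X, b * u * b ∈ X)

/-- The elements of `C_K(r)` inverted by `s` commute. -/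
def Ab {G : Type u} [Group G] (K : Subgroup G) (r s : G) : Prop :=
  ∀ u v : G, u ∈ Cz K r → v ∈ Cz K r → s * u * s = u⁻¹ → s * v * s = v⁻¹ → u * v = v * u

/-- `T_v` has finite index in `C_K(v)`: finitely many translates of `T_v` cover `C_K(v)`. -/
def FiT {G : Type u} [Group G] (K : Subgroup G) (a b c v : G) : Prop :=
  ∃ R : Set G, R.Finite ∧ ∀ g ∈ Cz K v, ∃ r ∈ R, ∃ t, TT K a b c v t ∧ g = r * t

/-- The subgroup generated by the `T_v`, `v` of type `a` or `c`. -/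
def UT {G : Type u} [Group G] (K : Subgroup G) (a b c : G) : Subgroup G :=
  Subgroup.closure {u | ∃ v, (Ty K a v ∨ Ty K c v) ∧ TT K a b c v u}

/-- SIG: the sigma argument (paper 2). -/
def SigS : Prop := ∀ (G : Type u) [Group G] (K : Subgroup G) (a b c : G), Fr K a b c →
  ∀ x s m φ φ₁ n n' β β' : G, Ty K a x → s = φ * m → m ∈ K → a * m * a = m⁻¹ →
  β ∈ K → β' ∈ K → a * β * a = β⁻¹ → a * β' * a = β'⁻¹ → β * β' = β' * β →
  φ * β = β * φ → φ * β' = β' * φ → n ∈ K → n' ∈ K → x * n * x = n⁻¹ → x * n' * x = n'⁻¹ →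
  β * s * β⁻¹ = φ₁ * n → β' * s * β'⁻¹ = φ₁ * n' → (β⁻¹ * β') * s = s * (β⁻¹ * β')

/-- SHU: Shunkov-Neumann (paper 0.2). -/
def ShuS : Prop := ∀ (G : Type u) [Group G] (K : Subgroup G) (a b c : G), Fr K a b c →
  ∀ (D : Subgroup G) (t : G), D ≤ K → t * t = 1 → (∀ d ∈ D, t * d * t ∈ D) →
  {w | w ∈ D ∧ w * t = t * w}.Finite →
  (∀ u ∈ D, t * u * t = u⁻¹ → fi D u) ∧
  (∀ g ∈ D, ∃ w ∈ D, w * t = t * w ∧ fi D (w⁻¹ * g)) ∧ LF D

/-- SEQ: the sequence of pairwise commuting elements (paper 3). -/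
def SeqS : Prop := ∀ (G : Type u) [Group G] (K : Subgroup G) (a b c : G), Fr K a b c →
  (Fx K a b : Set G).Finite → (∀ u ∈ Cz K b, a * u * a = u⁻¹ → fi (Cz K b) u) →
  ∀ S₁ S₂ : Set G, S₁.Finite → S₂.Finite → (∀ s ∈ S₁, fi (Cz K b) s) →
  (∀ s ∈ S₁, a * s * a ∈ S₁) → (∀ s ∈ S₂, ¬ fi (Cz K b) s) →
  ∃ α : ℕ → G, (∀ i, α i ∈ Cz K b ∧ a * α i * a = (α i)⁻¹ ∧ ∀ s ∈ S₁, s * α i = α i * s) ∧
    ∀ i j, i < j → α i * α j = α j * α i ∧
      ∀ s ∈ S₂, ((α i)⁻¹ * α j) * s ≠ s * ((α i)⁻¹ * α j)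

/-- PPP: Proposition P (paper 3): `C_B(F^C)` has finite index in `B`. -/
def PppS : Prop := ∀ (G : Type u) [Group G] (K : Subgroup G) (a b c : G), Fr K a b c →
  (Fx K a b : Set G).Finite →
  (∀ f ∈ Fx K a b, fi (Cz K a) f ∧ fi (Cz K b) f ∧ fi (Cz K c) f) →
  ∀ f ∈ Fx K a b, ∀ γ ∈ Cz K c, fi (Cz K b) (γ⁻¹ * f * γ)

/-- MQ: `N/Z` without fixed points, `Z` locally finite (from `part3_main`). -/
def MqS : Prop := ∀ (G : Type u) [Group G] (K : Subgroup G) (a b c : G), Fr K a b c →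
  ∀ N Z : Subgroup G, N ≤ K → Z ≤ N → VInv a b N → VInv a b Z →
  (∀ n ∈ N, ∀ z ∈ Z, n⁻¹ * z * n ∈ Z) → (∀ f ∈ N, f ∈ Fx K a b → f ∈ Z) → LF Z → LF N

/-- CNT: in a locally finite `N`, a `V`-invariant subgroup of finite index in the three
centralizers has finite index (paper 4). -/
def CntS : Prop := ∀ (G : Type u) [Group G] (K : Subgroup G) (a b c : G), Fr K a b c →
  (Fx K a b : Set G).Finite →
  ∀ N L : Subgroup G, N ≤ K → L ≤ N → VInv a b N → VInv a b L → LF N →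
  (∀ v, v = a ∨ v = b ∨ v = c → L.relIndex (N ⊓ Subgroup.centralizer {v}) ≠ 0) →
  L.relIndex N ≠ 0

/-- FCT: Theorem FC (paper 4). -/
def FctS : Prop := ∀ (G : Type u) [Group G] (K : Subgroup G) (a b c : G), Fr K a b c →
  (Fx K a b : Set G).Finite →
  (∀ f ∈ Fx K a b, fi (Cz K a) f ∧ fi (Cz K b) f ∧ fi (Cz K c) f) → LF K

/-- UU: paper 5. -/
def UuS : Prop := ∀ (G : Type u) [Group G] (K : Subgroup G) (a b c : G), Fr K a b c →
  Ab K b a → UT K a b c ≤ K ∧ VInv a b (UT K a b c) ∧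
  (∀ k ∈ K, ∀ u ∈ UT K a b c, k⁻¹ * u * k ∈ UT K a b c) ∧
  (∀ u ∈ UT K a b c, u * a = a * u → u * b = b * u → u = 1)

/-- CS1: case 1 of paper 6. -/
def Cs1S : Prop := ∀ (G : Type u) [Group G] (K : Subgroup G) (a b c : G), Fr K a b c →
  Ab K b a → FiT K a b c c → LF K

/-- CS2: case 2 of paper 6. -/
def Cs2S : Prop := ∀ (G : Type u) [Group G] (K : Subgroup G) (a b c : G), Fr K a b c →
  (Fx K a b : Set G).Finite → (∀ α ∈ Cz K a, ∀ f ∈ Fx K a b, f * α = α * f) →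
  (∀ γ ∈ Cz K c, ∀ f ∈ Fx K a b, f * γ = γ * f) → LF K

/-- TRI: the three possibilities for the type `b` (paper 6). -/
def TriS : Prop := ∀ (G : Type u) [Group G] (K : Subgroup G) (a b c : G), Fr K a b c →
  (Nat.card (Fx K a b)).Prime →
  (Ab K b a ∧ FiT K a b c b) ∨
  ((∀ f ∈ Fx K a b, fi (Cz K b) f) ∧
    (FiT K a b c b ∨ ∀ β ∈ Cz K b, ∀ f ∈ Fx K a b, f * β = β * f))

/-- PT: Theorem P (paper 6). -/
def PtS : Prop := ∀ (G : Type u) [Group G] (K : Subgroup G) (a b c : G), Fr K a b c →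
  (Nat.card (Fx K a b)).Prime → LF K

end Pool.Agent.FourGp.FF
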