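import Pool.Agent.Lib.MP_fb3619_al.FF.Rr

/-!
# MP_fb3619_al, board FF: reduction to trivial locally finite radical (finding 4303)
-/

set_option autoImplicit false

universe u v

namespace Pool.Agent.FourGp.FF

open Pool.Agent.FourGp.H47 (Odd' inv_of_sq conj_inv_pow mul_inv_self odd_conj comm_of_inv
  mul_inv_self' comm_pow comm_inv conj_comm comm_conj)
open Pool.Agent.FourGp.H99 (LF LF_ext LF_of_surj)

/-- `K'` is the quotient of `K` by `N`, with the induced four-group. -/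
structure QD {G : Type u} [Group G] (K N : Subgroup G) (a b c : G) {Q : Type u} [Group Q]
    (K' : Subgroup Q) (a' b' c' : Q) (π : K →* Q) : Prop where
  fr : Fr K' a' b' c'
  ran : ∀ q, q ∈ K' ↔ ∃ k, π k = q
  ker : ∀ k : K, π k = 1 ↔ (k : G) ∈ N
  ca : ∀ k k' : K, (k' : G) = a * k * a → π k' = a' * π k * a'
  cb : ∀ k k' : K, (k' : G) = b * k * b → π k' = b' * π k * b'
  cc : ∀ k k' : K, (k' : G) = c * k * c → π k' = c' * π k * c'

section

variable {G : Type u} [Group G] {K N : Subgroup G} {a b c : G} {Q : Type u} [Group Q]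
  {K' : Subgroup Q} {a' b' c' : Q} {π : K →* Q}

theorem QD.rot (q : QD K N a b c K' a' b' c' π) : QD K N b c a K' b' c' a' π :=
  ⟨q.fr.rot, q.ran, q.ker, q.cb, q.cc, q.ca⟩

theorem QD.swap (q : QD K N a b c K' a' b' c' π) : QD K N b a c K' b' a' c' π :=
  ⟨q.fr.swap, q.ran, q.ker, q.cb, q.ca, q.cc⟩

/-- Decomposition in the quotient. -/
theorem QD.dec (h : Fr K a b c) (_q : QD K N a b c K' a' b' c' π) {z : G} {z' : Q}
    (hz : z * z = 1) (hz' : z' * z' = 1)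
    (hc : ∀ k k' : K, (k' : G) = z * k * z → π k' = z' * π k * z') {X : Subgroup G} (hX : X ≤ K)
    (hzX : ∀ u ∈ X, z * u * z ∈ X) {k : K} (hk : (k : G) ∈ X) :
    ∃ w s : K, (w : G) ∈ X ∧ (s : G) ∈ X ∧ (w : G) * z = z * w ∧ z * (s : G) * z = (s : G)⁻¹ ∧
      π k = π w * π s ∧ π w * z' = z' * π w ∧ z' * π s * z' = (π s)⁻¹ := by
  obtain ⟨w, s, hw, hs, e, h1, h2⟩ := h.dec hX hz hzX hk
  refine ⟨⟨w, hX hw⟩, ⟨s, hX hs⟩, hw, hs, h1, h2, ?_, ?_, ?_⟩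
  · rw [← map_mul]
    congr 1
    exact Subtype.ext e
  · have e1 : z * w * z = w := by rw [← h1, mul_assoc, hz, mul_one]
    have e2 := hc ⟨w, hX hw⟩ ⟨w, hX hw⟩ e1.symm
    calc π ⟨w, hX hw⟩ * z' = z' * π ⟨w, hX hw⟩ * z' * z' := by rw [← e2]
      _ = z' * π ⟨w, hX hw⟩ * (z' * z') := by group
      _ = z' * π ⟨w, hX hw⟩ := by rw [hz', mul_one]
  · have e2 := hc ⟨s, hX hs⟩ ⟨s, hX hs⟩⁻¹ (by
      rw [Subgroup.coe_inv]; exact h2.symm)
    rw [← e2, map_inv]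

theorem QD.lift_fix (h : Fr K a b c) (q : QD K N a b c K' a' b' c' π) {z : G} {z' : Q}
    (hz : z * z = 1) (hz' : z' * z' = 1)
    (hc : ∀ k k' : K, (k' : G) = z * k * z → π k' = z' * π k * z') {X : Subgroup G} (hX : X ≤ K)
    (hzX : ∀ u ∈ X, z * u * z ∈ X) {k : K} (hk : (k : G) ∈ X) (hq : π k * z' = z' * π k) :
    ∃ w : K, (w : G) ∈ X ∧ (w : G) * z = z * w ∧ π w = π k := by
  obtain ⟨w, s, hw, hs, h1, h2, e, h3, h4⟩ := q.dec h hz hz' hc hX hzX hk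
  refine ⟨w, hw, h1, ?_⟩
  have h5 := q.fr.dec_uniq (z := z') (w := π w) (s := π s) (w' := π k) (s' := 1) hz'
    ((q.ran _).2 ⟨s, rfl⟩) (K'.one_mem) h3 hq h4 (by rw [mul_one, hz']; simp)
    (by rw [mul_one, e])
  exact h5.1

theorem QD.lift_inv (h : Fr K a b c) (q : QD K N a b c K' a' b' c' π) {z : G} {z' : Q}
    (hz : z * z = 1) (hz' : z' * z' = 1)
    (hc : ∀ k k' : K, (k' : G) = z * k * z → π k' = z' * π k * z') {X : Subgroup G} (hX : X ≤ K)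
    (hzX : ∀ u ∈ X, z * u * z ∈ X) {k : K} (hk : (k : G) ∈ X) (hq : z' * π k * z' = (π k)⁻¹) :
    ∃ s : K, (s : G) ∈ X ∧ z * (s : G) * z = (s : G)⁻¹ ∧ π s = π k := by
  obtain ⟨w, s, hw, hs, h1, h2, e, h3, h4⟩ := q.dec h hz hz' hc hX hzX hk
  refine ⟨s, hs, h2, ?_⟩
  have h5 := q.fr.dec_uniq (z := z') (w := π w) (s := π s) (w' := 1) (s' := π k) hz'
    ((q.ran _).2 ⟨s, rfl⟩) ((q.ran _).2 ⟨k, rfl⟩) h3 (by rw [one_mul, mul_one]) h4 hq
    (by rw [one_mul, e])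
  exact h5.2

theorem QD.lift_cz (h : Fr K a b c) (q : QD K N a b c K' a' b' c' π) {x : Q}
    (hx : x ∈ Cz K' a') : ∃ k : K, (k : G) ∈ Cz K a ∧ π k = x := by
  rw [mem_Cz] at hx
  obtain ⟨k, rfl⟩ := (q.ran _).1 hx.1
  obtain ⟨w, hw, h1, e⟩ := q.lift_fix h h.aa q.fr.aa q.ca (X := K) le_rfl
    (fun u hu => h.cjmem h.aa hu) k.2 hx.2
  exact ⟨w, mem_Cz.2 ⟨hw, h1⟩, e⟩

theorem QD.lift_fx (h : Fr K a b c) (q : QD K N a b c K' a' b' c' π) {x : Q}
    (hx : x ∈ Fx K' a' b') : ∃ k : K, (k : G) ∈ Fx K a b ∧ π k = x := by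
  rw [mem_Fx] at hx
  obtain ⟨k, hk, rfl⟩ := q.lift_cz h (mem_Cz.2 ⟨hx.1, hx.2.1⟩)
  obtain ⟨w, hw, h1, e⟩ := q.lift_fix h h.bb q.fr.bb q.cb (X := Cz K a) cz_le
    (fun u hu => h.cz_inv h.bb h.cab.symm hu) hk hx.2.2
  rw [mem_Cz] at hw
  exact ⟨w, mem_Fx.2 ⟨hw.1, hw.2, h1⟩, e⟩

/-- elements of `C_K'(b')` inverted by `a'` -/
theorem QD.lift_ab (h : Fr K a b c) (q : QD K N a b c K' a' b' c' π) {x : Q}
    (hx : x ∈ Cz K' b') (hi : a' * x * a' = x⁻¹) :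
    ∃ k : K, (k : G) ∈ Cz K b ∧ a * (k : G) * a = (k : G)⁻¹ ∧ π k = x := by
  obtain ⟨k, hk, rfl⟩ := q.rot.lift_cz h.rot hx
  obtain ⟨w, hw, h1, e⟩ := q.lift_inv h h.aa q.fr.aa q.ca (X := Cz K b) cz_le
    (fun u hu => h.cz_inv h.aa h.cab hu) hk hi
  exact ⟨w, hw, h1, e⟩

/-- `fi` passes to the quotient. -/
theorem QD.fi_map (h : Fr K a b c) (q : QD K N a b c K' a' b' c' π) {k : K}
    (hk : fi (Cz K a) k) : fi (Cz K' a') (π k) := by
  apply fi_of_finite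
  have h1 := fi_finite hk
  have h2 : ∀ x ∈ {x | ∃ g ∈ Cz K a, x = g⁻¹ * (k : G) * g}, x ∈ K := by
    rintro x ⟨g, hg, rfl⟩
    exact h.cjk k.2
  classical
  refine (h1.image fun x => if hx : x ∈ K then π ⟨x, hx⟩ else 1).subset ?_
  rintro x ⟨g, hg, rfl⟩
  obtain ⟨g', hg', rfl⟩ := q.lift_cz h hg
  refine ⟨(g' : G)⁻¹ * k * g', ⟨g', hg', rfl⟩, ?_⟩
  have hm : (g' : G)⁻¹ * k * g' ∈ K := h.cjk k.2
  simp only [hm, dif_pos]
  rw [← map_inv, ← map_mul, ← map_mul]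
  congr 1

theorem QD.fx_finite (h : Fr K a b c) (q : QD K N a b c K' a' b' c' π)
    (hF : (Fx K a b : Set G).Finite) : (Fx K' a' b' : Set Q).Finite := by
  classical
  refine (hF.image fun x => if hx : x ∈ K then π ⟨x, hx⟩ else 1).subset ?_
  intro x hx
  obtain ⟨k, hk, rfl⟩ := q.lift_fx h hx
  exact ⟨k, hk, by simp⟩

end

/-- Existence of the quotient. -/
theorem exists_QD {G : Type u} [Group G] {K N : Subgroup G} {a b c : G} (h : Fr K a b c)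
    (hN : N ≤ K) (hV : VInv a b N) (hn : ∀ k ∈ K, ∀ n ∈ N, k⁻¹ * n * k ∈ N) :
    ∃ (Q : Type u) (_ : Group Q) (K' : Subgroup Q) (a' b' c' : Q) (π : K →* Q),
      QD K N a b c K' a' b' c' π := by
  have hcV : ∀ u ∈ N, c * u * c ∈ N := (hV.rot h).2
  set M : Subgroup G := NS (N : Set G) with hM
  have haM : a ∈ M := NS_invol h.aa hV.1
  have hbM : b ∈ M := NS_invol h.bb hV.2
  have hcM : c ∈ M := NS_invol h.cc hcV
  have hKM : K ≤ M := by
    intro k hk t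
    refine ⟨fun ht => hn k hk t ht, fun ht => ?_⟩
    have h1 := hn k⁻¹ (K.inv_mem hk) _ ht
    have e : k⁻¹⁻¹ * (k⁻¹ * t * k) * k⁻¹ = t := by group
    rwa [e] at h1
  set N' : Subgroup M := N.subgroupOf M with hN'
  have hNn : N'.Normal := by
    refine ⟨?_⟩
    intro n hn g
    rw [hN', Subgroup.mem_subgroupOf] at hn ⊢
    have h1 := (M.inv_mem g.2 (n : G)).1 hn
    have e : ((g : G)⁻¹)⁻¹ * n * (g : G)⁻¹ = ((g * n * g⁻¹ : M) : G) := by
      push_cast; group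
    rwa [e] at h1
  let Q := M ⧸ N'
  let mk : M →* Q := QuotientGroup.mk' N'
  have hmk : ∀ m : M, mk m = 1 ↔ (m : G) ∈ N := by
    intro m
    rw [← MonoidHom.mem_ker, QuotientGroup.ker_mk', hN', Subgroup.mem_subgroupOf]
  let π : K →* Q := mk.comp (Subgroup.inclusion hKM)
  have hπ : ∀ k : K, π k = mk ⟨k, hKM k.2⟩ := fun _ => rfl
  have hnot : ∀ (z : G) (hz : z ∈ M), z ∉ K → mk ⟨z, hz⟩ ∉ (K.subgroupOf M).map mk := by
    rintro z hz hzK ⟨m, hm, e⟩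
    apply hzK
    have hm' : (m : G) ∈ K := Subgroup.mem_subgroupOf.1 hm
    have h1 : mk (m⁻¹ * ⟨z, hz⟩) = 1 := by rw [map_mul, map_inv, e, inv_mul_cancel]
    have h2 := hN ((hmk _).1 h1)
    have h3 := K.mul_mem hm' h2
    have e2 : (m : G) * ((m⁻¹ * ⟨z, hz⟩ : M) : G) = z := by push_cast; group
    rwa [e2] at h3
  have hsq : ∀ (z : G) (hz : z ∈ M), z * z = 1 → mk ⟨z, hz⟩ * mk ⟨z, hz⟩ = 1 := by
    intro z hz hzz
    rw [← map_mul, ← map_one mk]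
    congr 1
    exact Subtype.ext hzz
  refine ⟨Q, inferInstance, (K.subgroupOf M).map mk, mk ⟨a, haM⟩, mk ⟨b, hbM⟩, mk ⟨c, hcM⟩, π, ?_⟩
  have hcj : ∀ (z : G) (hz : z ∈ M), z * z = 1 → ∀ k k' : K, (k' : G) = z * k * z →
      π k' = mk ⟨z, hz⟩ * π k * mk ⟨z, hz⟩ := by
    intro z hz hzz k k' e
    rw [hπ, hπ, ← map_mul, ← map_mul]
    congr 1
    exact Subtype.ext e
  refine ⟨⟨?_, ?_, hsq a haM h.aa, hsq b hbM h.bb, hsq c hcM h.cc, ?_, hnot a haM h.na,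
    hnot b hbM h.nb, hnot c hcM h.nc⟩, ?_, ?_, hcj a haM h.aa, hcj b hbM h.bb, hcj c hcM h.cc⟩
  · have h1 : (K.subgroupOf M).Normal := by
      refine ⟨fun n hn g => ?_⟩
      rw [Subgroup.mem_subgroupOf] at hn ⊢
      exact h.nor.conj_mem _ hn g
    exact h1.map mk (QuotientGroup.mk'_surjective N')
  · rintro _ ⟨m, hm, rfl⟩
    obtain ⟨n, hn⟩ := h.odd _ (Subgroup.mem_subgroupOf.1 hm)
    refine ⟨n, ?_⟩
    rw [← map_pow, ← map_one mk]
    congr 1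
    exact Subtype.ext (by simpa using hn)
  · rw [← map_mul]
    congr 1
    exact Subtype.ext h.ab
  · intro q
    constructor
    · rintro ⟨m, hm, rfl⟩
      exact ⟨⟨m, Subgroup.mem_subgroupOf.1 hm⟩, rfl⟩
    · rintro ⟨k, rfl⟩
      exact ⟨⟨k, hKM k.2⟩, Subgroup.mem_subgroupOf.2 k.2, rfl⟩
  · intro k
    rw [hπ, hmk]

theorem VInv_comap {G : Type u} [Group G] {K N : Subgroup G} {a b c : G} {Q : Type u} [Group Q]
    {K' : Subgroup Q} {a' b' c' : Q} {π : K →* Q} (h : Fr K a b c)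
    (q : QD K N a b c K' a' b' c' π) {Z : Subgroup Q} (hZ : VInv a' b' Z) :
    VInv a b ((Z.comap π).map K.subtype) := by
  constructor
  · rintro _ ⟨k, hk, rfl⟩
    have hm : a * (k : G) * a ∈ K := h.cjmem h.aa k.2
    refine ⟨⟨a * k * a, hm⟩, ?_, rfl⟩
    rw [SetLike.mem_coe, Subgroup.mem_comap, q.ca k ⟨a * k * a, hm⟩ rfl]
    exact hZ.1 _ hk
  · rintro _ ⟨k, hk, rfl⟩
    have hm : b * (k : G) * b ∈ K := h.cjmem h.bb k.2
    refine ⟨⟨b * k * b, hm⟩, ?_, rfl⟩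
    rw [SetLike.mem_coe, Subgroup.mem_comap, q.cb k ⟨b * k * b, hm⟩ rfl]
    exact hZ.2 _ hk

/-- Extensions. -/
theorem QD.LF_comap {G : Type u} [Group G] {K N : Subgroup G} {a b c : G} {Q : Type u} [Group Q]
    {K' : Subgroup Q} {a' b' c' : Q} {π : K →* Q}
    (q : QD K N a b c K' a' b' c' π) (hN : LF N) {Z : Subgroup Q} (hZ : LF Z) :
    LF ((Z.comap π).map K.subtype : Subgroup G) := by
  have h1 : LF (Z.comap π) := by
    let f : Z.comap π →* Z := (π.comp (Z.comap π).subtype).codRestrict Z (fun x => x.2)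
    have hf : ∀ x : Z.comap π, ((f x : Z) : Q) = π x := fun _ => rfl
    refine LF_of_ker f ?_ hZ
    refine LF_of_inj (B := N) ((K.subtype.comp ((Z.comap π).subtype.comp f.ker.subtype)).codRestrict
      N ?_) ?_ hN
    · intro x
      have hx : f x.1 = 1 := x.2
      have hx' := congrArg (fun z : Z => (z : Q)) hx
      exact (q.ker _).1 hx'
    · intro x y hxy
      have := congrArg (fun z : N => (z : G)) hxy
      exact Subtype.ext (Subtype.ext (Subtype.ext this))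
  refine LF_of_inj (B := Z.comap π)
    ((Z.comap π).equivMapOfInjective K.subtype K.subtype_injective).symm.toMonoidHom
    (MulEquiv.injective _) h1

theorem QD.LF_of_quot {G : Type u} [Group G] {K N : Subgroup G} {a b c : G} {Q : Type u} [Group Q]
    {K' : Subgroup Q} {a' b' c' : Q} {π : K →* Q}
    (q : QD K N a b c K' a' b' c' π) (hN : LF N) (hK' : LF K') : LF K := by
  have h1 := q.LF_comap hN hK'
  refine LF_mono ?_ h1
  intro k hk
  exact ⟨⟨k, hk⟩, (q.ran _).2 ⟨_, rfl⟩, rfl⟩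

/-- A maximal normal locally finite subgroup. -/
theorem exists_rad {G : Type u} [Group G] {K : Subgroup G} {a b c : G} (h : Fr K a b c) :
    ∃ N : Subgroup G, (N ≤ K ∧ VInv a b N ∧ (∀ k ∈ K, ∀ n ∈ N, k⁻¹ * n * k ∈ N) ∧ LF N) ∧
      ∀ Z : Subgroup G, Z ≤ K → VInv a b Z → (∀ k ∈ K, ∀ n ∈ Z, k⁻¹ * n * k ∈ Z) → LF Z →
        N ≤ Z → Z ≤ N := by
  let s : Set (Subgroup G) :=
    {N | N ≤ K ∧ VInv a b N ∧ (∀ k ∈ K, ∀ n ∈ N, k⁻¹ * n * k ∈ N) ∧ LF N}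
  have hbot : (⊥ : Subgroup G) ∈ s := by
    refine ⟨bot_le, ⟨?_, ?_⟩, ?_, ?_⟩
    · intro u hu
      rw [Subgroup.mem_bot] at hu ⊢
      rw [hu, mul_one, h.aa]
    · intro u hu
      rw [Subgroup.mem_bot] at hu ⊢
      rw [hu, mul_one, h.bb]
    · intro k _ n hn
      rw [Subgroup.mem_bot] at hn ⊢
      rw [hn]; group
    · intro S _
      infer_instance
  obtain ⟨N, -, hN⟩ := zorn_le_nonempty₀ s (by
    intro C hC hchain y hy
    have hdir : DirectedOn (· ≤ ·) C := hchain.directedOn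
    have hne : C.Nonempty := ⟨y, hy⟩
    have hmem : ∀ x, x ∈ sSup C ↔ ∃ N ∈ C, x ∈ N := fun x => Subgroup.mem_sSup_of_directedOn hne hdir
    refine ⟨sSup C, ⟨sSup_le fun N hN => (hC hN).1, ⟨?_, ?_⟩, ?_, ?_⟩, fun z hz => le_sSup hz⟩
    · intro u hu
      obtain ⟨N, hN, huN⟩ := (hmem u).1 hu
      exact (hmem _).2 ⟨N, hN, (hC hN).2.1.1 u huN⟩
    · intro u hu
      obtain ⟨N, hN, huN⟩ := (hmem u).1 hu
      exact (hmem _).2 ⟨N, hN, (hC hN).2.1.2 u huN⟩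
    · intro k hk n hn
      obtain ⟨N, hN, hnN⟩ := (hmem n).1 hn
      exact (hmem _).2 ⟨N, hN, (hC hN).2.2.1 k hk n hnN⟩
    · classical
      refine LF_sub ?_
      rintro Y hY ⟨T, hT⟩
      have key : ∀ T : Finset G, (∀ t ∈ T, t ∈ sSup C) → ∃ N ∈ C, ∀ t ∈ T, t ∈ N := by
        intro T
        induction T using Finset.induction_on with
        | empty => exact fun _ => ⟨y, hy, fun t ht => absurd ht (Finset.notMem_empty t)⟩
        | insert t T _ ih =>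
          intro hT
          obtain ⟨N₁, hN₁, h1⟩ := ih fun t ht => hT t (Finset.mem_insert_of_mem ht)
          obtain ⟨N₂, hN₂, h2⟩ := (hmem t).1 (hT t (Finset.mem_insert_self _ _))
          obtain ⟨N₃, hN₃, h3, h4⟩ := hdir N₁ hN₁ N₂ hN₂
          refine ⟨N₃, hN₃, fun r hr => ?_⟩
          rcases Finset.mem_insert.1 hr with rfl | hr
          · exact h4 h2
          · exact h3 (h1 r hr)
      obtain ⟨N, hN, h1⟩ := key T fun t ht => hY (by
        rw [← hT]; exact Subgroup.subset_closure ht)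
      have hYN : Y ≤ N := by
        rw [← hT, Subgroup.closure_le]
        exact h1
      have h2 : LF Y := LF_mono hYN (hC hN).2.2.2
      have h3 : Finite (⊤ : Subgroup Y) := by
        refine h2 ⊤ ?_
        rw [← Group.fg_def, Group.fg_iff_subgroup_fg]
        exact ⟨T, hT⟩
      exact Finite.of_equiv _ (Subgroup.topEquiv (G := Y)).toEquiv) ⊥ hbot
  refine ⟨N, hN.prop, ?_⟩
  intro Z h1 h2 h3 h4 h5
  exact hN.le_of_ge (y := Z) ⟨h1, h2, h3, h4⟩ h5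

/-- RAD: it is enough to consider trivial locally finite radical. -/
theorem rad (P : ∀ (G : Type u) [Group G], Subgroup G → G → G → G → Prop)
    (hP : ∀ (G : Type u) [Group G] (K N : Subgroup G) (a b c : G) (Q : Type u) [Group Q]
      (K' : Subgroup Q) (a' b' c' : Q) (π : K →* Q), Fr K a b c →
      QD K N a b c K' a' b' c' π → P G K a b c → P Q K' a' b' c')
    (hmain : ∀ (G : Type u) [Group G] (K : Subgroup G) (a b c : G), Fr K a b c →
      NoLf K a b → P G K a b c → LF K)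
    (G : Type u) [Group G] (K : Subgroup G) (a b c : G) (h : Fr K a b c) (hPK : P G K a b c) :
    LF K := by
  obtain ⟨N, ⟨hN1, hN2, hN3, hN4⟩, hmax⟩ := exists_rad h
  obtain ⟨Q, _, K', a', b', c', π, q⟩ := exists_QD h hN1 hN2 hN3
  refine q.LF_of_quot hN4 ?_
  refine hmain Q K' a' b' c' q.fr ?_ (hP G K N a b c Q K' a' b' c' π h q hPK)
  intro Z hZ1 hZ2 hZ3 hZ4
  have h1 := hmax ((Z.comap π).map K.subtype) (by
      rintro _ ⟨k, -, rfl⟩
      exact k.2) (VInv_comap h q hZ2) (by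
      rintro k hk _ ⟨n, hn, rfl⟩
      refine ⟨⟨k, hk⟩⁻¹ * n * ⟨k, hk⟩, ?_, rfl⟩
      rw [SetLike.mem_coe, Subgroup.mem_comap, map_mul, map_mul, map_inv]
      exact hZ3 _ ((q.ran _).2 ⟨_, rfl⟩) _ hn) (q.LF_comap hN4 hZ4) (by
      intro n hn
      refine ⟨⟨n, hN1 hn⟩, ?_, rfl⟩
      rw [SetLike.mem_coe, Subgroup.mem_comap, (q.ker ⟨n, hN1 hn⟩).2 hn]
      exact Z.one_mem)
  rw [eq_bot_iff]
  intro z hz
  obtain ⟨k, rfl⟩ := (q.ran _).1 (hZ1 hz)
  rw [Subgroup.mem_bot, q.ker]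
  exact h1 ⟨k, hz, rfl⟩

end Pool.Agent.FourGp.FF
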