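import Pool.Agent.Lib.MP_fb3619_al.FF.Cov

/-!
# MP_fb3619_al, board FF: consequences of SH and COV when the locally finite radical is trivial
(finding 4303)
-/

set_option autoImplicit false

universe u v

namespace Pool.Agent.FourGp.FF

open Pool.Agent.FourGp.H47 (Odd' inv_of_sq conj_inv_pow mul_inv_self odd_conj comm_of_inv
  mul_inv_self' comm_pow comm_inv conj_comm comm_conj)
open Pool.Agent.FourGp.H99 (LF)

variable {G : Type u} [Group G]

/-- `K` has no nontrivial normal locally finite subgroup invariant under the four-group. -/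
def NoLf (K : Subgroup G) (a b : G) : Prop :=
  ∀ N : Subgroup G, N ≤ K → VInv a b N → (∀ k ∈ K, ∀ n ∈ N, k⁻¹ * n * k ∈ N) → LF N → N = ⊥

/-- The elements of `F` which commute with the inverted part of `C_K(c)`. -/
def PF (K : Subgroup G) (a b c f : G) : Prop :=
  f ∈ Fx K a b ∧ ∀ u ∈ Cz K c, a * u * a = u⁻¹ → f * u = u * f

variable {K : Subgroup G} {a b c : G}

theorem VInv.swap {X : Subgroup G} (hX : VInv a b X) : VInv b a X := ⟨hX.2, hX.1⟩

theorem VInv.rot (h : Fr K a b c) {X : Subgroup G} (hX : VInv a b X) : VInv b c X := by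
  refine ⟨hX.2, fun u hu => ?_⟩
  have e : c * u * c = a * (b * u * b) * a := by
    calc c * u * c = (a * b) * u * (b * a) := by rw [h.ab, h.ba]
      _ = _ := by group
  rw [e]
  exact hX.1 _ (hX.2 u hu)

theorem NoLf.swap (hN : NoLf K a b) : NoLf K b a := fun N h1 h2 => hN N h1 h2.swap

theorem NoLf.rot (h : Fr K a b c) (hN : NoLf K a b) : NoLf K b c := fun N h1 h2 =>
  hN N h1 (h2.rot h.rot |>.rot h.rot.rot)

/-- COV with SH: a finite set invariant under `C_K(c)` and the four-group, whose elements have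
finitely many conjugates under `C_K(a)`, is trivial. -/
theorem covN (h : Fr K a b c) (hN : NoLf K a b) (hF : (Fx K a b : Set G).Finite) {L : Set G}
    (hL : L.Finite) (hLK : L ⊆ K) (hLc : ∀ g ∈ Cz K c, ∀ s ∈ L, g⁻¹ * s * g ∈ L)
    (hLa : ∀ s ∈ L, a * s * a ∈ L) (hLb : ∀ s ∈ L, b * s * b ∈ L)
    (hfi : ∀ s ∈ L, fi (Cz K a) s) : ∀ s ∈ L, s = 1 := by
  have hcov := cov h hF hL hLc hLa hLb hfi
  set N : Subgroup G := Subgroup.closure {t | ∃ k ∈ K, ∃ s ∈ L, t = k⁻¹ * s * k} with hNdef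
  have hNK : N ≤ K := by
    rw [hNdef, Subgroup.closure_le]
    rintro t ⟨k, hk, s, hs, rfl⟩
    exact h.cjk (hLK hs)
  have hNfi : ∀ u ∈ N, fi (Cz K a) u := by
    have h1 : N ≤ HD (Cz K a) := by
      rw [hNdef, Subgroup.closure_le]
      rintro t ⟨k, hk, s, hs, rfl⟩
      exact hcov k hk s hs
    exact fun u hu => h1 hu
  have hz : ∀ z : G, z * z = 1 → (∀ s ∈ L, z * s * z ∈ L) → ∀ u ∈ N, z * u * z ∈ N := by
    intro z hzz hzL u hu
    refine Subgroup.closure_induction (p := fun u _ => z * u * z ∈ N) ?_ ?_ ?_ ?_ hu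
    · rintro t ⟨k, hk, s, hs, rfl⟩
      refine Subgroup.subset_closure ⟨z * k * z, h.cjmem hzz hk, _, hzL s hs, ?_⟩
      have e : (z * k * z)⁻¹ = z * k⁻¹ * z := by
        rw [mul_inv_rev, mul_inv_rev, inv_of_sq hzz]; group
      rw [e]
      calc z * (k⁻¹ * s * k) * z = z * k⁻¹ * 1 * s * 1 * k * z := by group
        _ = z * k⁻¹ * (z * z) * s * (z * z) * k * z := by rw [hzz]
        _ = _ := by group
    · rw [mul_one, hzz]; exact N.one_mem
    · intro x y _ _ hx hy
      have e : z * (x * y) * z = (z * x * z) * (z * y * z) := by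
        calc z * (x * y) * z = z * x * 1 * y * z := by group
          _ = z * x * (z * z) * y * z := by rw [hzz]
          _ = _ := by group
      rw [e]; exact N.mul_mem hx hy
    · intro x _ hx
      have e : z * x⁻¹ * z = (z * x * z)⁻¹ := by
        rw [mul_inv_rev, mul_inv_rev, inv_of_sq hzz]; group
      rw [e]; exact N.inv_mem hx
  have hNn : ∀ k ∈ K, ∀ n ∈ N, k⁻¹ * n * k ∈ N := by
    intro k hk n hn
    refine Subgroup.closure_induction (p := fun n _ => k⁻¹ * n * k ∈ N) ?_ ?_ ?_ ?_ hn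
    · rintro t ⟨g, hg, s, hs, rfl⟩
      exact Subgroup.subset_closure ⟨g * k, K.mul_mem hg hk, s, hs, by group⟩
    · have e : k⁻¹ * 1 * k = (1 : G) := by group
      rw [e]; exact N.one_mem
    · intro x y _ _ hx hy
      have e : k⁻¹ * (x * y) * k = (k⁻¹ * x * k) * (k⁻¹ * y * k) := by group
      rw [e]; exact N.mul_mem hx hy
    · intro x _ hx
      have e : k⁻¹ * x⁻¹ * k = (k⁻¹ * x * k)⁻¹ := by group
      rw [e]; exact N.inv_mem hx
  have hbot := hN N hNK ⟨hz a h.aa hLa, hz b h.bb hLb⟩ hNn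
    (sh h hNK (hz a h.aa hLa) hNfi)
  intro s hs
  have h1 : s ∈ N := Subgroup.subset_closure ⟨1, K.one_mem, s, hs, by group⟩
  rw [hbot] at h1
  exact Subgroup.mem_bot.1 h1

/-- (R): `P_c ∩ F_a = 1`. -/
theorem rr (h : Fr K a b c) (hN : NoLf K a b) (hF : (Fx K a b : Set G).Finite) {f : G}
    (hP : PF K a b c f) (hfi : fi (Cz K a) f) : f = 1 := by
  have hFa : ∀ w ∈ Fx K a b, w ∈ Cz K a := fun w hw => mem_Cz.2 ⟨(mem_Fx.1 hw).1, (mem_Fx.1 hw).2.1⟩
  have hFc : ∀ w ∈ Fx K a b, w ∈ Cz K c := fun w hw => mem_Cz.2 ⟨(mem_Fx.1 hw).1,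
    h.comm3 (mem_Fx.1 hw).2.1 (mem_Fx.1 hw).2.2⟩
  have hfx := hP.1
  have key := covN h hN hF (L := {t | ∃ w ∈ Fx K a b, t = w⁻¹ * f * w})
    ((hF.image fun w => w⁻¹ * f * w).subset (by
      rintro t ⟨w, hw, rfl⟩
      exact ⟨w, hw, rfl⟩))
    (by
      rintro t ⟨w, hw, rfl⟩
      exact h.cjk (mem_Fx.1 hfx).1)
    (by
      rintro g hg t ⟨w, hw, rfl⟩
      have hgK := (mem_Cz.1 hg).1
      obtain ⟨w', u, hw', hu, e, h1, h2⟩ := h.dec (X := Cz K c) cz_le h.aa
        (fun u hu => h.cz_inv h.aa h.cac hu) hg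
      have hw'F : w' ∈ Fx K a b := h.mem_F (mem_Cz.1 hw').1 h1 (mem_Cz.1 hw').2
      have hw1 : w * w' ∈ Fx K a b := (Fx K a b).mul_mem hw hw'F
      refine ⟨w * w', hw1, ?_⟩
      -- `w₁ u w₁⁻¹` is inverted by `a`
      have hu1 : (w * w') * u * (w * w')⁻¹ ∈ Cz K c :=
        (Cz K c).mul_mem ((Cz K c).mul_mem (hFc _ hw1) hu) ((Cz K c).inv_mem (hFc _ hw1))
      have c1 : Commute (w * w') a := (mem_Fx.1 hw1).2.1
      have hi : a * ((w * w') * u * (w * w')⁻¹) * a = ((w * w') * u * (w * w')⁻¹)⁻¹ := by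
        calc a * ((w * w') * u * (w * w')⁻¹) * a
            = (a * (w * w')) * u * ((w * w')⁻¹ * a) := by group
          _ = ((w * w') * a) * u * (a * (w * w')⁻¹) := by rw [← c1.eq, c1.inv_left.eq]
          _ = (w * w') * (a * u * a) * (w * w')⁻¹ := by group
          _ = _ := by rw [h2]; group
      have h3 := hP.2 _ hu1 hi
      have h4 : (w * w')⁻¹ * f * (w * w') * u = u * ((w * w')⁻¹ * f * (w * w')) := by
        calc (w * w')⁻¹ * f * (w * w') * u
            = (w * w')⁻¹ * (f * ((w * w') * u * (w * w')⁻¹)) * (w * w') := by group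
          _ = (w * w')⁻¹ * (((w * w') * u * (w * w')⁻¹) * f) * (w * w') := by rw [h3]
          _ = _ := by group
      calc g⁻¹ * (w⁻¹ * f * w) * g = u⁻¹ * (((w * w')⁻¹ * f * (w * w')) * u) := by rw [e]; group
        _ = u⁻¹ * (u * ((w * w')⁻¹ * f * (w * w'))) := by rw [h4]
        _ = _ := by group)
    (by
      rintro t ⟨w, hw, rfl⟩
      refine ⟨w, hw, ?_⟩
      have c1 : Commute w a := (mem_Fx.1 hw).2.1
      have c2 : Commute f a := (mem_Fx.1 hfx).2.1
      have c3 : Commute (w⁻¹ * f * w) a := (c1.inv_left.mul_left c2).mul_left c1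
      rw [← c3.eq, mul_assoc, h.aa, mul_one])
    (by
      rintro t ⟨w, hw, rfl⟩
      refine ⟨w, hw, ?_⟩
      have c1 : Commute w b := (mem_Fx.1 hw).2.2
      have c2 : Commute f b := (mem_Fx.1 hfx).2.2
      have c3 : Commute (w⁻¹ * f * w) b := (c1.inv_left.mul_left c2).mul_left c1
      rw [← c3.eq, mul_assoc, h.bb, mul_one])
    (by
      rintro t ⟨w, hw, rfl⟩
      refine fi_conj ?_ hfi
      intro d hd
      exact (Cz K a).mul_mem ((Cz K a).mul_mem (hFa w hw) hd) ((Cz K a).inv_mem (hFa w hw)))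
  exact key f ⟨1, (Fx K a b).one_mem, by group⟩

end Pool.Agent.FourGp.FF
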