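import Pool.Agent.Lib.MP_fb3619_al.FF.Iface

/-!
# MP_fb3619_al, board FF, row SIG: the sigma argument
-/

set_option autoImplicit false

universe u

namespace Pool.Agent.FourGp.FF

open Pool.Agent.FourGp.H47 (Odd' inv_of_sq conj_inv_pow mul_inv_self odd_conj comm_of_inv
  mul_inv_self' comm_pow comm_inv conj_comm comm_conj)

theorem sig : SigS.{u} := by
  intro G _ K a b c h x s m φ φ₁ n n' β β' hx hs hm hma hβ hβ' hβa hβ'a hcom hφβ hφβ' hn hn'
    hxn hxn' e e'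
  set k := β⁻¹ * β' with hk
  have hkK : k ∈ K := K.mul_mem (K.inv_mem hβ) hβ'
  have cββ' : Commute β β' := hcom
  have hka : a * k * a = k⁻¹ := by
    have e1 : a * β⁻¹ * a = β := by
      have := congrArg (fun x => x⁻¹) hβa
      simp only [mul_inv_rev, inv_of_sq h.aa, inv_inv] at this
      exact (mul_assoc _ _ _).trans this
    calc a * k * a = a * β⁻¹ * 1 * β' * a := by rw [hk]; group
      _ = a * β⁻¹ * (a * a) * β' * a := by rw [h.aa]
      _ = (a * β⁻¹ * a) * (a * β' * a) := by group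
      _ = β * β'⁻¹ := by rw [e1, hβ'a]
      _ = β'⁻¹ * β := (cββ'.inv_right).eq
      _ = k⁻¹ := by rw [hk]; group
  have hφk : φ * k = k * φ := by
    have c1 : Commute φ β := hφβ
    have c2 : Commute φ β' := hφβ'
    exact (c1.inv_right.mul_right c2).eq
  obtain ⟨t, ht, htc⟩ := h.comm_cent h.ty_a hm hkK hma hka
  have hσ : n'⁻¹ * n = β' * (m⁻¹ * k⁻¹ * m * k) * β'⁻¹ := by
    have e1 : s⁻¹ * k⁻¹ * s * k = m⁻¹ * k⁻¹ * m * k := by
      rw [hs]
      have c1 : Commute φ k := hφk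
      calc (φ * m)⁻¹ * k⁻¹ * (φ * m) * k = m⁻¹ * (φ⁻¹ * k⁻¹) * φ * m * k := by group
        _ = m⁻¹ * (k⁻¹ * φ⁻¹) * φ * m * k := by rw [(c1.inv_left.inv_right).eq]
        _ = m⁻¹ * k⁻¹ * m * k := by group
    calc n'⁻¹ * n = (φ₁ * n')⁻¹ * (φ₁ * n) := by group
      _ = (β' * s * β'⁻¹)⁻¹ * (β * s * β⁻¹) := by rw [e, e']
      _ = β' * (s⁻¹ * k⁻¹ * s * k) * β'⁻¹ := by rw [hk]; group
      _ = _ := by rw [e1]
  obtain ⟨ht', hi⟩ := h.inv_inv hx hn' hxn hxn'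
  have h1 := h.parity (t := β' * t * β'⁻¹) (t' := x * n') (u := n'⁻¹ * n)
    (by
      have := h.ty_conj ht (K.inv_mem hβ')
      rwa [inv_inv] at this) ht' (K.mul_mem (K.inv_mem hn') hn)
    (by
      rw [hσ]
      calc β' * (m⁻¹ * k⁻¹ * m * k) * β'⁻¹ * (β' * t * β'⁻¹)
          = β' * ((m⁻¹ * k⁻¹ * m * k) * t) * β'⁻¹ := by group
        _ = β' * (t * (m⁻¹ * k⁻¹ * m * k)) * β'⁻¹ := by rw [htc]
        _ = _ := by group) hi
  rw [hσ] at h1
  have h2 : m⁻¹ * k⁻¹ * m * k = 1 := by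
    calc m⁻¹ * k⁻¹ * m * k = β'⁻¹ * (β' * (m⁻¹ * k⁻¹ * m * k) * β'⁻¹) * β' := by group
      _ = 1 := by rw [h1]; group
  have h3 : m * k = k * m := by
    calc m * k = k * m * (m⁻¹ * k⁻¹ * m * k) := by group
      _ = k * m := by rw [h2, mul_one]
  rw [hs]
  calc k * (φ * m) = (k * φ) * m := by group
    _ = φ * (k * m) := by rw [← hφk]; group
    _ = φ * m * k := by rw [← h3]; group

end Pool.Agent.FourGp.FF
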