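import Pool.Agent.Lib.MP_fb3619_al.FF.Iface

/-!
# MP_fb3619_al, board FF: finite index and finitely many cosets; small tools
-/

set_option autoImplicit false

universe u

namespace Pool.Agent.FourGp.FF

open Pool.Agent.FourGp.H47 (Odd' inv_of_sq conj_inv_pow mul_inv_self odd_conj comm_of_inv
  mul_inv_self' comm_pow comm_inv conj_comm comm_conj)

variable {G : Type u} [Group G]

/-- Finite index: finitely many right cosets. -/
theorem cover_of_relIndex {L D : Subgroup G} (h : L.relIndex D ≠ 0) :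
    ∃ R : Finset G, (∀ r ∈ R, r ∈ D) ∧ ∀ g ∈ D, ∃ r ∈ R, g * r⁻¹ ∈ L := by
  classical
  have hfi : (L.subgroupOf D).FiniteIndex := ⟨h⟩
  have : Finite (D ⧸ L.subgroupOf D) := Subgroup.finite_quotient_of_finiteIndex
  have : Fintype (D ⧸ L.subgroupOf D) := Fintype.ofFinite _
  refine ⟨Finset.univ.image fun q : D ⧸ L.subgroupOf D => ((Quotient.out q : D) : G)⁻¹, ?_, ?_⟩
  · intro r hr
    obtain ⟨q, -, rfl⟩ := Finset.mem_image.1 hr
    exact D.inv_mem (Quotient.out q).2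
  · intro g hg
    set q : D ⧸ L.subgroupOf D := QuotientGroup.mk (⟨g, hg⟩ : D)⁻¹ with hq
    refine ⟨_, Finset.mem_image_of_mem _ (Finset.mem_univ q), ?_⟩
    have h1 : (QuotientGroup.mk (Quotient.out q) : D ⧸ L.subgroupOf D) =
        QuotientGroup.mk (⟨g, hg⟩ : D)⁻¹ := by
      rw [← hq]; exact Quotient.out_eq q
    have h2 := QuotientGroup.eq.1 h1
    rw [Subgroup.mem_subgroupOf] at h2
    have h3 := L.inv_mem h2
    have e : ((((Quotient.out q)⁻¹ * (⟨g, hg⟩ : D)⁻¹ : D) : G))⁻¹ =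
        g * (((Quotient.out q : D) : G)⁻¹)⁻¹ := by
      simp
    rwa [e] at h3

theorem relIndex_of_cover {L D : Subgroup G} (R : Set G) (hR : R.Finite)
    (h : ∀ g ∈ D, ∃ r ∈ R, g * r⁻¹ ∈ L) : L.relIndex D ≠ 0 := by
  classical
  have : Finite R := hR
  have h' : ∀ q : D ⧸ L.subgroupOf D, ∃ r : R, ((Quotient.out q : D) : G)⁻¹ * (r : G)⁻¹ ∈ L := by
    intro q
    obtain ⟨r, hr, h1⟩ := h _ (D.inv_mem (Quotient.out q).2)
    exact ⟨⟨r, hr⟩, h1⟩
  choose f hf using h'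
  have hinj : Function.Injective f := by
    intro q q' e
    have h1 := hf q
    have h2 := hf q'
    rw [← e] at h2
    have h3 := L.mul_mem h1 (L.inv_mem h2)
    have e2 : ((Quotient.out q : D) : G)⁻¹ * ((f q : R) : G)⁻¹ *
        (((Quotient.out q' : D) : G)⁻¹ * ((f q : R) : G)⁻¹)⁻¹ =
        (((Quotient.out q)⁻¹ * Quotient.out q' : D) : G) := by
      simp
    rw [e2] at h3
    have h4 : (Quotient.out q)⁻¹ * Quotient.out q' ∈ L.subgroupOf D := by
      rw [Subgroup.mem_subgroupOf]; exact h3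
    have h5 := QuotientGroup.eq.2 h4
    calc q = QuotientGroup.mk (Quotient.out q) := (Quotient.out_eq q).symm
      _ = QuotientGroup.mk (Quotient.out q') := h5
      _ = q' := Quotient.out_eq q'
  have : Finite (D ⧸ L.subgroupOf D) := Finite.of_injective f hinj
  exact Subgroup.index_ne_zero_of_finite

/-- Finitely many conjugates. -/
theorem fi_finite {D : Subgroup G} {s : G} (h : fi D s) :
    {x | ∃ g ∈ D, x = g⁻¹ * s * g}.Finite := by
  classical
  obtain ⟨R, -, hR⟩ := cover_of_relIndex h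
  refine (R.finite_toSet.image fun r => r⁻¹ * s * r).subset ?_
  rintro x ⟨g, hg, rfl⟩
  obtain ⟨r, hr, h1⟩ := hR g hg
  refine ⟨r, hr, ?_⟩
  rw [Subgroup.mem_centralizer_singleton_iff] at h1
  calc r⁻¹ * s * r = r⁻¹ * s * (g * r⁻¹)⁻¹ * g := by group
    _ = r⁻¹ * ((g * r⁻¹)⁻¹ * s) * g := by
      have h2 : Commute (g * r⁻¹) s := h1
      rw [(h2.inv_left).eq]; group
    _ = g⁻¹ * s * g := by group

theorem fi_of_finite {D : Subgroup G} {s : G} (h : {x | ∃ g ∈ D, x = g⁻¹ * s * g}.Finite) :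
    fi D s := by
  classical
  have h1 : ∀ x ∈ {x | ∃ g ∈ D, x = g⁻¹ * s * g}, ∃ r : G, x = r⁻¹ * s * r := by
    rintro x ⟨g, -, e⟩
    exact ⟨g, e⟩
  choose! r hr using h1
  refine relIndex_of_cover (r '' {x | ∃ g ∈ D, x = g⁻¹ * s * g}) (h.image r) ?_
  intro g hg
  have hx : g⁻¹ * s * g ∈ {x | ∃ g ∈ D, x = g⁻¹ * s * g} := ⟨g, hg, rfl⟩
  refine ⟨_, Set.mem_image_of_mem r hx, ?_⟩
  rw [Subgroup.mem_centralizer_singleton_iff]
  have e := hr _ hx
  set r0 := r (g⁻¹ * s * g)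
  calc g * r0⁻¹ * s = g * (r0⁻¹ * s * r0) * r0⁻¹ := by group
    _ = g * (g⁻¹ * s * g) * r0⁻¹ := by rw [← e]
    _ = s * (g * r0⁻¹) := by group

/-- `fi` is invariant under conjugation by an involution normalising `D`. -/
theorem fi_inv {D : Subgroup G} {s z : G} (hz : z * z = 1) (hD : ∀ d ∈ D, z * d * z ∈ D)
    (h : fi D s) : fi D (z * s * z) := by
  apply fi_of_finite
  refine ((fi_finite h).image fun x => z * x * z).subset ?_
  rintro x ⟨g, hg, rfl⟩
  refine ⟨(z * g * z)⁻¹ * s * (z * g * z), ⟨z * g * z, hD g hg, rfl⟩, ?_⟩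
  have e : (z * g * z)⁻¹ = z * g⁻¹ * z := by
    rw [mul_inv_rev, mul_inv_rev, inv_of_sq hz]; group
  simp only [e]
  calc z * (z * g⁻¹ * z * s * (z * g * z)) * z
      = (z * z) * g⁻¹ * z * s * z * g * (z * z) := by group
    _ = g⁻¹ * (z * s * z) * g := by rw [hz]; group

theorem cz_le {K : Subgroup G} {x : G} : Cz K x ≤ K := fun _ hg => (mem_Cz.1 hg).1

theorem fx_le {K : Subgroup G} {x y : G} : Fx K x y ≤ K := fun _ hg => (mem_Fx.1 hg).1

variable {K : Subgroup G} {a b c : G}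

namespace Fr

/-- `C_K(x)` is invariant under an involution commuting with `x`. -/
theorem cz_inv (h : Fr K a b c) {x z u : G} (hz : z * z = 1) (hzx : z * x = x * z)
    (hu : u ∈ Cz K x) : z * u * z ∈ Cz K x := by
  rw [mem_Cz] at hu ⊢
  refine ⟨h.cjmem hz hu.1, ?_⟩
  have c1 : Commute z x := hzx
  have c2 : Commute u x := hu.2
  exact ((c1.mul_left c2).mul_left c1).eq

/-- the third involution -/
theorem comm3 (h : Fr K a b c) {w : G} (h1 : w * a = a * w) (h2 : w * b = b * w) :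
    w * c = c * w := by
  have c1 : Commute w a := h1
  have c2 : Commute w b := h2
  rw [← h.ab]
  exact (c1.mul_right c2).eq

theorem mem_F (h : Fr K a b c) {w : G} (hw : w ∈ K) (h1 : w * a = a * w) (h2 : w * c = c * w) :
    w ∈ Fx K a b := by
  have c1 : Commute w a := h1
  have c2 : Commute w c := h2
  refine mem_Fx.2 ⟨hw, h1, ?_⟩
  rw [← h.ac]
  exact (c1.mul_right c2).eq

theorem fx_swap : Fx K a b = Fx K b a := by
  ext w
  rw [mem_Fx, mem_Fx]
  tauto

theorem fx_rot (h : Fr K a b c) : Fx K b c = Fx K a b := by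
  ext w
  constructor
  · intro hw
    rw [mem_Fx] at hw
    have c1 : Commute w b := hw.2.1
    have c2 : Commute w c := hw.2.2
    refine mem_Fx.2 ⟨hw.1, ?_, hw.2.1⟩
    rw [← h.bc]
    exact (c1.mul_right c2).eq
  · intro hw
    rw [mem_Fx] at hw
    exact mem_Fx.2 ⟨hw.1, hw.2.2, h.comm3 hw.2.1 hw.2.2⟩

end Fr

end Pool.Agent.FourGp.FF
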